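import Pool.Agent.Lib.MP_b5021c_nt.BP.H12.T2m
import Pool.Agent.Lib.MP_b5021c_nt.BP.H57.V1z

/-!
# Board b5, BpS: THE ASSEMBLY of THEOREM B' (BPX) from its rows (helper12)

Induction on the level `N`; `N = 2` is `V1zS`; at each level first `g ≠ 1`, then `g = 1`.
-/

namespace Pool.Agent.B5.BP12

open scoped LaurentPolynomial
open Polynomial
open Pool.Agent.B5
open Pool.Agent.B5.BPR

set_option linter.unusedSectionVars false

/-! ## One variable -/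

/-- z-free: the normalised coefficients are constants. -/
theorem gz1 {L : Type} [AddCommGroup L] {E : AO ℤ L} (h : ZFree E) {a : L} {w : (RO ℤ)ˣ} {p : ℤ[X]}
    (hU : UnitRS) (hp : (w : RO ℤ) * E.coeff a = toLaurent p) (h0 : p.coeff 0 ≠ 0) :
    p = C (p.coeff 0) := by
  obtain ⟨q, l, n, hq, hl⟩ := h
  obtain ⟨m, u, hu, h1⟩ := (hU ℤ _).mp w.isUnit
  have hu0 : u ≠ 0 := hu.ne_zero
  have hco : ∀ k : ℕ, p.coeff k = u * (E.coeff a).coeff ((k : ℤ) - m) := by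
    intro k
    rw [← Cno.tl_coeff_nonneg, ← hp, h1, mul_assoc, ← LaurentPolynomial.smul_eq_C_mul]
    change u * (LaurentPolynomial.T m * E.coeff a).coeff (k : ℤ) = _
    rw [H78.T_mul_coeff]
  have key : ∀ k : ℕ, p.coeff k ≠ 0 → (q : ℤ) * ((k : ℤ) - m) = l a + (q : ℤ) * n := by
    intro k hk
    refine hl a _ fun h2 => hk ?_
    rw [hco, h2, mul_zero]
  ext k
  rw [coeff_C]
  by_cases hk : k = 0
  · rw [if_pos hk, hk]
  · rw [if_neg hk]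
    by_contra h2
    have h3 := (key k h2).trans (key 0 h0).symm
    have h4 := mul_left_cancel₀ (by exact_mod_cast hq.ne' : (q : ℤ) ≠ 0) h3
    apply hk
    have h5 : (k : ℤ) = ((0 : ℕ) : ℤ) := by linarith
    exact_mod_cast h5

/-- The good load of a ray. -/
theorem good_load {x : RO ℤ} (hx : x ≠ 0) :
    ∃ (e : (RO ℤ)ˣ) (f : ℤ[X]), (e : RO ℤ) * x = -toLaurent f ∧ 1 ≤ f.coeff 0 := by
  obtain ⟨k, τ, hτ, hτ0⟩ := H40.exists_normal x hx
  have hT : (LaurentPolynomial.T (-k) : RO ℤ) * LaurentPolynomial.T k = 1 := by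
    rw [← LaurentPolynomial.T_add, neg_add_cancel, LaurentPolynomial.T_zero]
  obtain ⟨t, ht⟩ : ∃ t : (RO ℤ)ˣ, (t : RO ℤ) = LaurentPolynomial.T (-k) :=
    ⟨Units.mkOfMulEqOne _ _ hT, rfl⟩
  rcases lt_or_gt_of_ne hτ0 with h | h
  · refine ⟨t, -τ, ?_, ?_⟩
    · rw [ht, hτ, ← mul_assoc, hT, one_mul, map_neg, neg_neg]
    · rw [coeff_neg]; omega
  · refine ⟨-t, τ, ?_, ?_⟩
    · rw [Units.val_neg, ht, hτ, neg_mul, ← mul_assoc, hT, one_mul]
    · omega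

/-- Two normalisations agree. -/
theorem nf_eq (hU : UnitRS) {x : RO ℤ} {w e : (RO ℤ)ˣ} {g f : ℤ[X]}
    (hw : (w : RO ℤ) * x = toLaurent g)
    (he : (e : RO ℤ) * x = -toLaurent f) (hf : 1 ≤ f.coeff 0) (h1 : g.coeff 0 = 1) : f = g := by
  obtain ⟨k, u, hu, h2⟩ := (hU ℤ _).mp (e * w⁻¹).isUnit
  have h3 : -toLaurent f = (((e * w⁻¹ : (RO ℤ)ˣ)) : RO ℤ) * toLaurent g := by
    rw [← hw, ← he, Units.val_mul, ← mul_assoc, mul_assoc (e : RO ℤ), Units.inv_mul, mul_one]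
  have h4 : (LaurentPolynomial.T 0 : RO ℤ) * toLaurent f =
      LaurentPolynomial.T k * toLaurent (C (-u) * g) := by
    rw [LaurentPolynomial.T_zero, one_mul, map_mul, toLaurent_C, map_neg]
    have h5 : toLaurent f = -((((e * w⁻¹ : (RO ℤ)ˣ)) : RO ℤ) * toLaurent g) := by
      rw [← h3, neg_neg]
    rw [h5, h2]
    ring
  have hc : (C (-u) * g).coeff 0 = -u := by rw [coeff_C_mul, h1, mul_one]
  obtain ⟨-, h6⟩ := H09.nf_unique 0 k f (C (-u) * g) (by omega) (by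
    rw [hc]; exact neg_ne_zero.mpr hu.ne_zero) h4
  have h7 : f.coeff 0 = -u := by rw [h6, hc]
  rcases Int.isUnit_iff.mp hu with h8 | h8
  · omega
  · rw [h6, h8]; simp

/-- TYPE S. -/
theorem cn_of_tyC {N : ℕ} {p g : ℤ[X]} (h : TyC N p g) : Cn N p g := by
  rcases h with ⟨h1, h2⟩ | ⟨d, u, hd, -, h1, h2⟩ | ⟨d, u, hd, -, h1, h2⟩ | ⟨h0, d, r, hd, h1, h2⟩
  · exact ⟨fun h => absurd h1 h, fun _ => Or.inl ⟨1, 0, le_rfl, by rw [h2]; simp⟩⟩
  · exact ⟨fun h => absurd h1 h, fun _ => Or.inl ⟨d, u, hd, h2⟩⟩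
  · have h3 : p = C (N : ℤ) + C (-(((N : ℤ) - 1) * u)) * X ^ d := by
      rw [h2]
      simp only [map_neg]
      ring
    exact ⟨fun _ => Or.inl ⟨d, -(((N : ℤ) - 1) * u), -u, hd, h3, by
      rw [h1]; simp only [map_neg]; ring⟩, fun _ => Or.inl ⟨d, _, hd, h3⟩⟩
  · have h3 : p = C (N : ℤ) + C (2 * r) * X ^ d := by
      rw [h0, h1]; simp
    exact ⟨fun _ => Or.inl ⟨d, 2 * r, 2 * r, hd, h3, h2⟩, fun _ => Or.inl ⟨d, _, hd, h3⟩⟩

/-- The point `x = 1/mu_(N-1)`. -/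
theorem ex_x {N : ℕ} (hN : 3 ≤ N) : ∃ x : ℝ, 0 < x ∧ x⁻¹ - x = (N : ℝ) - 1 := by
  have hN3 : (3 : ℝ) ≤ N := by exact_mod_cast hN
  obtain ⟨s, hs⟩ : ∃ s : ℝ, s = Real.sqrt (((N : ℝ) - 1) ^ 2 + 4) := ⟨_, rfl⟩
  have hs2 : s ^ 2 = ((N : ℝ) - 1) ^ 2 + 4 := by
    rw [hs, Real.sq_sqrt (by positivity)]
  have hs0 : 0 ≤ s := by rw [hs]; exact Real.sqrt_nonneg _
  have hs1 : (N : ℝ) - 1 < s := by nlinarith
  have hx : (0 : ℝ) < (s - ((N : ℝ) - 1)) / 2 := by linarith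
  refine ⟨(s - ((N : ℝ) - 1)) / 2, hx, ?_⟩
  have h1 : ((s - ((N : ℝ) - 1)) / 2)⁻¹ = (s + ((N : ℝ) - 1)) / 2 := by
    rw [inv_eq_iff_eq_inv, eq_comm, inv_eq_one_div, div_eq_iff (by linarith)]
    nlinarith
  rw [h1]
  ring

/-- Lemma UF. -/
theorem cn_of_uf {N : ℕ} (hN : 3 ≤ N) {p g : ℤ[X]} {x : ℝ} (hx : 0 < x)
    (hx1 : x⁻¹ - x = (N : ℝ) - 1)
    (h : (∃ F : ℤ[X], p = C (N : ℤ) + F ∧ g = 1 + F ∧ F.coeff 0 = 0 ∧
        (∀ k, |F.coeff k| ≤ 1) ∧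
        ∀ (m : ℕ) (G : ℤ[X]), 1 ≤ m → (∀ j, G.coeff j = F.coeff (m * j)) →
          (aeval x G : ℝ) ≤ x ∧ (aeval (-x) G : ℝ) ≤ x) ∨
      ∃ (k : ℕ) (ep : ℤ), 1 ≤ k ∧ (ep = 1 ∨ ep = -1) ∧ p = C (N : ℤ) - C ep * X ^ k ∧
        g = 1 + C ((N - 2) * ep) * X ^ k) : Cn N p g := by
  rcases h with ⟨F, h1, h2, h3, h4, h5⟩ | ⟨k, ep, hk, -, h1, h2⟩
  · refine ⟨fun _ => Or.inr ⟨0, N, F, by omega, ⟨hN, h3, h4, x, hx, hx1, h5⟩, ?_, h2⟩, fun hg => ?_⟩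
    · rw [h1]; simp
    · have hF : F = 0 := by
        rw [h2] at hg
        exact left_eq_add.mp hg.symm
      exact Or.inl ⟨1, 0, le_rfl, by rw [h1, hF]; simp⟩
  · have h3 : p = C (N : ℤ) + C (-ep) * X ^ k := by
      rw [h1, map_neg]; ring
    exact ⟨fun _ => Or.inl ⟨k, -ep, _, hk, h3, h2⟩, fun _ => Or.inl ⟨k, -ep, hk, h3⟩⟩

/-! ## The level `N = 2` -/

/-- The zero-free statement for a load. -/
theorem bpA_two (hV1 : BP57.V1zS) (hU : UnitRS) (hE2 : E2S) (hVZ : VZS) : BpA 2 := by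
  intro P L _ _ _ _ _ phi G S w w1 p g hD hcv hrk hbn hS hp hp0 hg hg0
  have hrk2 : 2 ≤ Module.finrank ℤ L := by omega
  have hp0' : p.coeff 0 = ((2 : ℕ) : ℤ) := hp0
  have hpne : p.coeff 0 ≠ 0 := by rw [hp0']; norm_num
  obtain ⟨hpz, -⟩ := BP57.zf_of_unit hU hcv hp hpne
  -- the load
  obtain ⟨e, he⟩ : ∃ e : (RO ℤ)ˣ, e = -(w⁻¹ * w1) := ⟨_, rfl⟩
  have hload : (w : RO ℤ) * ((e : RO ℤ) * G.coeff S) = -toLaurent g := by
    rw [he, Units.val_neg, Units.val_mul, neg_mul, mul_neg, ← mul_assoc, ← mul_assoc,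
      Units.mul_inv, one_mul, hg]
  obtain ⟨-, -, hlt⟩ := BP57.ray_polyU hE2 hVZ hD hrk2 hS hp hload hpz
  have hzv : ZF ((p - g).map Coef.emb) := by
    intro z hz h0
    rw [Polynomial.map_sub, eval_sub] at h0
    have h2 := hlt z hz
    rw [sub_eq_zero.mp h0] at h2
    exact lt_irrefl _ h2
  have hv0 : (p - g).coeff 0 = 1 := by rw [coeff_sub, hp0, hg0]; norm_num
  have hwu : IsUnit (w : RO ℤ) := w.isUnit
  have h1 := hV1 P L phi (cst (w : RO ℤ) * G) S e 0 p (p - g) 2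
    (H78.dd_cst hwu (fun z => (hwu.map (evR z)).ne_zero) hD) hrk2
    (BP90.ray_cst hwu.ne_zero hS) (by
      rw [H78.cstm, hp, LaurentPolynomial.T_zero, one_mul]) (by
      rw [H78.cstm, H78.cstm, hp, LaurentPolynomial.T_zero, one_mul, map_sub]
      linear_combination hload) hpz hzv hv0 hp0' (by omega)
  rcases h1 with ⟨h2, h3⟩ | ⟨d, u, hd, hu, ⟨h2, h3⟩ | ⟨h2, h3⟩⟩
  · have h4 : g = 1 := by
      have h5 : g = p - (p - g) := by ring
      rw [h5, h2, h3]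
      norm_num
    exact ⟨fun h => absurd h4 h, fun _ => Or.inl ⟨1, 0, le_rfl, by rw [h3]; simp⟩⟩
  · have h4 : g = 1 + C u * X ^ d := by
      have h5 : g = p - (p - g) := by ring
      rw [h5, h2, h3]
      have h6 : (C ((2 : ℕ) : ℤ) : ℤ[X]) = 2 := by norm_num
      rw [h6]; ring
    exact ⟨fun _ => Or.inl ⟨d, u, u, hd, h3, h4⟩, fun _ => Or.inl ⟨d, u, hd, h3⟩⟩
  · have h7 : (C ((((2 : ℕ) : ℤ) - 1) * u) : ℤ[X]) = C u := by norm_num
    rw [h7] at h3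
    have h4 : g = 1 := by
      have h5 : g = p - (p - g) := by ring
      rw [h5, h2, h3]
      have h6 : (C ((2 : ℕ) : ℤ) : ℤ[X]) = 2 := by norm_num
      rw [h6]; ring
    exact ⟨fun h => absurd h4 h, fun _ => Or.inl ⟨d, -u, hd, by
      rw [h3]; simp only [map_neg]; ring⟩⟩

/-! ## The step at a reduced element -/

/-- The rows used at a reduced element. -/
structure Rows : Prop where
  tys : TysS
  cnt : CntS
  pb : PbS
  adj : AdjS
  t2m : T2mS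
  str : StrS
  ins : InS
  uf : UfgS

section

variable {P : Type} [Fintype P] [DecidableEq P] {L : Type} [AddCommGroup L] [Module.Free ℤ L]
  [Module.Finite ℤ L]

theorem step_rdc (R : Rows) (hGen : GenS) (hF1 : F1S) (hF2 : F2S) (hVco : VcoS) (hMp : MpaS)
    {N : ℕ} {p g : ℤ[X]} {phi : L →+ (P → ℤ)} {E : AO ℤ L} (H : Rdc N p g phi E)
    {i : L → P} {e : L → (RO ℤ)ˣ} {f : L → ℤ[X]}
    (hall : ∀ R, Ray E R → Gl phi E R (i R) (e R) (f R)) {b : L} (hbr : Ray E b)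
    (hfb : f b = g) : Cn N p g := by
  have hX := H.toXt
  have hD := H.dd
  have hbl : Gl phi E b (i b) (e b) g := hfb ▸ hall b hbr
  have hg0 := H.g0
  by_cases hNb : Nb phi E b (i b) (e b)
  swap
  · exact cn_of_tyC (R.tys P L phi E N p g b (i b) (e b) hX hbl hg0 (H.ims b (gray_of_gl hbl)) hNb)
  by_cases hmu : ∃ mu, mu ≠ 0 ∧ Kw phi E b (i b) (e b) mu
  swap
  · push Not at hmu
    obtain ⟨-, c, n, G, hz⟩ := R.cnt P L phi E N p g b (i b) (e b) hbl.po hX hbl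
      (H.ims b (gray_of_gl hbl)) hNb (fun mu hk => by
        by_contra hne
        exact hmu mu hne hk)
    obtain ⟨x, hx, hx1⟩ := ex_x hX.n3
    exact cn_of_uf hX.n3 hx hx1 (R.uf P L phi E b (i b) hbl.po (e b) c n G N p g 1 x hD hbr hz hX.n3
      hX.cv hX.rkL (H.bnk _ (by have := hX.n3; omega)) (by rw [Units.val_one, one_mul, hX.e0])
      (by rw [Units.val_one, one_mul, hbl.eq]) hX.p0 hg0 hx hx1)
  obtain ⟨mu, hmu0, hmk⟩ := hmu
  by_cases hcn : Cn N p g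
  · exact hcn
  -- the structure at a `g`-ray without binomial divisor
  have hstr : ∀ S, Ray E S → f S = g → Nb phi E S (i S) (e S) →
      ∀ T, Ray E T → BPR.Adj E S T → Ou phi E S (i S) (e S) T →
        (Nb phi E T (i T) (e T) ∧ ∃ nu, nu ≠ 0 ∧ Kw phi E T (i T) (e T) nu) ∧
        f T = g ∧ Ou phi E T (i T) (e T) S ∧
        ∀ nu, Kw phi E S (i S) (e S) nu → nu T = 0 → nu = 0 := by
    intro S hS hfS hNS T hT hadj hou
    have hSl : Gl phi E S (i S) (e S) g := hfS ▸ hall S hS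
    have hpb : ∀ T, Ray E T → BPR.Adj E S T → Ou phi E S (i S) (e S) T →
        Nb phi E T (i T) (e T) ∧ ∃ nu, nu ≠ 0 ∧ Kw phi E T (i T) (e T) nu := by
      rintro T hT hadj ⟨nu, hnk, hnT⟩
      exact (R.pb P L phi E N p g (f T) S (i S) (e S) T (i T) (e T) nu H hSl (hall T hT) hadj hnk
        hnT hNS).resolve_left hcn
    exact ⟨hpb T hT hadj hou,
      (R.str P L phi E N p g i e f S H hall hS hfS hNS hpb).resolve_left hcn T hT hadj hou⟩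
  obtain ⟨T, hT, hadj, hmT⟩ := (R.adj P L phi E N p g b (i b) (e b) mu H hbl hmk).1 hmu0
  have hou : Ou phi E b (i b) (e b) T := ⟨mu, hmk, hmT⟩
  obtain ⟨⟨hNT, nu, hnu0, hnk⟩, hfT, houT, honeb⟩ := hstr b hbr hfb hNb T hT hadj hou
  have hTl : Gl phi E T (i T) (e T) g := hfT ▸ hall T hT
  obtain ⟨-, -, -, honeT⟩ := hstr T hT hfT hNT b hbr (adj_symm hadj) houT
  by_cases hfull : T2f phi E b T (e b) (e T)
  · exact R.t2m P L phi E N p g b (i b) (e b) T (i T) (e T) H hbl hTl hNb hNT hou houT hadj honeb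
      hfull
  obtain ⟨x, hx, -, hbx, hTx, hcase⟩ := kapw hGen hF1 hF2 hVco hMp hD hbl hTl hadj hou houT hfull
  have fin : ∀ (S : L), Ray E S → Gl phi E S (i S) (e S) g → Nb phi E S (i S) (e S) →
      ∀ (lam : L →+ ℤ) (S' : L), lam ≠ 0 → Kw phi E S (i S) (e S) lam →
      (∀ nu : L →+ ℤ, Kw phi E S (i S) (e S) nu → nu S' = 0 → nu = 0) → f x = g →
      (∀ (i0 : P) (h : co phi i0 S = 1), ∃ x' : Ker (co phi i0), (x' : L) = x ∧
          (cl (co phi i0) S h (e S) E).coeff x' = E.coeff x ∧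
          Ray (cl (co phi i0) S h (e S) E) x') → Cn N p g := by
    intro S hS hSl hNS lam S' hlam hlk hone hfx hcl
    obtain ⟨x', -, h2, h3⟩ := hcl (i S) hSl.po
    refine R.ins P L phi E N p g S (i S) (e S) hSl.po x' (-(e x)) lam S' H hSl hNS h3 ?_ hlam hlk
      hone
    have h4 := (hall x hx).eq
    rw [h2, Units.val_neg, neg_mul, h4, neg_neg, hfx]
  rcases hcase with ⟨-, h2, h3⟩ | ⟨h1, -, h3⟩
  · obtain ⟨-, hfx, -, -⟩ := hstr T hT hfT hNT x hx hTx h2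
    exact fin b hbr hbl hNb mu T hmu0 hmk honeb hfx h3
  · obtain ⟨-, hfx, -, -⟩ := hstr b hbr hfb hNb x hx hbx h1
    exact fin T hT hTl hNT nu b hnu0 hnk honeT hfx h3

/-- A z-free element. -/
theorem cn_of_zfree (hU : UnitRS) {N : ℕ} {p g : ℤ[X]} {E : AO ℤ L} (h : ZFree E) {w w1 : (RO ℤ)ˣ}
    {S : L} (hp : (w : RO ℤ) * E.coeff 0 = toLaurent p) (hp0 : p.coeff 0 = N) (hN : 1 ≤ N)
    (hg : (w1 : RO ℤ) * E.coeff S = toLaurent g) (hg0 : g.coeff 0 = 1) : Cn N p g := by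
  have h1 := gz1 h hU hp (by rw [hp0]; exact_mod_cast (by omega : N ≠ 0))
  have h2 := gz1 h hU hg (by rw [hg0]; exact one_ne_zero)
  rw [hg0, C_1] at h2
  exact ⟨fun h => absurd h2 h, fun _ => Or.inl ⟨1, 0, le_rfl, by rw [h1, hp0]; simp⟩⟩

end

/-- The step of the level. -/
theorem level (R : Rows) (hGen : GenS) (hF1 : F1S) (hF2 : F2S) (hVco : VcoS) (hMp : MpaS)
    (h2 : FacetS) (h3 : ComplIrrS) (h4 : ComplS) (h5 : RkS) (hE1 : E1S) (hMV : MVS)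
    (hM1 : M1S) (hE2 : E2S) (hb1 : BdV ℤ 1 1) (hEz : EvzS) (hD3 : D3S) (hSy : SymLS)
    (hL : LatResS) (hU : UnitRS) {N : ℕ} (hN : 3 ≤ N) (ih : BpA (N - 1)) {p g : ℤ[X]}
    (ha1 : g = 1 → BpN N) (P L : Type) [Fintype P] [DecidableEq P] [AddCommGroup L]
    [Module.Free ℤ L] [Module.Finite ℤ L] (phi : L →+ (P → ℤ)) (G : AO ℤ L) (S : L)
    (w w1 : (RO ℤ)ˣ) (hD : DD phi G) (hcv : ClassV N (G.coeff 0))
    (hrk : Module.finrank ℤ L + 1 = 2 * N) (hbn : ∀ K < 2 * N, Bnk K) (hS : Ray G S)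
    (hp : (w : RO ℤ) * G.coeff 0 = toLaurent p) (hp0 : p.coeff 0 = N)
    (hg : (w1 : RO ℤ) * G.coeff S = toLaurent g) (hg0 : g.coeff 0 = 1) : Cn N p g := by
  classical
  obtain ⟨P', L', x1, x2, x3, x4, x5, phi', E1, S', hB, hG, htop, hims, hfct⟩ :=
    red h2 h3 h4 h5 hE1 hMV hM1 hE2 hb1 hEz hD3 hSy hL (by omega : 2 ≤ N)
      (⟨hD, hcv, hrk, w, hp⟩ : Bpd N p phi G) (⟨hS, w1, hg⟩ : Gray g G S)
  obtain ⟨w', hw'⟩ := hB.e0
  have hwu : IsUnit (w' : RO ℤ) := w'.isUnit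
  have hw0 : (w' : RO ℤ) ≠ 0 := hwu.ne_zero
  obtain ⟨E, hE⟩ : ∃ E : AO ℤ L', E = cst (w' : RO ℤ) * E1 := ⟨_, rfl⟩
  have hsupp : supp E = supp E1 := by rw [hE]; exact H78.supp_cst_mul hw0 E1
  have hco : ∀ a, E.coeff a = (w' : RO ℤ) * E1.coeff a := fun a => by rw [hE, H78.cstm]
  have hDE : DD phi' E := by
    rw [hE]
    exact H78.dd_cst hwu (fun z => (hwu.map (evR z)).ne_zero) hB.dd
  have hE0 : E.coeff 0 = toLaurent p := by rw [hco, hw']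
  have hray : ∀ R, Ray E R ↔ Ray E1 R := by
    intro R
    constructor
    · rintro ⟨a1, a2, lam, a3, a4⟩
      rw [hsupp] at a1
      exact ⟨a1, a2, lam, a3, fun a ha => a4 a (by rw [hsupp]; exact ha)⟩
    · rintro ⟨a1, a2, lam, a3, a4⟩
      exact ⟨by rw [hsupp]; exact a1, a2, lam, a3, fun a ha => a4 a (by rw [← hsupp]; exact ha)⟩
  have hgray : ∀ R, Gray g E R → Gray g E1 R := by
    rintro R ⟨hR, v, hv⟩
    refine ⟨(hray R).mp hR, v * w', ?_⟩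
    rw [Units.val_mul, mul_assoc, ← hco, hv]
  have hGS : Gray g E S' := by
    obtain ⟨hR, v, hv⟩ := hG
    refine ⟨(hray _).mpr hR, v * w'⁻¹, ?_⟩
    rw [Units.val_mul, hco, mul_assoc, ← mul_assoc ((w'⁻¹ : (RO ℤ)ˣ) : RO ℤ), Units.inv_mul,
      one_mul, hv]
  by_cases hz : ZFree E
  · obtain ⟨-, v, hv⟩ := hGS
    exact cn_of_zfree hU hz (w := 1) (by rw [Units.val_one, one_mul, hE0]) hp0 (by omega) hv hg0
  have hpne : p.coeff 0 ≠ 0 := by rw [hp0]; exact_mod_cast (by omega : N ≠ 0)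
  obtain ⟨hpz, -⟩ := BP57.zf_of_unit hU hcv hp hpne
  have hnp : ‖(Coef.emb (p.coeff 0) : ℂ)‖ = N := by
    rw [hp0]
    change ‖(((N : ℤ) : ℤ) : ℂ)‖ = _
    rw [Complex.norm_intCast]
    simp
  have hcvE : ClassV N (E.coeff 0) := by
    rw [hE0]
    have h6 := BP57.classV_of (O := ℤ) hU (w := 1) (F := toLaurent p) (v := p)
      (by rw [Units.val_one, one_mul]) (by
        rw [hnp]
        have : (3 : ℝ) ≤ N := by exact_mod_cast hN
        linarith) hpz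
    rw [hnp] at h6
    exact h6
  have hR : Rdc N p g phi' E :=
    { dd := hDE
      cv := hcvE
      rkL := hB.rkL
      n3 := hN
      e0 := hE0
      p0 := hp0
      nz := hz
      g0 := hg0
      top := by rw [hsupp]; exact htop
      ims := fun R hR => hims R (hgray R hR)
      fct := fun lam R hlam hR h0 => hfct lam R (by rw [← hsupp]; exact hlam) (hgray R hR) h0
      bnk := hbn
      ih := ih
      a1 := ha1 }
  -- ports and loads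
  have hch : ∀ R : L', ∃ (i : P') (e : (RO ℤ)ˣ) (f : ℤ[X]), Ray E R → Gl phi' E R i e f := by
    intro R
    by_cases hRr : Ray E R
    · obtain ⟨i, hi⟩ := ex_port hDE.inj (hDE.bin R hRr.1) hRr.2.1
      obtain ⟨e, f, hef, hf⟩ := good_load hRr.1
      exact ⟨i, e, f, fun _ => ⟨hRr, hi, hef, hf⟩⟩
    · obtain ⟨i, -⟩ := ex_port hDE.inj (hDE.bin S' hGS.1.1) hGS.1.2.1
      exact ⟨i, 1, 0, fun h => absurd h hRr⟩
  choose i e f hall using hch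
  have hfb : f S' = g := by
    obtain ⟨hGr, v, hv⟩ := hGS
    exact nf_eq hU hv (hall S' hGr).eq (hall S' hGr).pos hg0
  exact step_rdc R hGen hF1 hF2 hVco hMp hR hall hGS.1 hfb

/-- All levels. -/
theorem bpA_all (R : Rows) (hV1 : BP57.V1zS) (hVZ : VZS) (hGen : GenS) (hF1 : F1S) (hF2 : F2S)
    (hVco : VcoS) (hMp : MpaS) (h2 : FacetS) (h3 : ComplIrrS) (h4 : ComplS) (h5 : RkS)
    (hE1 : E1S) (hMV : MVS) (hM1 : M1S) (hE2 : E2S) (hb1 : BdV ℤ 1 1) (hEz : EvzS) (hD3 : D3S)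
    (hSy : SymLS) (hL : LatResS) (hU : UnitRS) (N : ℕ) (hN : 2 ≤ N) : BpA N := by
  induction N, hN using Nat.le_induction with
  | base => exact bpA_two hV1 hU hE2 hVZ
  | succ N hN ih =>
    have hlev := fun (p g : ℤ[X]) (ha1 : g = 1 → BpN (N + 1)) =>
      level R hGen hF1 hF2 hVco hMp h2 h3 h4 h5 hE1 hMV hM1 hE2 hb1 hEz hD3 hSy hL hU
        (by omega : 3 ≤ N + 1) (by rwa [Nat.add_sub_cancel]) (p := p) (g := g) ha1
    have hn : BpN (N + 1) := by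
      intro P L _ _ _ _ _ phi G S w w1 p g a1 a2 a3 a4 a5 a6 a7 a8 a9 a10
      exact (hlev p g (fun h => absurd h a10) P L phi G S w w1 a1 a2 a3 a4 a5 a6 a7 a8 a9).1 a10
    intro P L _ _ _ _ _ phi G S w w1 p g a1 a2 a3 a4 a5 a6 a7 a8 a9
    exact hlev p g (fun _ => hn) P L phi G S w w1 a1 a2 a3 a4 a5 a6 a7 a8 a9

/-- (BPX) from the rows. -/
theorem bpxS (R : Rows) (hV1 : BP57.V1zS) (hVZ : VZS) (hGen : GenS) (hF1 : F1S) (hF2 : F2S)
    (hVco : VcoS) (hMp : MpaS) (h2 : FacetS) (h3 : ComplIrrS) (h4 : ComplS) (h5 : RkS)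
    (hE1 : E1S) (hMV : MVS) (hM1 : M1S) (hE2 : E2S) (hb1 : BdV ℤ 1 1) (hEz : EvzS) (hD3 : D3S)
    (hSy : SymLS) (hL : LatResS) (hU : UnitRS) : BpxS := by
  intro P L _ _ _ _ _ phi G N S w w1 p g hN a1 a2 a3 a4 a5 a6 a7 a8 a9
  exact bpA_all R hV1 hVZ hGen hF1 hF2 hVco hMp h2 h3 h4 h5 hE1 hMV hM1 hE2 hb1 hEz hD3 hSy hL hU
    N hN P L phi G S w w1 p g a1 a2 a3 a4 a5 a6 a7 a8 a9

end Pool.Agent.B5.BP12
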