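import Pool.Agent.Lib.MP_b5021c_nt.IfaceD

/-!
# Board b5, BpS: faces through one or two rays (helper12)

`A` is a finite set of exponents (binary in the ports `phi`).  No facet ports, no stability.
`face2`: a functional `mu` with `mu b = 0` is not zero on some ray `T` such that `{b, T}` is an
exposed two-dimensional face.  `face3`: the same for `nu` and two rays `b`, `T`: there is a ray `x`
such that `{b, T, x}` is an exposed simplicial face.
-/

namespace Pool.Agent.B5.BP12

open Pool.Agent.B5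

set_option linter.unusedSectionVars false

section

variable {L : Type} [AddCommGroup L] [Module.Free ℤ L] [Module.Finite ℤ L]

theorem gen_ray_neg (hGen : GenS) (A : Finset L) (K : Submodule ℤ L) (hK : Sat K) (lam : L →+ ℤ)
    (h0 : ∀ k ∈ K, lam k = 0) (hp : ∀ a ∈ A, a ∉ K → 0 < lam a) (nu : L →+ ℤ)
    (hn : ∀ k ∈ K, nu k = 0) (a1 : L) (ha1 : a1 ∈ A) (hneg : nu a1 < 0) :
    ∃ (lam' : L →+ ℤ) (a0 : L), (∀ k ∈ K, lam' k = 0) ∧ (∀ a ∈ A, 0 ≤ lam' a) ∧ a0 ∈ A ∧
      lam' a0 = 0 ∧ nu a0 ≠ 0 ∧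
      ∀ a ∈ A, lam' a = 0 → a ∈ K ∨ (nu a ≠ 0 ∧ nu a0 • a - nu a • a0 ∈ K) := by
  classical
  -- representatives modulo `K`
  let s : L → L := fun x =>
    Quotient.out (Submodule.Quotient.mk x : L ⧸ K) - Quotient.out (Submodule.Quotient.mk 0 : L ⧸ K)
  have hmk : ∀ x : L, (Submodule.Quotient.mk (Quotient.out (Submodule.Quotient.mk x : L ⧸ K)) :
      L ⧸ K) = Submodule.Quotient.mk x := fun x => Quotient.out_eq _
  have hs : ∀ x, s x - x ∈ K := by
    intro x
    rw [← Submodule.Quotient.eq]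
    change (Submodule.Quotient.mk (_ - _) : L ⧸ K) = _
    rw [Submodule.Quotient.mk_sub, hmk, hmk, Submodule.Quotient.mk_zero, sub_zero]
  have hs0 : s 0 = 0 := sub_self _
  have hsc : ∀ x y, x - y ∈ K → s x = s y := by
    intro x y h
    have : (Submodule.Quotient.mk x : L ⧸ K) = Submodule.Quotient.mk y :=
      (Submodule.Quotient.eq K).mpr h
    change Quotient.out _ - _ = Quotient.out _ - _
    rw [this]
  let T : Finset L := insert 0 ((A ×ˢ A).image fun x => s (nu x.2 • x.1 - nu x.1 • x.2))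
  have hT : ∀ a ∈ T, ∃ x, a = s x := by
    intro a ha
    rcases Finset.mem_insert.mp ha with h | h
    · exact ⟨0, by rw [h, hs0]⟩
    · obtain ⟨x, _, hx⟩ := Finset.mem_image.mp h
      exact ⟨_, hx.symm⟩
  obtain ⟨mu, hmK, hmS, hmT⟩ := hGen L (A.filter fun a => a ∉ K) T K lam h0 hK
    (fun a ha => hp a (Finset.mem_filter.mp ha).1 (Finset.mem_filter.mp ha).2) (by
      intro a ha b hb hab
      obtain ⟨x, rfl⟩ := hT a ha
      obtain ⟨y, rfl⟩ := hT b hb
      apply hsc
      have h1 := hs x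
      have h2 := hs y
      have : x - y = (s x - s y) - (s x - x) + (s y - y) := by abel
      rw [this]
      exact K.add_mem (K.sub_mem hab h1) h2)
  have key : ∀ a ∈ A, ∀ a' ∈ A, mu (nu a' • a - nu a • a') = 0 → nu a' • a - nu a • a' ∈ K := by
    intro a ha a' ha' h
    have hx : s (nu a' • a - nu a • a') ∈ T :=
      Finset.mem_insert_of_mem (Finset.mem_image.mpr ⟨(a, a'), Finset.mem_product.mpr ⟨ha, ha'⟩, rfl⟩)
    have h2 : mu (s (nu a' • a - nu a • a')) = 0 := by
      have h3 := hmK _ (hs (nu a' • a - nu a • a'))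
      rw [map_sub, h, sub_zero] at h3
      exact h3
    have h4 := hmT _ hx 0 (Finset.mem_insert_self _ _) (by rw [h2, map_zero])
    have h5 := hs (nu a' • a - nu a • a')
    rw [h4, zero_sub] at h5
    exact (Submodule.neg_mem_iff K).mp h5
  -- the minimal ratio
  have hne : (A.filter fun a => nu a < 0).Nonempty := ⟨a1, Finset.mem_filter.mpr ⟨ha1, hneg⟩⟩
  obtain ⟨a0, ha0, hmin⟩ := Finset.exists_min_image (A.filter fun a => nu a < 0)
    (fun a => (mu a : ℚ) / (-(nu a : ℚ))) hne
  obtain ⟨ha0A, ha0n⟩ := Finset.mem_filter.mp ha0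
  have hcross : ∀ a ∈ A, nu a < 0 → mu a0 * (-nu a) ≤ mu a * (-nu a0) := by
    intro a ha han
    have h := hmin a (Finset.mem_filter.mpr ⟨ha, han⟩)
    have p1 : (0 : ℚ) < -(nu a : ℚ) := by
      have : (nu a : ℚ) < 0 := by exact_mod_cast han
      linarith
    have p0 : (0 : ℚ) < -(nu a0 : ℚ) := by
      have : (nu a0 : ℚ) < 0 := by exact_mod_cast ha0n
      linarith
    have h' : (mu a0 : ℚ) / (-(nu a0 : ℚ)) ≤ (mu a : ℚ) / (-(nu a : ℚ)) := h
    rw [div_le_div_iff₀ p0 p1] at h'
    exact_mod_cast h'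
  have hmpos : ∀ a ∈ A, a ∉ K → 0 < mu a := fun a ha hk => hmS a (Finset.mem_filter.mpr ⟨ha, hk⟩)
  have hm0 : ∀ a ∈ A, 0 ≤ mu a := by
    intro a ha
    by_cases hk : a ∈ K
    · rw [hmK a hk]
    · exact (hmpos a ha hk).le
  have ha0K : a0 ∉ K := fun h => by rw [hn a0 h] at ha0n; exact lt_irrefl _ ha0n
  have hma0 := hmpos a0 ha0A ha0K
  let lam' : L →+ ℤ := (-nu a0) • mu + (mu a0) • nu
  have hl : ∀ a, lam' a = (-nu a0) * mu a + mu a0 * nu a := by
    intro a
    simp [lam']
  refine ⟨lam', a0, ?_, ?_, ha0A, ?_, ne_of_lt ha0n, ?_⟩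
  · intro k hk
    rw [hl, hmK k hk, hn k hk, mul_zero, mul_zero, add_zero]
  · intro a ha
    rw [hl]
    rcases lt_or_ge (nu a) 0 with h | h
    · have := hcross a ha h
      nlinarith
    · have h1 := mul_nonneg (neg_nonneg.mpr ha0n.le) (hm0 a ha)
      have h2 := mul_nonneg hma0.le h
      linarith
  · rw [hl]; ring
  · intro a ha h
    by_cases hk : a ∈ K
    · exact Or.inl hk
    · right
      have h1 := hmpos a ha hk
      rw [hl] at h
      have h2 : nu a ≠ 0 := by
        intro h3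
        rw [h3, mul_zero, add_zero] at h
        rcases mul_eq_zero.mp h with h4 | h4
        · exact (ne_of_lt ha0n) (by linarith)
        · exact (ne_of_gt h1) h4
      refine ⟨h2, key a ha a0 ha0A ?_⟩
      rw [map_sub, map_zsmul, map_zsmul, smul_eq_mul, smul_eq_mul]
      linarith

/-- An extreme ray of the cone modulo `K` on which `nu` is not zero. -/
theorem gen_ray (hGen : GenS) (A : Finset L) (K : Submodule ℤ L) (hK : Sat K) (lam : L →+ ℤ)
    (h0 : ∀ k ∈ K, lam k = 0) (hp : ∀ a ∈ A, a ∉ K → 0 < lam a) (nu : L →+ ℤ)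
    (hn : ∀ k ∈ K, nu k = 0) (a1 : L) (ha1 : a1 ∈ A) (hne : nu a1 ≠ 0) :
    ∃ (lam' : L →+ ℤ) (a0 : L), (∀ k ∈ K, lam' k = 0) ∧ (∀ a ∈ A, 0 ≤ lam' a) ∧ a0 ∈ A ∧
      lam' a0 = 0 ∧ nu a0 ≠ 0 ∧
      ∀ a ∈ A, lam' a = 0 → a ∈ K ∨ (nu a ≠ 0 ∧ nu a0 • a - nu a • a0 ∈ K) := by
  rcases lt_or_gt_of_ne hne with h | h
  · exact gen_ray_neg hGen A K hK lam h0 hp nu hn a1 ha1 h
  · obtain ⟨lam', a0, c1, c2, c3, c4, c5, c6⟩ := gen_ray_neg hGen A K hK lam h0 hp (-nu)
      (fun k hk => by rw [AddMonoidHom.neg_apply, hn k hk, neg_zero]) a1 ha1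
      (by rw [AddMonoidHom.neg_apply]; linarith)
    refine ⟨lam', a0, c1, c2, c3, c4, ?_, ?_⟩
    · intro h1
      apply c5
      rw [AddMonoidHom.neg_apply, h1, neg_zero]
    · intro a ha h1
      rcases c6 a ha h1 with h2 | ⟨h2, h3⟩
      · exact Or.inl h2
      · right
        refine ⟨fun h4 => h2 (by rw [AddMonoidHom.neg_apply, h4, neg_zero]), ?_⟩
        rw [AddMonoidHom.neg_apply, AddMonoidHom.neg_apply, neg_smul, neg_smul, sub_neg_eq_add,
          neg_add_eq_sub] at h3
        have := K.neg_mem h3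
        rwa [neg_sub] at this


variable {P : Type} [Fintype P] [DecidableEq P]

theorem ex_port {phi : L →+ (P → ℤ)} (hinj : Function.Injective phi) {b : L} (hb : Bin phi b)
    (hb0 : b ≠ 0) : ∃ p, phi b p = 1 := by
  by_contra h
  apply hb0
  apply hinj
  rw [map_zero]
  funext p
  rcases hb p with h1 | h1
  · exact h1
  · exact absurd ⟨p, h1⟩ h

theorem prop_eq {phi : L →+ (P → ℤ)} (hinj : Function.Injective phi) {a b : L} (ha : Bin phi a)
    (hb : Bin phi b) (hb0 : b ≠ 0) {m n : ℤ} (hm : m ≠ 0) (hn : n ≠ 0) (h : m • a = n • b) :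
    a = b := by
  obtain ⟨p, hp⟩ := ex_port hinj hb hb0
  have h1 : m * phi a p = n := by
    have := congrArg (fun x => phi x p) h
    simp only [map_zsmul, Pi.smul_apply, smul_eq_mul, hp, mul_one] at this
    exact this
  rcases ha p with h2 | h2
  · rw [h2, mul_zero] at h1
    exact absurd h1.symm hn
  · rw [h2, mul_one] at h1
    rw [← h1] at h
    have h3 : m • (a - b) = 0 := by rw [smul_sub, h, sub_self]
    exact sub_eq_zero.mp ((smul_eq_zero.mp h3).resolve_left hm)

/-- The lattice of two disjoint exponents. -/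
theorem mem_two {phi : L →+ (P → ℤ)} {b T : L} {p q : P} (hp : phi b p = 1) (hq : phi T q = 1)
    (hpT : phi T p = 0) (hqb : phi b q = 0) (n : ℤ) (hn : n ≠ 0) (a : L)
    (h : n • a ∈ Submodule.span ℤ ({b, T} : Set L)) : a = phi a p • b + phi a q • T := by
  obtain ⟨i, j, hij⟩ := Submodule.mem_span_pair.mp h
  have h1 : i = n * phi a p := by
    have := congrArg (fun x => phi x p) hij
    simpa [hp, hpT] using this
  have h2 : j = n * phi a q := by
    have := congrArg (fun x => phi x q) hij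
    simpa [hq, hqb] using this
  have h3 : n • (a - (phi a p • b + phi a q • T)) = 0 := by
    rw [smul_sub, ← hij, h1, h2, smul_add, smul_smul, smul_smul, sub_self]
  exact sub_eq_zero.mp ((smul_eq_zero.mp h3).resolve_left hn)

theorem mem_one {phi : L →+ (P → ℤ)} {b : L} {p : P} (hp : phi b p = 1) (n : ℤ) (hn : n ≠ 0)
    (a : L) (h : n • a ∈ Submodule.span ℤ ({b} : Set L)) : a = phi a p • b := by
  obtain ⟨i, hi⟩ := Submodule.mem_span_singleton.mp h
  have h1 : i = n * phi a p := by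
    have := congrArg (fun x => phi x p) hi
    simpa [hp] using this
  have h3 : n • (a - phi a p • b) = 0 := by
    rw [smul_sub, ← hi, h1, smul_smul, sub_self]
  exact sub_eq_zero.mp ((smul_eq_zero.mp h3).resolve_left hn)

/-- (BP_2F) TWO-DIMENSIONAL FACES through `b` on which `mu` is not zero. -/
theorem face2 (hGen : GenS) {phi : L →+ (P → ℤ)} (hinj : Function.Injective phi) (A : Finset L)
    (hbin : ∀ a ∈ A, Bin phi a) {b : L} (hb : b ∈ A) (hb0 : b ≠ 0) {lam : L →+ ℤ}
    (l0 : lam b = 0) (lp : ∀ a ∈ A, a ≠ 0 → a ≠ b → 0 < lam a) {mu : L →+ ℤ} (m0 : mu b = 0)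
    (hcl : ∀ a ∈ A, mu a ≠ 0 →
      ∃ a' ∈ A, (∀ p, phi a' p = 0 ∨ phi b p = 0) ∧ (a = a' ∨ a = a' + b))
    {a1 : L} (ha1 : a1 ∈ A) (hm1 : mu a1 ≠ 0) :
    ∃ T ∈ A, mu T ≠ 0 ∧ (∀ p, phi T p = 0 ∨ phi b p = 0) ∧
      (∃ l : L →+ ℤ, l T = 0 ∧ ∀ a ∈ A, a ≠ 0 → a ≠ T → 0 < l a) ∧
      ∃ l : L →+ ℤ, l b = 0 ∧ l T = 0 ∧
        ∀ a ∈ A, a ≠ 0 → a ≠ b → a ≠ T → a ≠ b + T → 0 < l a := by
  obtain ⟨p, hp⟩ := ex_port hinj (hbin b hb) hb0
  have hKm : ∀ k ∈ Submodule.span ℤ ({b} : Set L), k = phi k p • b := fun k hk =>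
    mem_one hp 1 one_ne_zero k (by rw [one_smul]; exact hk)
  have hbK : b ∈ Submodule.span ℤ ({b} : Set L) := Submodule.subset_span rfl
  obtain ⟨l', a0, c1, c2, c3, c4, c5, c6⟩ := gen_ray hGen A (Submodule.span ℤ {b})
    (fun n a hn h => by
      rw [mem_one hp n hn a h]
      exact Submodule.smul_mem _ _ hbK) lam
    (fun k hk => by rw [hKm k hk, map_zsmul, l0, smul_zero])
    (fun a ha hk => lp a ha (fun h => hk (h ▸ Submodule.zero_mem _)) (fun h => hk (h ▸ hbK)))
    mu (fun k hk => by rw [hKm k hk, map_zsmul, m0, smul_zero]) a1 ha1 hm1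
  have hlb : l' b = 0 := c1 b hbK
  obtain ⟨T, hTA, hTb, hTa⟩ := hcl a0 c3 c5
  have hmT : mu T = mu a0 := by
    rcases hTa with h | h
    · rw [h]
    · rw [h, map_add, m0, add_zero]
  have hlT : l' T = 0 := by
    rcases hTa with h | h
    · rw [← h]; exact c4
    · rw [h, map_add, hlb, add_zero] at c4; exact c4
  have hT5 : mu T ≠ 0 := by rw [hmT]; exact c5
  have hT0 : T ≠ 0 := fun h => hT5 (by rw [h, map_zero])
  have hTp : phi T p = 0 := by
    rcases hTb p with h | h
    · exact h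
    · rw [hp] at h; exact absurd h one_ne_zero
  -- the face
  have hface : ∀ a ∈ A, l' a = 0 → a = 0 ∨ a = b ∨ a = T ∨ a = b + T := by
    intro a ha hla
    rcases c6 a ha hla with h | ⟨h1, h2⟩
    · have h3 := hKm a h
      rcases hbin a ha p with h4 | h4
      · left; rw [h3, h4, zero_smul]
      · right; left; rw [h3, h4, one_smul]
    · obtain ⟨a', ha', had, haa⟩ := hcl a ha h1
      have hma' : mu a' = mu a := by
        rcases haa with h | h
        · rw [h]
        · rw [h, map_add, m0, add_zero]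
      have hap : phi a' p = 0 := by
        rcases had p with h | h
        · exact h
        · rw [hp] at h; exact absurd h one_ne_zero
      -- `mu T • a' - mu a' • T ∈ K`
      have h3 : mu T • a' - mu a' • T ∈ Submodule.span ℤ ({b} : Set L) := by
        have e1 : ∃ i : ℤ, a' = a + i • b := by
          rcases haa with h | h
          · exact ⟨0, by rw [h, zero_smul, add_zero]⟩
          · exact ⟨-1, by rw [h, neg_one_zsmul]; abel⟩
        have e2 : ∃ i : ℤ, T = a0 + i • b := by
          rcases hTa with h | h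
          · exact ⟨0, by rw [h, zero_smul, add_zero]⟩
          · exact ⟨-1, by rw [h, neg_one_zsmul]; abel⟩
        obtain ⟨i, hi⟩ := e1
        obtain ⟨j, hj⟩ := e2
        have e3 : mu T • a' - mu a' • T = (mu a0 • a - mu a • a0) +
            (mu a0 * i - mu a * j) • b := by
          rw [hmT, hma', hi, hj, smul_add, smul_add, smul_smul, smul_smul, sub_smul]
          abel
        rw [e3]
        exact Submodule.add_mem _ h2 (Submodule.smul_mem _ _ hbK)
      have h4 := hKm _ h3
      have h5 : phi (mu T • a' - mu a' • T) p = 0 := by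
        rw [map_sub, map_zsmul, map_zsmul]
        simp [hap, hTp]
      rw [h5, zero_smul, sub_eq_zero] at h4
      have h6 := prop_eq hinj (hbin a' ha') (hbin T hTA) hT0 hT5 (by rw [hma']; exact h1) h4
      rcases haa with h | h
      · right; right; left; rw [h, h6]
      · right; right; right; rw [h, h6, add_comm]
  have hpos : ∀ a ∈ A, a ≠ 0 → a ≠ b → a ≠ T → a ≠ b + T → 0 < l' a := by
    intro a ha n0 n1 n2 n3
    rcases lt_or_eq_of_le (c2 a ha) with h | h
    · exact h
    · rcases hface a ha h.symm with h | h | h | h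
      · exact absurd h n0
      · exact absurd h n1
      · exact absurd h n2
      · exact absurd h n3
  refine ⟨T, hTA, hT5, hTb, ⟨l' + co phi p, ?_, ?_⟩, l', hlb, hlT, hpos⟩
  · change l' T + phi T p = 0
    rw [hlT, hTp, add_zero]
  · intro a ha n0 nT
    change 0 < l' a + phi a p
    have hpa : 0 ≤ phi a p := by
      rcases hbin a ha p with h | h <;> rw [h]
      norm_num
    by_cases n1 : a = b
    · rw [n1, hlb, hp]; norm_num
    by_cases n3 : a = b + T
    · rw [n3, map_add, map_add, hlb, hlT, Pi.add_apply, hp, hTp]; norm_num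
    · have := hpos a ha n0 n1 nT n3
      linarith

/-- (BP_3F) THREE-DIMENSIONAL FACES through `b`, `T` on which `nu` is not zero: simplicial. -/
theorem face3 (hGen : GenS) {phi : L →+ (P → ℤ)} (hinj : Function.Injective phi) (A : Finset L)
    (hbin : ∀ a ∈ A, Bin phi a) {b T : L} (hb : b ∈ A) (hb0 : b ≠ 0) (hT : T ∈ A) (hT0 : T ≠ 0)
    (hbT : ∀ p, phi T p = 0 ∨ phi b p = 0) {lam : L →+ ℤ}
    (l0 : lam b = 0) (l1 : lam T = 0)
    (lp : ∀ a ∈ A, a ≠ 0 → a ≠ b → a ≠ T → a ≠ b + T → 0 < lam a) {nu : L →+ ℤ} (n0 : nu b = 0)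
    (n1 : nu T = 0)
    (hcl : ∀ a ∈ A, nu a ≠ 0 → ∃ a' ∈ A, (∀ p, phi a' p = 0 ∨ (phi b p = 0 ∧ phi T p = 0)) ∧
      ∃ i j : ℤ, a = a' + i • b + j • T)
    {a1 : L} (ha1 : a1 ∈ A) (hn1 : nu a1 ≠ 0) :
    ∃ x ∈ A, nu x ≠ 0 ∧ (∀ p, phi x p = 0 ∨ (phi b p = 0 ∧ phi T p = 0)) ∧
      (∃ l : L →+ ℤ, l x = 0 ∧ ∀ a ∈ A, a ≠ 0 → a ≠ x → 0 < l a) ∧
      (∃ l : L →+ ℤ, l b = 0 ∧ l x = 0 ∧
        ∀ a ∈ A, a ≠ 0 → a ≠ b → a ≠ x → a ≠ b + x → 0 < l a) ∧
      (∃ l : L →+ ℤ, l T = 0 ∧ l x = 0 ∧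
        ∀ a ∈ A, a ≠ 0 → a ≠ T → a ≠ x → a ≠ T + x → 0 < l a) ∧
      ∃ l : L →+ ℤ, l b = 0 ∧ l T = 0 ∧ l x = 0 ∧ ∀ a ∈ A, 0 ≤ l a ∧ (l a = 0 →
        ∃ i j k : ℤ, (i = 0 ∨ i = 1) ∧ (j = 0 ∨ j = 1) ∧ (k = 0 ∨ k = 1) ∧
          a = i • b + j • T + k • x) := by
  obtain ⟨p, hp⟩ := ex_port hinj (hbin b hb) hb0
  obtain ⟨q, hq⟩ := ex_port hinj (hbin T hT) hT0
  have hpT : phi T p = 0 := by
    rcases hbT p with h | h
    · exact h
    · rw [hp] at h; exact absurd h one_ne_zero
  have hqb : phi b q = 0 := by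
    rcases hbT q with h | h
    · rw [hq] at h; exact absurd h one_ne_zero
    · exact h
  have hKm : ∀ k ∈ Submodule.span ℤ ({b, T} : Set L), k = phi k p • b + phi k q • T :=
    fun k hk => mem_two hp hq hpT hqb 1 one_ne_zero k (by rw [one_smul]; exact hk)
  have hbK : b ∈ Submodule.span ℤ ({b, T} : Set L) := Submodule.subset_span (Or.inl rfl)
  have hTK : T ∈ Submodule.span ℤ ({b, T} : Set L) := Submodule.subset_span (Or.inr rfl)
  have hvan : ∀ (f : L →+ ℤ), f b = 0 → f T = 0 → ∀ k ∈ Submodule.span ℤ ({b, T} : Set L),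
      f k = 0 := by
    intro f h1 h2 k hk
    rw [hKm k hk, map_add, map_zsmul, map_zsmul, h1, h2, smul_zero, smul_zero, add_zero]
  obtain ⟨l', a0, c1, c2, c3, c4, c5, c6⟩ := gen_ray hGen A (Submodule.span ℤ {b, T})
    (fun n a hn h => by
      rw [mem_two hp hq hpT hqb n hn a h]
      exact Submodule.add_mem _ (Submodule.smul_mem _ _ hbK) (Submodule.smul_mem _ _ hTK)) lam
    (hvan lam l0 l1)
    (fun a ha hk => lp a ha (fun h => hk (h ▸ Submodule.zero_mem _)) (fun h => hk (h ▸ hbK))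
      (fun h => hk (h ▸ hTK)) (fun h => hk (h ▸ Submodule.add_mem _ hbK hTK)))
    nu (hvan nu n0 n1) a1 ha1 hn1
  have hlb : l' b = 0 := c1 b hbK
  have hlT : l' T = 0 := c1 T hTK
  obtain ⟨x, hxA, hxo, i0, j0, hxa⟩ := hcl a0 c3 c5
  have hnx : nu x = nu a0 := by
    rw [hxa, map_add, map_add, map_zsmul, map_zsmul, n0, n1, smul_zero, smul_zero, add_zero,
      add_zero]
  have hlx : l' x = 0 := by
    rw [hxa, map_add, map_add, map_zsmul, map_zsmul, hlb, hlT, smul_zero, smul_zero, add_zero,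
      add_zero] at c4
    exact c4
  have hx5 : nu x ≠ 0 := by rw [hnx]; exact c5
  have hx0 : x ≠ 0 := fun h => hx5 (by rw [h, map_zero])
  have hxp : phi x p = 0 := by
    rcases hxo p with h | h
    · exact h
    · rw [hp] at h; exact absurd h.1 one_ne_zero
  have hxq : phi x q = 0 := by
    rcases hxo q with h | h
    · exact h
    · rw [hq] at h; exact absurd h.2 one_ne_zero
  have hface : ∀ a ∈ A, l' a = 0 → ∃ i j k : ℤ, (i = 0 ∨ i = 1) ∧ (j = 0 ∨ j = 1) ∧
      (k = 0 ∨ k = 1) ∧ a = i • b + j • T + k • x := by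
    intro a ha hla
    rcases c6 a ha hla with h | ⟨h1, h2⟩
    · refine ⟨phi a p, phi a q, 0, hbin a ha p, hbin a ha q, Or.inl rfl, ?_⟩
      rw [zero_smul, add_zero]
      exact hKm a h
    · obtain ⟨a', ha', had, i, j, haa⟩ := hcl a ha h1
      have hna' : nu a' = nu a := by
        rw [haa, map_add, map_add, map_zsmul, map_zsmul, n0, n1, smul_zero, smul_zero, add_zero,
          add_zero]
      have hap : phi a' p = 0 := by
        rcases had p with h | h
        · exact h
        · rw [hp] at h; exact absurd h.1 one_ne_zero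
      have haq : phi a' q = 0 := by
        rcases had q with h | h
        · exact h
        · rw [hq] at h; exact absurd h.2 one_ne_zero
      have h3 : nu x • a' - nu a' • x ∈ Submodule.span ℤ ({b, T} : Set L) := by
        have e3 : nu x • a' - nu a' • x = (nu a0 • a - nu a • a0) +
            (nu a * i0 - nu a0 * i) • b + (nu a * j0 - nu a0 * j) • T := by
          have e1 : a' = a - i • b - j • T := by rw [haa]; abel
          have e2 : x = a0 - i0 • b - j0 • T := by rw [hxa]; abel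
          rw [hnx, hna']
          conv_lhs => rw [e1, e2]
          simp only [smul_sub, smul_smul, sub_smul]
          abel
        rw [e3]
        exact Submodule.add_mem _ (Submodule.add_mem _ h2 (Submodule.smul_mem _ _ hbK))
          (Submodule.smul_mem _ _ hTK)
      have h4 := hKm _ h3
      have h5 : phi (nu x • a' - nu a' • x) p = 0 := by
        rw [map_sub, map_zsmul, map_zsmul]
        simp [hap, hxp]
      have h6 : phi (nu x • a' - nu a' • x) q = 0 := by
        rw [map_sub, map_zsmul, map_zsmul]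
        simp [haq, hxq]
      rw [h5, h6, zero_smul, zero_smul, add_zero, sub_eq_zero] at h4
      have h7 := prop_eq hinj (hbin a' ha') (hbin x hxA) hx0 hx5 (by rw [hna']; exact h1) h4
      have hi : i = phi a p := by
        have := congrArg (fun y => phi y p) haa
        simpa [hap, hp, hpT] using this.symm
      have hj : j = phi a q := by
        have := congrArg (fun y => phi y q) haa
        simpa [haq, hq, hqb] using this.symm
      refine ⟨i, j, 1, hi ▸ hbin a ha p, hj ▸ hbin a ha q, Or.inr rfl, ?_⟩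
      rw [haa, h7, one_smul]
      abel
  -- a general positivity lemma
  have hgen : ∀ (u v : ℤ), (u = 0 ∨ u = 1) → (v = 0 ∨ v = 1) → ∀ a ∈ A,
      0 < l' a + u * phi a p + v * phi a q ∨ (∃ i j k : ℤ, (i = 0 ∨ i = 1) ∧ (j = 0 ∨ j = 1) ∧
        (k = 0 ∨ k = 1) ∧ a = i • b + j • T + k • x ∧ u * i + v * j = 0) := by
    intro u v hu hv a ha
    have hpa : 0 ≤ phi a p := by rcases hbin a ha p with h | h <;> rw [h]; norm_num
    have hqa : 0 ≤ phi a q := by rcases hbin a ha q with h | h <;> rw [h]; norm_num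
    have hu0 : 0 ≤ u := by rcases hu with h | h <;> rw [h]; norm_num
    have hv0 : 0 ≤ v := by rcases hv with h | h <;> rw [h]; norm_num
    have t1 := mul_nonneg hu0 hpa
    have t2 := mul_nonneg hv0 hqa
    rcases lt_or_eq_of_le (c2 a ha) with h | h
    · left; linarith
    · obtain ⟨i, j, k, hi, hj, hk, he⟩ := hface a ha h.symm
      have hia : phi a p = i := by
        have := congrArg (fun y => phi y p) he
        simpa [hp, hpT, hxp] using this
      have hja : phi a q = j := by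
        have := congrArg (fun y => phi y q) he
        simpa [hq, hqb, hxq] using this
      rcases eq_or_lt_of_le (add_nonneg t1 t2) with h2 | h2
      · right
        refine ⟨i, j, k, hi, hj, hk, he, ?_⟩
        rw [hia, hja] at h2
        exact h2.symm
      · left; linarith
  refine ⟨x, hxA, hx5, hxo, ⟨l' + co phi p + co phi q, ?_, ?_⟩, ⟨l' + co phi q, ?_, ?_, ?_⟩,
    ⟨l' + co phi p, ?_, ?_, ?_⟩, l', hlb, hlT, hlx, fun a ha => ⟨c2 a ha, hface a ha⟩⟩
  · change l' x + phi x p + phi x q = 0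
    rw [hlx, hxp, hxq]; rfl
  · intro a ha m0 mx
    change 0 < l' a + phi a p + phi a q
    rcases hgen 1 1 (Or.inr rfl) (Or.inr rfl) a ha with h | ⟨i, j, k, hi, hj, hk, he, h⟩
    · linarith
    · exfalso
      rcases hi with hi | hi <;> rcases hj with hj | hj <;> rw [hi, hj] at h he <;>
        norm_num at h
      rcases hk with hk | hk <;> rw [hk] at he
      · apply m0; simpa using he
      · apply mx; simpa using he
  · change l' b + phi b q = 0
    rw [hlb, hqb]; rfl
  · change l' x + phi x q = 0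
    rw [hlx, hxq]; rfl
  · intro a ha m0 m1 m2 m3
    change 0 < l' a + phi a q
    rcases hgen 0 1 (Or.inl rfl) (Or.inr rfl) a ha with h | ⟨i, j, k, hi, hj, hk, he, h⟩
    · linarith
    · exfalso
      rcases hj with hj | hj <;> rw [hj] at h he
      · rcases hi with hi | hi <;> rcases hk with hk | hk <;> rw [hi, hk] at he
        · apply m0; simpa using he
        · apply m2; simpa using he
        · apply m1; simpa using he
        · apply m3; simpa using he
      · norm_num at h
  · change l' T + phi T p = 0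
    rw [hlT, hpT]; rfl
  · change l' x + phi x p = 0
    rw [hlx, hxp]; rfl
  · intro a ha m0 m1 m2 m3
    change 0 < l' a + phi a p
    rcases hgen 1 0 (Or.inr rfl) (Or.inl rfl) a ha with h | ⟨i, j, k, hi, hj, hk, he, h⟩
    · linarith
    · exfalso
      rcases hi with hi | hi <;> rw [hi] at h he
      · rcases hj with hj | hj <;> rcases hk with hk | hk <;> rw [hj, hk] at he
        · apply m0; simpa using he
        · apply m2; simpa using he
        · apply m1; simpa using he
        · apply m3; simpa using he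
      · norm_num at h

end

end Pool.Agent.B5.BP12
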