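import Pool.Agent.Lib.MP_b5021c_nt.IfaceE4
import Pool.Agent.Lib.MP_b5021c_nt.H47.Mut
import Pool.Agent.Lib.MP_b5021c_nt.BP.H12.F3

/-!
# Board b5, BpS: the step with a drop of the double closing (helper12)

`b`, `T` mutual at the loads `eb`, `eT` (real element, `{b,T}` an exposed face); `nu` kills the
double closing at the loads `eb w`, `eT w`, `w = e^(i pi/3)` (real form `KRw`).  Then there is a ray
`x`, `nu x ≠ 0`, such that `E(w^b = eb)` or `E(w^T = eT)` has the ray `x` with the coefficient of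
`x` in `E`.
-/

namespace Pool.Agent.B5.BP12

open Pool.Agent.B5
open scoped LaurentPolynomial

set_option linter.unusedSectionVars false

section

variable {P : Type} [Fintype P] [DecidableEq P] {L : Type} [AddCommGroup L] [Module.Free ℤ L]
  [Module.Finite ℤ L]

/-- `nu` kills the double closing `w^b = eb e^(i pi/3)`, `w^T = eT e^(i pi/3)` of a real element. -/
structure KRw (phi : L →+ (P → ℤ)) (D : AO ℤ L) (b T : L) (eb eT : (RO ℤ)ˣ) (nu : L →+ ℤ) :
    Prop where
  s0 : nu b = 0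
  s1 : nu T = 0
  free : ∀ a : L, Out phi b T a → nu a ≠ 0 →
    (eb : RO ℤ) * (eT : RO ℤ) * D.coeff (a + b + T) = D.coeff a ∧
      (eb : RO ℤ) * D.coeff (a + b) + (eT : RO ℤ) * D.coeff (a + T) +
        (eb : RO ℤ) * (eT : RO ℤ) * D.coeff (a + b + T) = 0
  part : ∀ a ∈ supp D, Part phi b a ∨ Part phi T a → nu a = 0

theorem S_memUS (eta : (RO ℤ)ˣ) (S : L) (D : AO ℤ L) : S ∈ US eta S D :=
  Pool.Agent.B5.H47.S_mem eta S D

/-- A ray of the closed element from an exposed two-dimensional face. -/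
theorem ray_cl {phi : L →+ (P → ℤ)} {D : AO ℤ L} (hbin : ∀ a ∈ supp D, Bin phi a) {b : L} {i0 : P}
    (h : co phi i0 b = 1) (eb : (RO ℤ)ˣ) {x : L} (hx0 : x ≠ 0) (hx : phi x i0 = 0) {l : L →+ ℤ}
    (lb : l b = 0) (lx : l x = 0)
    (lp : ∀ a ∈ supp D, a ≠ 0 → a ≠ b → a ≠ x → a ≠ b + x → 0 < l a)
    (hne : D.coeff x + (eb : RO ℤ) * D.coeff (x + b) ≠ 0) :
    (cl (co phi i0) b h eb D).coeff ⟨x, hx⟩ = D.coeff x + (eb : RO ℤ) * D.coeff (x + b) ∧
      Ray (cl (co phi i0) b h eb D) ⟨x, hx⟩ := by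
  have hc := Pool.Agent.B5.H47.cl_coeff_bin (co phi i0) b h eb D (fun a ha => hbin a ha i0)
  refine ⟨hc ⟨x, hx⟩, ?_, ?_, l.comp (incl (Ker (co phi i0))), lx, ?_⟩
  · change (cl (co phi i0) b h eb D).coeff ⟨x, hx⟩ ≠ 0
    rw [hc]
    exact hne
  · intro h0
    exact hx0 (congrArg (fun y : Ker (co phi i0) => (y : L)) h0)
  · intro a ha a0 ax
    change 0 < l (a : L)
    have ha1 : (cl (co phi i0) b h eb D).coeff a ≠ 0 := ha
    rw [hc] at ha1
    have hap : phi (a : L) i0 = 0 := a.2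
    have hbp : phi b i0 = 1 := h
    have a0' : (a : L) ≠ 0 := fun h1 => a0 (Subtype.ext h1)
    have ax' : (a : L) ≠ x := fun h1 => ax (Subtype.ext h1)
    by_cases h2 : D.coeff (a : L) = 0
    · rw [h2, zero_add] at ha1
      have h3 : (a : L) + b ∈ supp D := right_ne_zero_of_mul ha1
      have h4 := lp _ h3 (by
        intro h5
        have := congrArg (fun y => phi y i0) h5
        simp [hap, hbp] at this) (by
        intro h5
        exact a0' (by simpa using h5)) (by
        intro h5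
        have := congrArg (fun y => phi y i0) h5
        simp [hap, hbp, hx] at this) (by
        intro h5
        rw [add_comm b x] at h5
        exact ax' (by simpa using h5))
      rwa [map_add, lb, add_zero] at h4
    · exact lp _ h2 a0' (by
        intro h5
        rw [h5, hbp] at hap
        exact one_ne_zero hap) ax' (by
        intro h5
        rw [h5, map_add, Pi.add_apply, hbp, hx] at hap
        exact one_ne_zero hap)

/-- (BP_2F) for an element: a mutual partner `T` such that `{b, T}` is an exposed face. -/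
theorem face2D (hGen : GenS) (hF1 : F1S) {phi : L →+ (P → ℤ)} (hinj : Function.Injective phi)
    {D : AO ℤ L} (hbin : ∀ a ∈ supp D, Bin phi a) {b : L} (hb : Ray D b) {eb : (RO ℤ)ˣ}
    {mu : L →+ ℤ} (hmu : ∀ a ∈ US eb b D, mu a = 0) {a1 : L} (ha1 : a1 ∈ supp D)
    (hm1 : mu a1 ≠ 0) :
    ∃ T, Ray D T ∧ mu T ≠ 0 ∧ (∀ p, phi T p = 0 ∨ phi b p = 0) ∧
      ∃ l : L →+ ℤ, l b = 0 ∧ l T = 0 ∧
        ∀ a ∈ supp D, a ≠ 0 → a ≠ b → a ≠ T → a ≠ b + T → 0 < l a := by
  obtain ⟨hbs, hb0, lam, l0, lp⟩ := hb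
  have hA : ∀ a, a ∈ D.coeff.support ↔ a ∈ supp D := fun a => Finsupp.mem_support_iff
  have hBb := hbin b hbs
  have hcl : ∀ a ∈ D.coeff.support, mu a ≠ 0 →
      ∃ a' ∈ D.coeff.support, (∀ p, phi a' p = 0 ∨ phi b p = 0) ∧ (a = a' ∨ a = a' + b) := by
    intro a ha hma
    rw [hA] at ha
    have hU : a ∉ US eb b D := fun h => hma (hmu a h)
    have hBa := hbin a ha
    have f := hF1 ℤ P L phi D b eb hinj hbin hBb hb0
    by_cases h1 : ∃ i, phi a i = 1 ∧ phi b i = 1
    · by_cases h2 : ∃ i, phi a i = 0 ∧ phi b i = 1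
      · exact absurd ((f a hU).1 h1 h2) ha
      · -- `a` contains `b`
        have hall : ∀ i, phi b i = 1 → phi a i = 1 := by
          intro i hi
          rcases hBa i with h | h
          · exact absurd ⟨i, h, hi⟩ h2
          · exact h
        have hU' : a - b ∉ US eb b D := by
          intro h
          apply hU
          have := Submodule.add_mem _ h (S_memUS eb b D)
          rwa [sub_add_cancel] at this
        have hdis : ∀ i, phi (a - b) i = 0 ∨ phi b i = 0 := by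
          intro i
          rcases hBb i with h | h
          · exact Or.inr h
          · left
            rw [map_sub, Pi.sub_apply, h, hall i h, sub_self]
        have h3 := (f (a - b) hU').2 hdis
        rw [sub_add_cancel] at h3
        refine ⟨a - b, ?_, hdis, Or.inr (by rw [sub_add_cancel])⟩
        rw [hA]
        intro h4
        rw [h4, zero_add] at h3
        exact ha ((mul_eq_zero.mp h3).resolve_left eb.ne_zero)
    · refine ⟨a, by rw [hA]; exact ha, ?_, Or.inl rfl⟩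
      intro i
      rcases hBb i with h | h
      · exact Or.inr h
      · rcases hBa i with h3 | h3
        · exact Or.inl h3
        · exact absurd ⟨i, h3, h⟩ h1
  obtain ⟨T, hTA, hTm, hTd, ⟨l, lT, lTp⟩, l', l'b, l'T, l'p⟩ := face2 hGen hinj D.coeff.support
    (fun a ha => hbin a ((hA a).mp ha)) ((hA b).mpr hbs) hb0 l0
    (fun a ha => lp a ((hA a).mp ha)) (hmu b (S_memUS eb b D)) hcl ((hA a1).mpr ha1) hm1
  exact ⟨T, ⟨(hA T).mp hTA, fun h => hTm (by rw [h, map_zero]), l, lT,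
    fun a ha => lTp a ((hA a).mpr ha)⟩, hTm, hTd, l', l'b, l'T,
    fun a ha => l'p a ((hA a).mpr ha)⟩

/-- The class of `a` when `nu a ≠ 0`: `D_a ≠ 0` and one of the two patterns, or everything is
zero. -/
theorem pat2 (hF1 : F1S) {phi : L →+ (P → ℤ)} (hinj : Function.Injective phi)
    {D : AO ℤ L} (hbin : ∀ a ∈ supp D, Bin phi a) {b T : L} {eb eT : (RO ℤ)ˣ}
    (m : Mut D b T eb eT) (hdis : ∀ i, phi b i = 0 ∨ phi T i = 0) {nu : L →+ ℤ}
    (hk : KRw phi D b T eb eT nu) {a : L} (ha : Out phi b T a) (hn : nu a ≠ 0) :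
    (D.coeff a = 0 → D.coeff (a + b) = 0 ∧ D.coeff (a + T) = 0 ∧ D.coeff (a + b + T) = 0) ∧
    (D.coeff a ≠ 0 →
      (a ∈ US eb b D ∧ a ∉ US eT T D ∧ D.coeff (a + b) = 0 ∧
        (eT : RO ℤ) * D.coeff (a + T) = -D.coeff a) ∨
      (a ∉ US eb b D ∧ a ∈ US eT T D ∧ D.coeff (a + T) = 0 ∧
        (eb : RO ℤ) * D.coeff (a + b) = -D.coeff a)) := by
  obtain ⟨k1, k2⟩ := hk.free a ha hn
  obtain ⟨hbs, hb0, _⟩ := m.r0
  obtain ⟨hTs, hT0, _⟩ := m.r1
  have fb := hF1 ℤ P L phi D b eb hinj hbin (hbin b hbs) hb0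
  have fT := hF1 ℤ P L phi D T eT hinj hbin (hbin T hTs) hT0
  have lb : ∀ x, x = a ∨ x = a + T → x ∉ US eb b D → D.coeff x + (eb : RO ℤ) * D.coeff (x + b) = 0 := by
    intro x hx hU
    refine (fb x hU).2 fun i => ?_
    rcases hx with rfl | rfl
    · exact (ha i).imp id fun h => h.1
    · rcases ha i with h | h
      · rcases hdis i with h3 | h3
        · exact Or.inr h3
        · left; rw [map_add, Pi.add_apply, h, h3, add_zero]
      · exact Or.inr h.1
  have lT : ∀ x, x = a ∨ x = a + b → x ∉ US eT T D → D.coeff x + (eT : RO ℤ) * D.coeff (x + T) = 0 := by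
    intro x hx hU
    refine (fT x hU).2 fun i => ?_
    rcases hx with rfl | rfl
    · exact (ha i).imp id fun h => h.2
    · rcases ha i with h | h
      · rcases hdis i with h3 | h3
        · left; rw [map_add, Pi.add_apply, h, h3, add_zero]
        · exact Or.inr h3
      · exact Or.inr h.2
  have e1 : a + T + b = a + b + T := by abel
  -- which of `a`, `a + T` is outside `U_b`
  have hor : (a ∈ US eb b D → a + T ∉ US eb b D) := by
    intro h1 h2
    apply m.m0
    have := Submodule.sub_mem _ h2 h1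
    rwa [add_sub_cancel_left] at this
  have horT : (a ∈ US eT T D → a + b ∉ US eT T D) := by
    intro h1 h2
    apply m.m1
    have := Submodule.sub_mem _ h2 h1
    rwa [add_sub_cancel_left] at this
  by_cases hA : a ∈ US eb b D
  · have r := lb (a + T) (Or.inr rfl) (hor hA)
    rw [e1] at r
    -- `y + v = 0`, so `x = 0`
    have y1 : (eT : RO ℤ) * D.coeff (a + T) = -D.coeff a := by
      linear_combination (eT : RO ℤ) * r - k1
    have x1 : (eb : RO ℤ) * D.coeff (a + b) = 0 := by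
      linear_combination k2 - (eT : RO ℤ) * r
    have x2 : D.coeff (a + b) = 0 := (mul_eq_zero.mp x1).resolve_left eb.ne_zero
    refine ⟨fun h0 => ?_, fun h0 => Or.inl ⟨hA, ?_, x2, y1⟩⟩
    · have y2 : D.coeff (a + T) = 0 := by
        rw [h0, neg_zero] at y1
        exact (mul_eq_zero.mp y1).resolve_left eT.ne_zero
      refine ⟨x2, y2, ?_⟩
      rw [h0, mul_assoc] at k1
      exact (mul_eq_zero.mp ((mul_eq_zero.mp k1).resolve_left eb.ne_zero)).resolve_left eT.ne_zero
    · intro hB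
      have r2 := lT (a + b) (Or.inr rfl) (horT hB)
      rw [x2, zero_add] at r2
      apply h0
      rw [← k1, mul_assoc, r2, mul_zero]
  · have r := lb a (Or.inl rfl) hA
    have x1 : (eb : RO ℤ) * D.coeff (a + b) = -D.coeff a := by linear_combination r
    have y1 : (eT : RO ℤ) * D.coeff (a + T) = 0 := by linear_combination k2 - k1 - x1
    have y2 : D.coeff (a + T) = 0 := (mul_eq_zero.mp y1).resolve_left eT.ne_zero
    refine ⟨fun h0 => ?_, fun h0 => Or.inr ⟨hA, ?_, y2, x1⟩⟩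
    · refine ⟨?_, y2, ?_⟩
      · rw [h0, neg_zero] at x1
        exact (mul_eq_zero.mp x1).resolve_left eb.ne_zero
      · rw [h0, mul_assoc] at k1
        exact (mul_eq_zero.mp ((mul_eq_zero.mp k1).resolve_left eb.ne_zero)).resolve_left eT.ne_zero
    · by_contra hB
      have r2 := lT a (Or.inl rfl) hB
      rw [y2, mul_zero, add_zero] at r2
      exact h0 r2

/-- (BP_KAP) the third ray. -/
theorem kap (hGen : GenS) (hF1 : F1S) (hMp : MpaS) {phi : L →+ (P → ℤ)}
    (hinj : Function.Injective phi) {D : AO ℤ L} (hbin : ∀ a ∈ supp D, Bin phi a) {b T : L}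
    {eb eT : (RO ℤ)ˣ} (m : Mut D b T eb eT) (hdis : ∀ i, phi b i = 0 ∨ phi T i = 0)
    {l : L →+ ℤ} (lb : l b = 0) (lT : l T = 0)
    (lp : ∀ a ∈ supp D, a ≠ 0 → a ≠ b → a ≠ T → a ≠ b + T → 0 < l a) {nu : L →+ ℤ}
    (hk : KRw phi D b T eb eT nu) {a1 : L} (ha1 : a1 ∈ supp D) (hn1 : nu a1 ≠ 0) :
    ∃ x, Ray D x ∧ nu x ≠ 0 ∧ Out phi b T x ∧
      ((x ∈ US eb b D ∧ x ∉ US eT T D ∧
        ∀ (i0 : P) (h : co phi i0 b = 1), ∃ x' : Ker (co phi i0), (x' : L) = x ∧
          (cl (co phi i0) b h eb D).coeff x' = D.coeff x ∧ Ray (cl (co phi i0) b h eb D) x') ∨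
      (x ∉ US eb b D ∧ x ∈ US eT T D ∧
        ∀ (i0 : P) (h : co phi i0 T = 1), ∃ x' : Ker (co phi i0), (x' : L) = x ∧
          (cl (co phi i0) T h eT D).coeff x' = D.coeff x ∧ Ray (cl (co phi i0) T h eT D) x')) := by
  have hA : ∀ a, a ∈ D.coeff.support ↔ a ∈ supp D := fun a => Finsupp.mem_support_iff
  obtain ⟨hbs, hb0, _⟩ := m.r0
  obtain ⟨hTs, hT0, _⟩ := m.r1
  have hcl : ∀ a ∈ D.coeff.support, nu a ≠ 0 →
      ∃ a' ∈ D.coeff.support, (∀ p, phi a' p = 0 ∨ (phi b p = 0 ∧ phi T p = 0)) ∧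
        ∃ i j : ℤ, a = a' + i • b + j • T := by
    intro a ha hna
    rw [hA] at ha
    rcases hMp ℤ P L phi D b T eb eT hinj hbin m a ha with ⟨h1, _⟩ | ⟨_, a', p, q, hp, hq, ho, he⟩
    · exact absurd (hk.part a ha h1) hna
    · have hna' : nu a' ≠ 0 := by
        rw [he, map_add, map_add, map_nsmul, map_nsmul, hk.s0, hk.s1, smul_zero, smul_zero,
          add_zero, add_zero] at hna
        exact hna
      obtain ⟨z1, _⟩ := pat2 hF1 hinj hbin m hdis hk ho hna'
      refine ⟨a', ?_, ho, p, q, by rw [he, natCast_zsmul, natCast_zsmul]⟩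
      rw [hA]
      intro h0
      obtain ⟨z2, z3, z4⟩ := z1 h0
      apply ha
      have hp' : p = 0 ∨ p = 1 := by omega
      have hq' : q = 0 ∨ q = 1 := by omega
      rcases hp' with h5 | h5 <;> rcases hq' with h6 | h6 <;> rw [he, h5, h6]
      · simpa using h0
      · simpa using z3
      · simpa using z2
      · simpa using z4
  obtain ⟨x, hxA, hxn, hxo, ⟨l1, l1x, l1p⟩, ⟨l2, l2b, l2x, l2p⟩, ⟨l3, l3T, l3x, l3p⟩, _⟩ :=
    face3 hGen hinj D.coeff.support (fun a ha => hbin a ((hA a).mp ha)) ((hA b).mpr hbs) hb0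
      ((hA T).mpr hTs) hT0 (fun i => (hdis i).symm) lb lT (fun a ha => lp a ((hA a).mp ha)) hk.s0
      hk.s1 hcl ((hA a1).mpr ha1) hn1
  rw [hA] at hxA
  have hx0 : x ≠ 0 := fun h => hxn (by rw [h, map_zero])
  have hray : Ray D x := ⟨hxA, hx0, l1, l1x, fun a ha => l1p a ((hA a).mpr ha)⟩
  have hxo' : Out phi b T x := hxo
  refine ⟨x, hray, hxn, hxo', ?_⟩
  rcases (pat2 hF1 hinj hbin m hdis hk hxo' hxn).2 hxA with ⟨c1, c2, c3, _⟩ | ⟨c1, c2, c3, _⟩
  · left
    refine ⟨c1, c2, fun i0 h => ?_⟩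
    have hbi : phi b i0 = 1 := h
    have hxi : phi x i0 = 0 := by
      rcases hxo i0 with h1 | h1
      · exact h1
      · rw [hbi] at h1; exact absurd h1.1 one_ne_zero
    have hsum : D.coeff x + (eb : RO ℤ) * D.coeff (x + b) = D.coeff x := by
      rw [c3, mul_zero, add_zero]
    obtain ⟨d1, d2⟩ := ray_cl hbin h eb hx0 hxi l2b l2x (fun a ha => l2p a ((hA a).mpr ha))
      (by rw [hsum]; exact hxA)
    exact ⟨⟨x, hxi⟩, rfl, by rw [d1, hsum], d2⟩
  · right
    refine ⟨c1, c2, fun i0 h => ?_⟩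
    have hTi : phi T i0 = 1 := h
    have hxi : phi x i0 = 0 := by
      rcases hxo i0 with h1 | h1
      · exact h1
      · rw [hTi] at h1; exact absurd h1.2 one_ne_zero
    have hsum : D.coeff x + (eT : RO ℤ) * D.coeff (x + T) = D.coeff x := by
      rw [c3, mul_zero, add_zero]
    obtain ⟨d1, d2⟩ := ray_cl hbin h eT hx0 hxi l3T l3x (fun a ha => l3p a ((hA a).mpr ha))
      (by rw [hsum]; exact hxA)
    exact ⟨⟨x, hxi⟩, rfl, by rw [d1, hsum], d2⟩

end

end Pool.Agent.B5.BP12
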