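import Pool.Agent.Lib.MP_b5021c_nt.BP.H57.Eta
import Pool.Agent.Lib.MP_b5021c_nt.BP.H12.Kap
import Pool.Agent.Lib.MP_b5021c_nt.B.H07.Cro

/-!
# Board b5, BpS, row B1 (helper12)

A simplicial face `{b, T1, x}` with the cube `(p-e) + (e-g) Y_b + e (1-Y_b)(1-Y_T1)(1-Y_x)`:
then `3 e(0) ≤ p(0) + 1`.  Proof: the double closing `T1 = x = e^(i pi/3)` is stable, with the ray
`b`.
-/

namespace Pool.Agent.B5.BP12

open Pool.Agent.B5
open scoped LaurentPolynomial
open Polynomial
open Pool.Agent.MP_b5021c_nt (Eis)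
open Pool.Agent.MP_b5021c_nt.Ire (bc)
open Pool.Agent.B5.H25.Bch
open Pool.Agent.B5.BP90 (Et pE pE_inj embN et_im_ne)
open Pool.Agent.B5.BP57 (et_mul et_norm et_sub_norm pE_eval pE_coeff ray_polyU nf_of_unit classV_of
  zf_of_unit norm_unit)

set_option linter.unusedSectionVars false

/-! ## One variable -/

/-- `q - f` is zero-free in the disc if `|f| ≤ |q|` on the circle and `f(0) ≠ q(0)`. -/
theorem zf_sub {q f : ℂ[X]} (hq : ∀ z : ℂ, ‖z‖ ≤ 1 → q.eval z ≠ 0)
    (hf : ∀ z : ℂ, ‖z‖ = 1 → ‖f.eval z‖ ≤ ‖q.eval z‖) (h0 : f.eval 0 ≠ q.eval 0) : ZF (q - f) := by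
  intro z0 hz0 h
  rw [eval_sub, sub_eq_zero] at h
  let u : ℂ → ℂ := fun z => f.eval z / q.eval z
  have hud : ∀ z : ℂ, ‖z‖ ≤ 1 → DifferentiableAt ℂ u z := fun z hz =>
    (f.differentiable z).div (q.differentiable z) (hq z hz)
  have hcl : closure (Metric.ball (0 : ℂ) 1) = Metric.closedBall 0 1 :=
    closure_ball 0 one_ne_zero
  have hdc : DiffContOnCl ℂ u (Metric.ball (0 : ℂ) 1) := by
    refine ⟨fun z hz => (hud z ?_).differentiableWithinAt, fun z hz =>
      (hud z ?_).continuousAt.continuousWithinAt⟩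
    · rw [mem_ball_zero_iff] at hz
      exact hz.le
    · rw [hcl, mem_closedBall_zero_iff] at hz
      exact hz
  have hle : ∀ z : ℂ, ‖z‖ < 1 → ‖u z‖ ≤ 1 := by
    intro z hz
    refine Complex.norm_le_of_forall_mem_frontier_norm_le Metric.isBounded_ball hdc ?_
      (subset_closure (mem_ball_zero_iff.mpr hz))
    intro y hy
    rw [frontier_ball (0 : ℂ) one_ne_zero, mem_sphere_zero_iff_norm] at hy
    change ‖f.eval y / q.eval y‖ ≤ 1
    rw [norm_div]
    exact div_le_one_of_le₀ (hf y hy) (norm_nonneg _)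
  have hu0 : u z0 = 1 := by
    change f.eval z0 / q.eval z0 = 1
    rw [h]
    exact div_self (by rw [← h]; exact hq z0 hz0.le)
  have hmax : IsMaxOn (norm ∘ u) (Metric.ball (0 : ℂ) 1) z0 := by
    intro z hz
    change ‖u z‖ ≤ ‖u z0‖
    rw [hu0, norm_one]
    exact hle z (mem_ball_zero_iff.mp hz)
  have hconst := Complex.eqOn_of_isPreconnected_of_isMaxOn_norm
    (convex_ball (0 : ℂ) 1).isPreconnected Metric.isOpen_ball
    (fun z hz => (hud z (mem_ball_zero_iff.mp hz).le).differentiableWithinAt)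
    (mem_ball_zero_iff.mpr hz0) hmax
  have h1 := hconst (Metric.mem_ball_self one_pos)
  change f.eval 0 / q.eval 0 = u z0 at h1
  rw [hu0, div_eq_one_iff_eq (hq 0 (by simp))] at h1
  exact h0 h1

/-- the numbers. -/
theorem b1_num {et : Eis} (he : Et et) {N m : ℕ} (hN : 2 ≤ N) (hm : 1 ≤ m)
    (h : ‖(Coef.emb ((1 + et) * ((m : ℤ) : Eis) - 1) : ℂ)‖ ≤
      ‖(Coef.emb (((N : ℤ) : Eis) - (1 + et) * ((m : ℤ) : Eis)) : ℂ)‖) : 3 * m ≤ N + 1 := by
  obtain ⟨h1, h2⟩ := he
  have h3 := mul_self_le_mul_self (norm_nonneg _) h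
  rw [← sq, ← sq, ← Complex.normSq_eq_norm_sq, ← Complex.normSq_eq_norm_sq, Complex.normSq_apply,
    Complex.normSq_apply] at h3
  simp only [map_sub, map_mul, map_add, map_one, embN, Complex.sub_re, Complex.sub_im,
    Complex.mul_re, Complex.mul_im, Complex.add_re, Complex.add_im, Complex.one_re, Complex.one_im,
    Complex.intCast_re, Complex.intCast_im, h1, zero_add, mul_zero, sub_zero] at h3
  have hN' : (2 : ℝ) ≤ N := by exact_mod_cast hN
  have hm' : (1 : ℝ) ≤ m := by exact_mod_cast hm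
  push_cast at h3
  have h4 : (3 * m / 2 - 1 : ℝ) ^ 2 ≤ (N - 3 * m / 2) ^ 2 := by nlinarith [h3, h2]
  have h5 : (0 : ℝ) ≤ (N - 1) * (N + 1 - 3 * m) := by nlinarith [h4]
  have h6 : (0 : ℝ) ≤ N + 1 - 3 * m := by
    by_contra hcon
    push Not at hcon
    nlinarith
  have h7 : ((3 * m : ℕ) : ℝ) ≤ ((N + 1 : ℕ) : ℝ) := by
    push_cast
    linarith
  exact_mod_cast h7

/-! ## Closings over any ring -/

section

variable {O : Type} [CommRing O] [IsDomain O] [IsPrincipalIdealRing O] [Coef O]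
  {L : Type} [AddCommGroup L] [Module.Free ℤ L] [Module.Finite ℤ L]

/-- A ray of the closing, and its coefficient. -/
theorem ray_cl2 {D : AO O L} {k : L →+ ℤ} {S : L} (h : k S = 1) (hbin : ∀ a ∈ supp D, k a = 0 ∨ k a = 1)
    (e : (RO O)ˣ) {x : L} (hx0 : x ≠ 0) (hx : k x = 0) {l : L →+ ℤ} (lS : l S = 0) (lx : l x = 0)
    (lp : ∀ a ∈ supp D, a ≠ 0 → a ≠ S → a ≠ x → a ≠ S + x → 0 < l a)
    (hne : D.coeff x + (e : RO O) * D.coeff (x + S) ≠ 0) :
    Ray (cl k S h e D) ⟨x, hx⟩ := by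
  have hc := Pool.Agent.B5.H47.cl_coeff_bin k S h e D hbin
  refine ⟨?_, ?_, l.comp (incl (Ker k)), lx, ?_⟩
  · change (cl k S h e D).coeff ⟨x, hx⟩ ≠ 0
    rw [hc]
    exact hne
  · intro h0
    exact hx0 (congrArg (fun y : Ker k => (y : L)) h0)
  · intro a ha a0 ax
    change 0 < l (a : L)
    have ha1 : (cl k S h e D).coeff a ≠ 0 := ha
    rw [hc] at ha1
    have hap : k (a : L) = 0 := a.2
    have a0' : (a : L) ≠ 0 := fun h1 => a0 (Subtype.ext h1)
    have ax' : (a : L) ≠ x := fun h1 => ax (Subtype.ext h1)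
    by_cases h2 : D.coeff (a : L) = 0
    · rw [h2, zero_add] at ha1
      have h3 : (a : L) + S ∈ supp D := right_ne_zero_of_mul ha1
      have h4 := lp _ h3 (by
        intro h5
        have := congrArg k h5
        rw [map_add, hap, h, map_zero] at this
        omega) (by
        intro h5
        exact a0' (by simpa using h5)) (by
        intro h5
        have := congrArg k h5
        rw [map_add, hap, h, hx] at this
        omega) (by
        intro h5
        rw [add_comm S x] at h5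
        exact ax' (by simpa using h5))
      rwa [map_add, lS, add_zero] at h4
    · exact lp _ h2 a0' (by
        intro h5
        rw [h5, h] at hap
        exact one_ne_zero hap) ax' (by
        intro h5
        rw [h5, map_add, h, hx] at hap
        omega)

end

/-! ## The row -/

/-- (B1). -/
theorem b1 (hE2 : E2S) (hVZ : VZS) (hU : UnitRS) (hMV : MVS) (hMm : MmonoS) (hA6 : A6S)
    (hB5 : B5S) (hB2 : B2cS) {P L : Type} [Fintype P] [DecidableEq P] [AddCommGroup L]
    [Module.Free ℤ L] [Module.Finite ℤ L] {phi : L →+ (P → ℤ)} {E : AO ℤ L} (hD : DD phi E)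
    (hrk2 : 2 ≤ Module.finrank ℤ L) {NR : ℝ} (hcv : ClassV NR (E.coeff 0)) {b T x : L}
    (hT : Ray E T) (hb0 : b ≠ 0) (hx0 : x ≠ 0) {i1 i2 : P} (h1 : co phi i1 T = 1)
    (h2 : co phi i2 x = 1) (x1 : co phi i1 x = 0) (b1 : co phi i1 b = 0) (T2 : co phi i2 T = 0)
    (b2 : co phi i2 b = 0)
    (hl2 : ∃ l : L →+ ℤ, l T = 0 ∧ l x = 0 ∧
      ∀ a ∈ supp E, a ≠ 0 → a ≠ T → a ≠ x → a ≠ T + x → 0 < l a)
    (hl3 : ∃ l : L →+ ℤ, l b = 0 ∧ l T = 0 ∧ l x = 0 ∧ ∀ a ∈ supp E, 0 ≤ l a ∧ (l a = 0 →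
      ∃ i j k : ℤ, (i = 0 ∨ i = 1) ∧ (j = 0 ∨ j = 1) ∧ (k = 0 ∨ k = 1) ∧
        a = i • b + j • T + k • x))
    {w eb eT ex : (RO ℤ)ˣ} {p e g : ℤ[X]} {N m : ℕ} (hN : 2 ≤ N) (hm : 1 ≤ m)
    (hp0 : p.coeff 0 = N) (he0 : e.coeff 0 = m) (hg0 : g.coeff 0 = 1)
    (hp : (w : RO ℤ) * E.coeff 0 = toLaurent p)
    (hg : (w : RO ℤ) * ((eb : RO ℤ) * E.coeff b) = -toLaurent g)
    (hcT : (w : RO ℤ) * ((eT : RO ℤ) * E.coeff T) = -toLaurent e)
    (hcx : (w : RO ℤ) * ((ex : RO ℤ) * E.coeff x) = -toLaurent e)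
    (hcTx : (w : RO ℤ) * ((eT : RO ℤ) * (ex : RO ℤ) * E.coeff (T + x)) = toLaurent e)
    (hcbT : (w : RO ℤ) * ((eb : RO ℤ) * (eT : RO ℤ) * E.coeff (b + T)) = toLaurent e)
    (hcbx : (w : RO ℤ) * ((eb : RO ℤ) * (ex : RO ℤ) * E.coeff (b + x)) = toLaurent e)
    (hcbTx : (w : RO ℤ) * ((eb : RO ℤ) * (eT : RO ℤ) * (ex : RO ℤ) * E.coeff (b + T + x)) =
      -toLaurent e) : 3 * m ≤ N + 1 := by
  obtain ⟨et, he⟩ : ∃ et : Eis, Et et := ⟨_, Pool.Agent.B5.BP90.et_g6⟩
  have hpne : p.coeff 0 ≠ 0 := by rw [hp0]; exact_mod_cast (by omega : N ≠ 0)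
  obtain ⟨hpz, -⟩ := zf_of_unit hU hcv hp hpne
  obtain ⟨hpcl, hle, hlt⟩ := ray_polyU hE2 hVZ hD hrk2 hT hp hcT hpz
  have hDb : DD phi (bc E) := dd_bc hD (by omega)
  -- units
  have hetu : IsUnit et := IsUnit.of_mul_eq_one _ (et_mul he)
  obtain ⟨eu, heu⟩ := (hetu.map (LaurentPolynomial.C : Eis →+* RO Eis))
  obtain ⟨k1, hk1⟩ : ∃ k1 : (RO Eis)ˣ, (k1 : RO Eis) = LaurentPolynomial.C et * bcR (eT : RO ℤ) :=
    ⟨eu * bcU eT, by rw [Units.val_mul, heu]; rfl⟩
  obtain ⟨k2, hk2⟩ : ∃ k2 : (RO Eis)ˣ, (k2 : RO Eis) = LaurentPolynomial.C et * bcR (ex : RO ℤ) :=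
    ⟨eu * bcU ex, by rw [Units.val_mul, heu]; rfl⟩
  have het2 : (LaurentPolynomial.C et : RO Eis) * LaurentPolynomial.C et =
      LaurentPolynomial.C et - 1 := by
    have h3 : et * et = et - 1 := by linear_combination -(et_mul he)
    rw [← map_mul, h3, map_sub, map_one]
  -- coefficients over `Eis`
  have cp := congrArg bcR hp
  have cg := congrArg bcR hg
  have cT := congrArg bcR hcT
  have cx := congrArg bcR hcx
  have cTx := congrArg bcR hcTx
  have cbT := congrArg bcR hcbT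
  have cbx := congrArg bcR hcbx
  have cbTx := congrArg bcR hcbTx
  simp only [map_mul, map_neg, bcR_L] at cp cg cT cx cTx cbT cbx cbTx
  -- the first closing
  have hbinE : ∀ a ∈ supp (bc E), co phi i1 a = 0 ∨ co phi i1 a = 1 := fun a ha => hDb.bin a ha i1
  have hc1 := Pool.Agent.B5.H47.cl_coeff_bin (co phi i1) T h1 k1 (bc E) hbinE
  obtain ⟨hTs, hT0, lam, lT, lp⟩ := hT
  have hsb : supp (bc E) = supp E := supp_bc E
  obtain ⟨E1, hE1⟩ : ∃ E1, E1 = cl (co phi i1) T h1 k1 (bc E) := ⟨_, rfl⟩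
  rw [← hE1] at hc1
  let x' : Ker (co phi i1) := ⟨x, x1⟩
  let b' : Ker (co phi i1) := ⟨b, b1⟩
  have c10 : bcR (w : RO ℤ) * E1.coeff 0 = toLaurent (pE p - C et * pE e) := by
    rw [hc1, map_sub, map_mul, toLaurent_C, bc_co]
    change bcR (w : RO ℤ) * (bcR (E.coeff 0) + (k1 : RO Eis) * (bc E).coeff (0 + T)) = _
    rw [zero_add, bc_co, hk1]
    linear_combination cp + LaurentPolynomial.C et * cT
  have c1x : bcR (w : RO ℤ) * ((k2 : RO Eis) * E1.coeff x') = -toLaurent (pE e) := by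
    rw [hc1, bc_co]
    change bcR (w : RO ℤ) * ((k2 : RO Eis) * (bcR (E.coeff x) + (k1 : RO Eis) * (bc E).coeff (x + T))) = _
    rw [add_comm x T, bc_co, hk1, hk2]
    linear_combination LaurentPolynomial.C et * cx + (LaurentPolynomial.C et *
      LaurentPolynomial.C et) * cTx + toLaurent (pE e) * het2
  -- the values at zero
  have hN' : (2 : ℝ) ≤ N := by exact_mod_cast hN
  have hm' : (1 : ℝ) ≤ m := by exact_mod_cast hm
  have him := et_im_ne he
  have v1 : (pE p - C et * pE e).coeff 0 = ((N : ℤ) : Eis) - et * ((m : ℤ) : Eis) := by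
    rw [coeff_sub, coeff_C_mul, pE_coeff, pE_coeff, hp0, he0]
  have v2 : (pE p - C (1 + et) * pE e).coeff 0 = ((N : ℤ) : Eis) - (1 + et) * ((m : ℤ) : Eis) := by
    rw [coeff_sub, coeff_C_mul, pE_coeff, pE_coeff, hp0, he0]
  have v3 : (C (1 + et) * pE e - pE g).coeff 0 = (1 + et) * ((m : ℤ) : Eis) - 1 := by
    rw [coeff_sub, coeff_C_mul, pE_coeff, pE_coeff, he0, hg0]
    push_cast
    rfl
  have hmim : (Coef.emb et : ℂ).im * (m : ℝ) ≠ 0 := mul_ne_zero him (by positivity)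
  have n1 : (pE p - C et * pE e).coeff 0 ≠ 0 := by
    rw [v1]
    intro h0
    have h3 := congrArg (fun y : Eis => (Coef.emb y : ℂ).im) h0
    simp only [map_sub, map_mul, map_zero, embN, Complex.sub_im, Complex.mul_im,
      Complex.intCast_re, Complex.intCast_im, Complex.zero_im, mul_zero, zero_add, zero_sub,
      neg_eq_zero] at h3
    exact hmim (by exact_mod_cast h3)
  have n2 : (pE p - C (1 + et) * pE e).coeff 0 ≠ 0 := by
    rw [v2]
    intro h0
    have h3 := congrArg (fun y : Eis => (Coef.emb y : ℂ).im) h0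
    simp only [map_sub, map_mul, map_add, map_one, map_zero, embN, Complex.sub_im, Complex.mul_im,
      Complex.add_im, Complex.one_im, Complex.intCast_re, Complex.intCast_im, Complex.zero_im,
      mul_zero, zero_add, zero_sub, neg_eq_zero] at h3
    exact hmim (by exact_mod_cast h3)
  have n3 : (C (1 + et) * pE e - pE g).coeff 0 ≠ 0 := by
    rw [v3]
    intro h0
    have h3 := congrArg (fun y : Eis => (Coef.emb y : ℂ).im) h0
    simp only [map_sub, map_mul, map_add, map_one, map_zero, embN, Complex.sub_im, Complex.mul_im,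
      Complex.add_im, Complex.one_im, Complex.intCast_re, Complex.intCast_im, Complex.zero_im,
      mul_zero, zero_add, sub_zero] at h3
    exact hmim (by exact_mod_cast h3)
  have tl0 : ∀ {f : Eis[X]} {u : RO Eis}, f.coeff 0 ≠ 0 → u = toLaurent f → u ≠ 0 := by
    intro f u hf hu h0
    rw [h0] at hu
    have h3 : f = 0 := toLaurent_injective (by rw [← hu, map_zero])
    exact hf (by rw [h3, coeff_zero])
  have hS1ne : (bc E).coeff 0 + (k1 : RO Eis) * (bc E).coeff T ≠ 0 := by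
    have h3 := tl0 n1 c10
    have h4 := right_ne_zero_of_mul h3
    rw [hc1] at h4
    change (bc E).coeff 0 + (k1 : RO Eis) * (bc E).coeff (0 + T) ≠ 0 at h4
    rwa [zero_add] at h4
  have hS1 : Stable E1 := by
    rw [hE1]
    refine hB5 Eis L (bc E) (co phi i1) T h1 k1 lam hDb.st ?_ lT ?_ hS1ne
    · intro a ha
      rcases hbinE a (Finsupp.mem_support_iff.mp ha) with h | h
      · rw [h]
      · rw [h]; exact zero_le_one
    · intro a ha
      rw [hsb] at ha
      exact lp a ha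
  -- the ray `x` of the first closing
  obtain ⟨l2, l2T, l2x, l2p⟩ := hl2
  have hR1 : Ray E1 x' := by
    rw [hE1]
    refine ray_cl2 h1 hbinE k1 hx0 x1 l2T l2x (fun a ha => l2p a (by rwa [hsb] at ha)) ?_
    have h3 : (w : RO ℤ) * ((ex : RO ℤ) * E.coeff x) ≠ 0 := by
      rw [hcx]
      intro h4
      have h5 : e = 0 := toLaurent_injective (by rw [map_zero]; exact neg_eq_zero.mp h4)
      rw [h5, coeff_zero] at he0
      have h6 : (m : ℤ) ≠ 0 := by exact_mod_cast (by omega : m ≠ 0)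
      exact h6 he0.symm
    intro h4
    have h5 := c1x
    rw [hc1] at h5
    change bcR (w : RO ℤ) * ((k2 : RO Eis) * ((bc E).coeff x + (k1 : RO Eis) * (bc E).coeff (x + T)))
      = _ at h5
    rw [h4, mul_zero, mul_zero] at h5
    have h6 : pE e = 0 := toLaurent_injective (by rw [map_zero, ← neg_eq_zero, ← h5])
    have h7 := congrArg (fun f : Eis[X] => (Coef.emb (f.coeff 0) : ℂ)) h6
    simp only [pE_coeff, he0, embN, coeff_zero, map_zero] at h7
    have h8 : (m : ℝ) = 0 := by exact_mod_cast h7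
    linarith
  obtain ⟨-, hb21⟩ := hB2 Eis (Ker (co phi i1)) E1 hS1
  have hin1 := hb21 x' hR1
  have hun : ∀ (z : Circle) (v : (RO Eis)ˣ), ‖evR z (v : RO Eis)‖ = 1 := fun z v =>
    H36.norm_evR_unit z _ v.isUnit
  have hevL : ∀ (z : Circle) (f : Eis[X]), ‖evR z (toLaurent f : RO Eis)‖ =
      ‖(f.map (Coef.emb : Eis →+* ℂ)).eval (z : ℂ)‖ := by
    intro z f
    have h3 := Pool.Agent.B5.H70.norm_evR_T_mul z 0 f
    rwa [LaurentPolynomial.T_zero, one_mul] at h3
  have hin1' : ∀ z : ℂ, ‖z‖ = 1 → ‖((pE e).map (Coef.emb : Eis →+* ℂ)).eval z‖ ≤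
      ‖((pE p - C et * pE e).map (Coef.emb : Eis →+* ℂ)).eval z‖ := by
    intro z hz
    obtain ⟨zc, rfl⟩ : ∃ zc : Circle, (zc : ℂ) = z :=
      ⟨⟨z, mem_sphere_zero_iff_norm.mpr hz⟩, rfl⟩
    rw [← hevL, ← hevL, ← c10, ← norm_neg (evR zc (toLaurent (pE e))), ← map_neg, ← c1x, map_mul,
      map_mul, norm_mul, norm_mul, map_mul, norm_mul]
    have h3 : bcR (w : RO ℤ) = ((bcU w : (RO Eis)ˣ) : RO Eis) := rfl
    simp only [h3, hun, one_mul]
    exact hin1 zc
  -- zero-free apexes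
  have hq1 : ∀ z : ℂ, ‖z‖ ≤ 1 → ((pE p - C et * pE e).map (Coef.emb : Eis →+* ℂ)).eval z ≠ 0 := by
    intro z hz h0
    have h3 : ((pE p - C et * pE e).map (Coef.emb : Eis →+* ℂ)).eval z =
        (p.map (Coef.emb : ℤ →+* ℂ)).eval z -
          Coef.emb et * (e.map (Coef.emb : ℤ →+* ℂ)).eval z := by
      rw [Polynomial.map_sub, Polynomial.map_mul, map_C, eval_sub, eval_mul, eval_C, pE_eval,
        pE_eval]
    have h0' := h0
    rw [h3, sub_eq_zero] at h0
    rcases lt_or_eq_of_le hz with h4 | h4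
    · have h5 := hlt z h4
      rw [h0, norm_mul, et_norm he, one_mul] at h5
      exact lt_irrefl _ h5
    · have h5 := hin1' z h4
      rw [h0', norm_zero, pE_eval] at h5
      have h6 : (e.map (Coef.emb : ℤ →+* ℂ)).eval z = 0 :=
        norm_eq_zero.mp (le_antisymm h5 (norm_nonneg _))
      rw [h6, mul_zero] at h0
      exact hpcl z hz h0
  have hq2 : ZF ((pE p - C (1 + et) * pE e).map (Coef.emb : Eis →+* ℂ)) := by
    have h3 : (pE p - C (1 + et) * pE e).map (Coef.emb : Eis →+* ℂ) =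
        (pE p - C et * pE e).map (Coef.emb : Eis →+* ℂ) - (pE e).map (Coef.emb : Eis →+* ℂ) := by
      rw [← Polynomial.map_sub]
      congr 1
      rw [map_add, map_one]
      ring
    rw [h3]
    refine zf_sub hq1 hin1' ?_
    intro h4
    have h5 : (Coef.emb ((pE p - C (1 + et) * pE e).coeff 0) : ℂ) = 0 := by
      rw [← coeff_map, h3, coeff_sub, coeff_zero_eq_eval_zero, coeff_zero_eq_eval_zero, h4,
        sub_self]
    exact n2 (emb_inj (h5.trans (map_zero _).symm))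
  -- the second closing
  have hbin1 : ∀ a ∈ supp E1, ((co phi i2).comp (incl (Ker (co phi i1)))) a = 0 ∨
      ((co phi i2).comp (incl (Ker (co phi i1)))) a = 1 := by
    intro a ha
    have ha1 : E1.coeff a ≠ 0 := ha
    rw [hc1] at ha1
    change co phi i2 (a : L) = 0 ∨ co phi i2 (a : L) = 1
    by_cases h3 : (bc E).coeff (a : L) = 0
    · rw [h3, zero_add] at ha1
      have h4 := hDb.bin _ (right_ne_zero_of_mul ha1) i2
      change co phi i2 ((a : L) + T) = 0 ∨ co phi i2 ((a : L) + T) = 1 at h4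
      rwa [map_add, T2, add_zero] at h4
    · exact hDb.bin _ h3 i2
  obtain ⟨kk, hkk⟩ : ∃ kk, kk = (co phi i2).comp (incl (Ker (co phi i1))) := ⟨_, rfl⟩
  rw [← hkk] at hbin1
  have hkx : kk x' = 1 := by rw [hkk]; exact h2
  have hkb : kk b' = 0 := by rw [hkk]; exact b2
  have hkv : ∀ a : Ker (co phi i1), kk a = co phi i2 (a : L) := fun a => by rw [hkk]; rfl
  have hc2 := Pool.Agent.B5.H47.cl_coeff_bin kk x' hkx k2 E1 hbin1
  obtain ⟨E2, hE2'⟩ : ∃ E2, E2 = cl kk x' hkx k2 E1 := ⟨_, rfl⟩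
  rw [← hE2'] at hc2
  have c20 : bcR (w : RO ℤ) * E2.coeff 0 = toLaurent (pE p - C (1 + et) * pE e) := by
    rw [hc2]
    change bcR (w : RO ℤ) * (E1.coeff 0 + (k2 : RO Eis) * E1.coeff (0 + x')) = _
    rw [zero_add]
    have h3 : pE p - C (1 + et) * pE e = (pE p - C et * pE e) - pE e := by
      rw [map_add, map_one]
      ring
    rw [h3, map_sub (toLaurent : Eis[X] →+* RO Eis)]
    linear_combination c10 + c1x
  have hS2ne : E1.coeff 0 + (k2 : RO Eis) * E1.coeff x' ≠ 0 := by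
    have h4 := right_ne_zero_of_mul (tl0 n2 c20)
    rw [hc2] at h4
    change E1.coeff 0 + (k2 : RO Eis) * E1.coeff (0 + x') ≠ 0 at h4
    rwa [zero_add] at h4
  obtain ⟨-, -, lamx, lamx0, lamxp⟩ := id hR1
  have hS2 : Stable E2 := by
    rw [hE2']
    refine hB5 Eis _ E1 kk x' hkx k2 lamx hS1 ?_ lamx0 lamxp hS2ne
    intro a ha
    rcases hbin1 a (Finsupp.mem_support_iff.mp ha) with h | h
    · rw [h]
    · rw [h]; exact zero_le_one
  -- the coefficient of `b`
  have c2b : bcR (w : RO ℤ) * (bcR (eb : RO ℤ) * E2.coeff ⟨b', hkb⟩) =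
      toLaurent (C (1 + et) * pE e - pE g) := by
    rw [hc2]
    change bcR (w : RO ℤ) * (bcR (eb : RO ℤ) * (E1.coeff b' + (k2 : RO Eis) * E1.coeff (b' + x'))) = _
    rw [hc1, hc1]
    change bcR (w : RO ℤ) * (bcR (eb : RO ℤ) * ((bc E).coeff b + (k1 : RO Eis) * (bc E).coeff (b + T) +
      (k2 : RO Eis) * ((bc E).coeff (b + x) + (k1 : RO Eis) * (bc E).coeff (b + x + T)))) = _
    rw [bc_co, bc_co, bc_co, bc_co, hk1, hk2, show b + x + T = b + T + x by abel, map_sub, map_mul,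
      toLaurent_C, map_add LaurentPolynomial.C, map_one LaurentPolynomial.C]
    linear_combination cg + LaurentPolynomial.C et * cbT + LaurentPolynomial.C et * cbx +
      (LaurentPolynomial.C et * LaurentPolynomial.C et) * cbTx - toLaurent (pE e) * het2
  have hE2b : E2.coeff ⟨b', hkb⟩ ≠ 0 :=
    right_ne_zero_of_mul (right_ne_zero_of_mul (tl0 n3 c2b))
  obtain ⟨l3, l3b, l3T, l3x, l3p⟩ := hl3
  -- the ray `b` of the second closing
  have key : ∀ (a : L) (i j : ℤ), (i = 0 ∨ i = 1) → (j = 0 ∨ j = 1) → co phi i1 a = 0 →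
      co phi i2 a = 0 → a ≠ 0 → a ≠ b → (bc E).coeff (a + i • T + j • x) ≠ 0 → 0 < l3 a := by
    intro a i j hi hj ha1 ha2 ha0 hab hne
    have h3 : a + i • T + j • x ∈ supp E := by rw [← hsb]; exact hne
    obtain ⟨h4, h5⟩ := l3p _ h3
    have h6 : l3 (a + i • T + j • x) = l3 a := by
      rw [map_add, map_add, map_zsmul, map_zsmul, l3T, l3x, smul_zero, smul_zero, add_zero,
        add_zero]
    rw [h6] at h4 h5
    refine lt_of_le_of_ne h4 fun h7 => ?_
    obtain ⟨i', j', k', hi', hj', hk', h8⟩ := h5 h7.symm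
    have h9 := congrArg (co phi i1) h8
    have h10 := congrArg (co phi i2) h8
    simp only [map_add, map_zsmul, ha1, ha2, h1, h2, x1, b1, T2, b2, smul_eq_mul, mul_one,
      mul_zero, zero_add, add_zero] at h9 h10
    rw [h9, h10] at h8
    have h11 : a = i' • b := by
      have h12 : a + (j' • T + k' • x) = i' • b + (j' • T + k' • x) := by
        rw [← add_assoc, ← add_assoc]; exact h8
      exact add_right_cancel h12
    rcases hi' with h12 | h12
    · rw [h12, zero_smul] at h11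
      exact ha0 h11
    · rw [h12, one_smul] at h11
      exact hab h11
  have hR2 : Ray E2 ⟨b', hkb⟩ := by
    refine ⟨hE2b, ?_, (l3.comp (incl (Ker (co phi i1)))).comp (incl (Ker kk)), l3b, ?_⟩
    · intro h0
      exact hb0 (congrArg (fun y : Ker kk => ((y : Ker (co phi i1)) : L)) h0)
    · intro a ha a0 ab
      change 0 < l3 ((a : Ker (co phi i1)) : L)
      have ha' : E2.coeff a ≠ 0 := ha
      rw [hc2, hc1, hc1] at ha'
      change (bc E).coeff ((a : Ker (co phi i1)) : L) +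
        (k1 : RO Eis) * (bc E).coeff (((a : Ker (co phi i1)) : L) + T) + (k2 : RO Eis) *
          ((bc E).coeff (((a : Ker (co phi i1)) : L) + x) + (k1 : RO Eis) *
            (bc E).coeff (((a : Ker (co phi i1)) : L) + x + T)) ≠ 0 at ha'
      have hn0 : ((a : Ker (co phi i1)) : L) ≠ 0 := fun h => a0 (Subtype.ext (Subtype.ext h))
      have hnb : ((a : Ker (co phi i1)) : L) ≠ b := fun h => ab (Subtype.ext (Subtype.ext h))
      have ha1 : co phi i1 ((a : Ker (co phi i1)) : L) = 0 := (a : Ker (co phi i1)).2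
      have ha2 : co phi i2 ((a : Ker (co phi i1)) : L) = 0 := by
        rw [← hkv]; exact a.2
      by_contra hcon
      apply ha'
      have z0 : (bc E).coeff ((a : Ker (co phi i1)) : L) = 0 := by
        by_contra h3
        exact hcon (key _ 0 0 (Or.inl rfl) (Or.inl rfl) ha1 ha2 hn0 hnb (by simpa using h3))
      have z1 : (bc E).coeff (((a : Ker (co phi i1)) : L) + T) = 0 := by
        by_contra h3
        exact hcon (key _ 1 0 (Or.inr rfl) (Or.inl rfl) ha1 ha2 hn0 hnb (by simpa using h3))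
      have z2 : (bc E).coeff (((a : Ker (co phi i1)) : L) + x) = 0 := by
        by_contra h3
        exact hcon (key _ 0 1 (Or.inl rfl) (Or.inr rfl) ha1 ha2 hn0 hnb (by simpa using h3))
      have z3 : (bc E).coeff (((a : Ker (co phi i1)) : L) + x + T) = 0 := by
        by_contra h3
        refine hcon (key _ 1 1 (Or.inr rfl) (Or.inr rfl) ha1 ha2 hn0 hnb ?_)
        rw [one_smul, one_smul, add_right_comm]
        exact h3
      rw [z0, z1, z2, z3]
      ring
  obtain ⟨-, hb22⟩ := hB2 Eis (Ker kk) E2 hS2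
  have hin2 := hb22 _ hR2
  have hE20 : E2.coeff 0 ≠ 0 := hS2.1
  have hM1 : M (E2.coeff ⟨b', hkb⟩) ≤ M (E2.coeff 0) := by
    have h3 := hMm Eis (E2.coeff 0) (E2.coeff ⟨b', hkb⟩) 1 hE20 hE2b one_pos (fun z => by
      rw [one_mul]; exact hin2 z)
    rwa [one_mul] at h3
  have hval : M (E2.coeff 0) =
      ‖(Coef.emb (((N : ℤ) : Eis) - (1 + et) * ((m : ℤ) : Eis)) : ℂ)‖ := by
    have h3 := classV_of hU (w := bcU w) c20 (Coef.one_le _ n2) hq2
    rw [v2] at h3
    exact ((hMV Eis).1 _ _ h3).2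
  have hlow : ‖(Coef.emb ((1 + et) * ((m : ℤ) : Eis) - 1) : ℂ)‖ ≤ M (E2.coeff ⟨b', hkb⟩) := by
    obtain ⟨nn, s, h3⟩ := nf_of_unit hU (w := bcU w * bcU eb) (F := E2.coeff ⟨b', hkb⟩)
      (v := C (1 + et) * pE e - pE g) (by
        rw [← c2b, Units.val_mul, mul_assoc]
        rfl)
    refine Pool.Agent.B5.H07.low_le_M hA6 ⟨nn, _, h3, ?_, ?_⟩
    · rw [coeff_C_mul]
      exact mul_ne_zero s.ne_zero n3
    · rw [coeff_C_mul, map_mul, norm_mul, norm_unit, one_mul, v3]
  refine b1_num he hN hm ?_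
  rw [← hval]
  exact hlow.trans hM1

end Pool.Agent.B5.BP12
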