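import Pool.Agent.Lib.MP_b5021c_nt.BP.H12.Wd

/-!
# Board b5, BpS: the step with a drop of the double closing, w-level (helper12)

`kap'` : `kap` with the adjacency of the third ray.  `kapw` : the same with `Gl`, `Ou`, `T2f`.
-/

namespace Pool.Agent.B5.BP12

open scoped LaurentPolynomial
open Polynomial
open Pool.Agent.B5
open Pool.Agent.B5.BPR

set_option linter.unusedSectionVars false

section

variable {P : Type} [Fintype P] [DecidableEq P] {L : Type} [AddCommGroup L] [Module.Free ℤ L]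
  [Module.Finite ℤ L]

/-- (BP_KAP) the third ray, with adjacency and the exposed 3-face. -/
theorem kap' (hGen : GenS) (hF1 : F1S) (hMp : MpaS) {phi : L →+ (P → ℤ)}
    (hinj : Function.Injective phi) {D : AO ℤ L} (hbin : ∀ a ∈ supp D, Bin phi a) {b T : L}
    {eb eT : (RO ℤ)ˣ} (m : Mut D b T eb eT) (hdis : ∀ i, phi b i = 0 ∨ phi T i = 0)
    (hadj : BPR.Adj D b T) {nu : L →+ ℤ}
    (hk : KRw phi D b T eb eT nu) {a1 : L} (ha1 : a1 ∈ supp D) (hn1 : nu a1 ≠ 0) :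
    ∃ x, Ray D x ∧ nu x ≠ 0 ∧ Out phi b T x ∧ BPR.Adj D b x ∧ BPR.Adj D T x ∧
      (∃ l : L →+ ℤ, l b = 0 ∧ l T = 0 ∧ l x = 0 ∧ ∀ a ∈ supp D, 0 ≤ l a ∧ (l a = 0 →
        ∃ i j k : ℤ, (i = 0 ∨ i = 1) ∧ (j = 0 ∨ j = 1) ∧ (k = 0 ∨ k = 1) ∧
          a = i • b + j • T + k • x)) ∧
      ((x ∈ US eb b D ∧ x ∉ US eT T D ∧
        ∀ (i0 : P) (h : co phi i0 b = 1), ∃ x' : Ker (co phi i0), (x' : L) = x ∧
          (cl (co phi i0) b h eb D).coeff x' = D.coeff x ∧ Ray (cl (co phi i0) b h eb D) x') ∨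
      (x ∉ US eb b D ∧ x ∈ US eT T D ∧
        ∀ (i0 : P) (h : co phi i0 T = 1), ∃ x' : Ker (co phi i0), (x' : L) = x ∧
          (cl (co phi i0) T h eT D).coeff x' = D.coeff x ∧ Ray (cl (co phi i0) T h eT D) x')) := by
  have hA : ∀ a, a ∈ D.coeff.support ↔ a ∈ supp D := fun a => Finsupp.mem_support_iff
  obtain ⟨hbs, hb0, _⟩ := m.r0
  obtain ⟨hTs, hT0, _⟩ := m.r1
  obtain ⟨l, lb, lT, lp⟩ := hadj
  have hcl : ∀ a ∈ D.coeff.support, nu a ≠ 0 →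
      ∃ a' ∈ D.coeff.support, (∀ p, phi a' p = 0 ∨ (phi b p = 0 ∧ phi T p = 0)) ∧
        ∃ i j : ℤ, a = a' + i • b + j • T := by
    intro a ha hna
    rw [hA] at ha
    rcases hMp ℤ P L phi D b T eb eT hinj hbin m a ha with ⟨h1, _⟩ | ⟨_, a', p, q, hp, hq, ho, he⟩
    · exact absurd (hk.part a ha h1) hna
    · have hna' : nu a' ≠ 0 := by
        rw [he, map_add, map_add, map_nsmul, map_nsmul, hk.s0, hk.s1, smul_zero, smul_zero,
          add_zero, add_zero] at hna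
        exact hna
      obtain ⟨z1, _⟩ := pat2 hF1 hinj hbin m hdis hk ho hna'
      refine ⟨a', ?_, ho, p, q, by rw [he, natCast_zsmul, natCast_zsmul]⟩
      rw [hA]
      intro h0
      obtain ⟨z2, z3, z4⟩ := z1 h0
      apply ha
      have hp' : p = 0 ∨ p = 1 := by omega
      have hq' : q = 0 ∨ q = 1 := by omega
      rcases hp' with h5 | h5 <;> rcases hq' with h6 | h6 <;> rw [he, h5, h6]
      · simpa using h0
      · simpa using z3
      · simpa using z2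
      · simpa using z4
  obtain ⟨x, hxA, hxn, hxo, ⟨l1, l1x, l1p⟩, ⟨l2, l2b, l2x, l2p⟩, ⟨l3, l3T, l3x, l3p⟩,
      l4, l4b, l4T, l4x, l4p⟩ :=
    face3 hGen hinj D.coeff.support (fun a ha => hbin a ((hA a).mp ha)) ((hA b).mpr hbs) hb0
      ((hA T).mpr hTs) hT0 (fun i => (hdis i).symm) lb lT (fun a ha => lp a ((hA a).mp ha)) hk.s0
      hk.s1 hcl ((hA a1).mpr ha1) hn1
  rw [hA] at hxA
  have hx0 : x ≠ 0 := fun h => hxn (by rw [h, map_zero])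
  have hray : Ray D x := ⟨hxA, hx0, l1, l1x, fun a ha => l1p a ((hA a).mpr ha)⟩
  have hxo' : Out phi b T x := hxo
  refine ⟨x, hray, hxn, hxo', ⟨l2, l2b, l2x, fun a ha => l2p a ((hA a).mpr ha)⟩,
    ⟨l3, l3T, l3x, fun a ha => l3p a ((hA a).mpr ha)⟩,
    ⟨l4, l4b, l4T, l4x, fun a ha => l4p a ((hA a).mpr ha)⟩, ?_⟩
  rcases (pat2 hF1 hinj hbin m hdis hk hxo' hxn).2 hxA with ⟨c1, c2, c3, _⟩ | ⟨c1, c2, c3, _⟩
  · left
    refine ⟨c1, c2, fun i0 h => ?_⟩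
    have hbi : phi b i0 = 1 := h
    have hxi : phi x i0 = 0 := by
      rcases hxo i0 with h1 | h1
      · exact h1
      · rw [hbi] at h1; exact absurd h1.1 one_ne_zero
    have hsum : D.coeff x + (eb : RO ℤ) * D.coeff (x + b) = D.coeff x := by
      rw [c3, mul_zero, add_zero]
    obtain ⟨d1, d2⟩ := ray_cl hbin h eb hx0 hxi l2b l2x (fun a ha => l2p a ((hA a).mpr ha))
      (by rw [hsum]; exact hxA)
    exact ⟨⟨x, hxi⟩, rfl, by rw [d1, hsum], d2⟩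
  · right
    refine ⟨c1, c2, fun i0 h => ?_⟩
    have hTi : phi T i0 = 1 := h
    have hxi : phi x i0 = 0 := by
      rcases hxo i0 with h1 | h1
      · exact h1
      · rw [hTi] at h1; exact absurd h1.2 one_ne_zero
    have hsum : D.coeff x + (eT : RO ℤ) * D.coeff (x + T) = D.coeff x := by
      rw [c3, mul_zero, add_zero]
    obtain ⟨d1, d2⟩ := ray_cl hbin h eT hx0 hxi l3T l3x (fun a ha => l3p a ((hA a).mpr ha))
      (by rw [hsum]; exact hxA)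
    exact ⟨⟨x, hxi⟩, rfl, by rw [d1, hsum], d2⟩

theorem adj_symm {D : AO ℤ L} {b T : L} (h : BPR.Adj D b T) : BPR.Adj D T b := by
  obtain ⟨l, lb, lT, lp⟩ := h
  exact ⟨l, lT, lb, fun a ha h0 h1 h2 h3 => lp a ha h0 h2 h1 (by rwa [add_comm b T])⟩

/-- (BP_KAP) w-level: `b`, `T` adjacent, they see each other, `T2(b,T)` is not full.  There is a
third ray `x`, adjacent to both; one of `b`, `T` (say `b`) does not see it, the other sees it, and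
`x` is a ray of the closing of `b` with the coefficient of `E`. -/
theorem kapw (hGen : GenS) (hF1 : F1S) (hF2 : F2S) (hVco : VcoS) (hMp : MpaS)
    {phi : L →+ (P → ℤ)} {E : AO ℤ L} (hD : DD phi E) {b T : L} {i j : P} {eb eT : (RO ℤ)ˣ}
    {g f : ℤ[X]} (hb : Gl phi E b i eb g) (hT : Gl phi E T j eT f) (hadj : BPR.Adj E b T)
    (h1 : Ou phi E b i eb T) (h2 : Ou phi E T j eT b) (hn : ¬ T2f phi E b T eb eT) :
    ∃ x, Ray E x ∧ Out phi b T x ∧ BPR.Adj E b x ∧ BPR.Adj E T x ∧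
      ((¬ Ou phi E b i eb x ∧ Ou phi E T j eT x ∧
        ∀ (i0 : P) (h : co phi i0 b = 1), ∃ x' : Ker (co phi i0), (x' : L) = x ∧
          (cl (co phi i0) b h eb E).coeff x' = E.coeff x ∧ Ray (cl (co phi i0) b h eb E) x') ∨
      (Ou phi E b i eb x ∧ ¬ Ou phi E T j eT x ∧
        ∀ (i0 : P) (h : co phi i0 T = 1), ∃ x' : Ker (co phi i0), (x' : L) = x ∧
          (cl (co phi i0) T h eT E).coeff x' = E.coeff x ∧
          Ray (cl (co phi i0) T h eT E) x')) := by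
  unfold T2f at hn
  push Not at hn
  obtain ⟨nu, hk, hnu⟩ := hn
  obtain ⟨a1, ha1, hm1⟩ : ∃ a1 ∈ supp E, nu a1 ≠ 0 := by
    by_contra hcon
    push Not at hcon
    exact hnu (zero_of_supp hD hcon)
  have m := mut_of_ou hVco hD.inj hD.bin hb.ray hT.ray hb.po hT.po h1 h2
  have hdis := dis_of_ou hVco hF2 hD.inj hD.bin hb.ray hT.ray hb.po h1
  obtain ⟨x, x1, -, x3, x4, x5, -, x6⟩ := kap' hGen hF1 hMp hD.inj hD.bin m
    (fun q => (hdis q).symm) hadj hk ha1 hm1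
  refine ⟨x, x1, x3, x4, x5, ?_⟩
  rw [ou_us hVco hD.inj hD.bin hb.ray.1 hb.ray.2.1 hb.po,
    ou_us hVco hD.inj hD.bin hT.ray.1 hT.ray.2.1 hT.po, not_not, not_not]
  exact x6

/-- (BP_3F) w-level: `mu ≠ 0` kills the closings of the adjacent rays `b`, `T`. -/
theorem face3w (hGen : GenS) (hF1 : F1S) (hVco : VcoS) {phi : L →+ (P → ℤ)} {E : AO ℤ L}
    (hD : DD phi E) {b T : L} {i j : P} {eb eT : (RO ℤ)ˣ} {g f : ℤ[X]}
    (hb : Gl phi E b i eb g) (hT : Gl phi E T j eT f) (hadj : BPR.Adj E b T)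
    (hdis : ∀ q, phi T q = 0 ∨ phi b q = 0) {mu : L →+ ℤ} (hmu : mu ≠ 0)
    (h1 : Kw phi E b i eb mu) (h2 : Kw phi E T j eT mu) :
    ∃ x, Ray E x ∧ mu x ≠ 0 ∧ (∀ q, phi x q = 0 ∨ (phi b q = 0 ∧ phi T q = 0)) ∧
      BPR.Adj E b x ∧ BPR.Adj E T x ∧
      ∃ l : L →+ ℤ, l b = 0 ∧ l T = 0 ∧ l x = 0 ∧ ∀ a ∈ supp E, 0 ≤ l a ∧ (l a = 0 →
        ∃ i j k : ℤ, (i = 0 ∨ i = 1) ∧ (j = 0 ∨ j = 1) ∧ (k = 0 ∨ k = 1) ∧
          a = i • b + j • T + k • x) := by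
  obtain ⟨a1, ha1, hm1⟩ : ∃ a1 ∈ supp E, mu a1 ≠ 0 := by
    by_contra hcon
    push Not at hcon
    exact hmu (zero_of_supp hD hcon)
  exact face3D hGen hF1 hD.inj hD.bin hb.ray hT.ray hdis hadj
    ((kw_us hVco hD.inj hD.bin hb.ray.1 hb.ray.2.1 hb.po).mp h1)
    ((kw_us hVco hD.inj hD.bin hT.ray.1 hT.ray.2.1 hT.po).mp h2) ha1 hm1

/-- (BP_2F) w-level. -/
theorem face2w (hGen : GenS) (hF1 : F1S) (hVco : VcoS) {phi : L →+ (P → ℤ)} {E : AO ℤ L}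
    (hD : DD phi E) {b : L} {i : P} {eb : (RO ℤ)ˣ} {g : ℤ[X]}
    (hb : Gl phi E b i eb g) {mu : L →+ ℤ} (hmu : mu ≠ 0) (h1 : Kw phi E b i eb mu) :
    ∃ T, Ray E T ∧ mu T ≠ 0 ∧ (∀ q, phi T q = 0 ∨ phi b q = 0) ∧ BPR.Adj E b T := by
  obtain ⟨a1, ha1, hm1⟩ : ∃ a1 ∈ supp E, mu a1 ≠ 0 := by
    by_contra hcon
    push Not at hcon
    exact hmu (zero_of_supp hD hcon)
  obtain ⟨T, x1, x2, x3, l, l1⟩ := face2D hGen hF1 hD.inj hD.bin hb.ray
    ((kw_us hVco hD.inj hD.bin hb.ray.1 hb.ray.2.1 hb.po).mp h1) ha1 hm1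
  exact ⟨T, x1, x2, x3, l, l1⟩

end

end Pool.Agent.B5.BP12
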