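import Pool.Agent.Lib.MP_b5021c_nt.BP.H12.Asm

/-!
# Board b5, BpS: row BPR_PB from LevS, CntS, CtbS, PzS (helper12)
-/

namespace Pool.Agent.B5.BP12

open scoped LaurentPolynomial
open Polynomial
open Pool.Agent.B5
open Pool.Agent.B5.BPR

set_option linter.unusedSectionVars false

/-- A normalised binomial. -/
theorem bin_nf (hU : UnitRS) {x : RO ℤ} {w : (RO ℤ)ˣ} {q : ℤ[X]}
    (hq : (w : RO ℤ) * x = toLaurent q) (h0 : q.coeff 0 ≠ 0) {d : ℕ} (hd : 1 ≤ d) {n al be : ℤ}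
    (hx : x = LaurentPolynomial.T n * toLaurent (C al + C be * X ^ d)) :
    ∃ t : ℤ, q = C (q.coeff 0) + C t * X ^ d := by
  obtain ⟨k, u, hu, h1⟩ := (hU ℤ _).mp w.isUnit
  have h2 : (LaurentPolynomial.T 0 : RO ℤ) * toLaurent q =
      LaurentPolynomial.T (k + n) * toLaurent (C (u * al) + C (u * be) * X ^ d) := by
    rw [LaurentPolynomial.T_zero, one_mul, ← hq, hx, h1, LaurentPolynomial.T_add]
    have h3 : (C (u * al) + C (u * be) * X ^ d : ℤ[X]) = C u * (C al + C be * X ^ d) := by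
      rw [C_mul, C_mul]; ring
    rw [h3, map_mul, toLaurent_C]
    ring
  have hd0 : (d : ℕ) ≠ 0 := by omega
  by_cases hal : al = 0
  · -- a monomial
    have h4 : (LaurentPolynomial.T 0 : RO ℤ) * toLaurent q =
        LaurentPolynomial.T (k + n + d) * toLaurent (C (u * be)) := by
      rw [h2, hal, mul_zero, C_0, zero_add, map_mul, toLaurent_X_pow,
        LaurentPolynomial.T_add (k + n) (d : ℤ)]
      ring
    by_cases hbe : u * be = 0
    · exfalso
      rw [hbe, C_0, map_zero, mul_zero, LaurentPolynomial.T_zero, one_mul] at h4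
      apply h0
      rw [toLaurent_injective (h4.trans (map_zero _).symm), coeff_zero]
    · obtain ⟨-, h5⟩ := H09.nf_unique 0 _ q (C (u * be)) h0 (by rw [coeff_C_zero]; exact hbe) h4
      refine ⟨0, ?_⟩
      rw [h5, coeff_C_zero, C_0, zero_mul, add_zero]
  · have hc : (C (u * al) + C (u * be) * X ^ d : ℤ[X]).coeff 0 = u * al := by
      rw [coeff_add, coeff_C_zero, coeff_C_mul, coeff_X_pow, if_neg (Ne.symm hd0), mul_zero,
        add_zero]
    obtain ⟨-, h5⟩ := H09.nf_unique 0 _ q _ h0 (by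
      rw [hc]; exact mul_ne_zero hu.ne_zero hal) h2
    exact ⟨u * be, by rw [h5, hc]⟩

section

variable {P : Type} [Fintype P] [DecidableEq P] {L : Type} [AddCommGroup L] [Module.Free ℤ L]
  [Module.Finite ℤ L]

/-- All coefficients binomials. -/
theorem cn_of_allB (hU : UnitRS) {N : ℕ} {p g : ℤ[X]} {phi : L →+ (P → ℤ)} {E : AO ℤ L}
    (hX : Xt N p phi E) {b : L} {i : P} {e : (RO ℤ)ˣ} (hb : Gl phi E b i e g)
    (hg0 : g.coeff 0 = 1) (hA : AllB E) : Cn N p g := by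
  obtain ⟨d, hd, hA⟩ := hA
  obtain ⟨n, al, be, h0⟩ := hA 0
  obtain ⟨m, al', be', h1⟩ := hA b
  have hN := hX.n3
  obtain ⟨t, ht⟩ := bin_nf hU (w := 1) (q := p) (by rw [Units.val_one, one_mul, hX.e0])
    (by rw [hX.p0]; exact_mod_cast (by omega : N ≠ 0)) hd h0
  obtain ⟨r, hr⟩ := bin_nf hU (w := -e) (q := g) (by
    rw [Units.val_neg, neg_mul, hb.eq, neg_neg]) (by rw [hg0]; exact one_ne_zero) hd h1
  rw [hX.p0] at ht
  rw [hg0, C_1] at hr
  exact ⟨fun _ => Or.inl ⟨d, t, r, hd, ht, hr⟩, fun _ => Or.inl ⟨d, t, hd, ht⟩⟩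

end

/-- (BPR_PB). -/
theorem pbS (hU : UnitRS) (hLev : LevS) (hCnt : CntS) (hCtb : CtbS) (hPz : PzS) (hAdj : AdjS) :
    PbS := by
  intro P L _ _ _ _ _ phi E N p g f b i e T iT eT mu H hb hT hadj hk hmT hNb
  have hX := H.toXt
  rcases hLev P L phi E N p g f b i e T iT eT mu H hb hT hadj hk hmT hNb with h1 | hNT
  · exact Or.inl h1
  by_cases hnu : ∃ nu, nu ≠ 0 ∧ Kw phi E T iT eT nu
  · exact Or.inr ⟨hNT, hnu⟩
  left
  have hfull : ∀ nu : L →+ ℤ, Kw phi E T iT eT nu → nu = 0 := fun nu hk => by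
    by_contra hne
    exact hnu ⟨nu, hne, hk⟩
  have hI : ImS phi T := ((hAdj P L phi E N p g b i e mu H hb hk).2 T hT.ray hmT).2 hadj
  obtain ⟨hf0, c, n, G, hz⟩ := hCnt P L phi E N p f T iT eT hT.po hX hT hI hNT hfull
  by_cases hc : IsUnit c
  · exact hPz P L phi E N p g f b i e T iT eT mu hT.po c n G H hb hT hadj hk hmT hNb hNT hf0 hfull
      hz hc
  · exact cn_of_allB hU hX hb H.g0 (hCtb P L phi E N p f T iT eT hT.po c n G hX hT hf0 hz hc)

end Pool.Agent.B5.BP12
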