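import Pool.Agent.Lib.MP_b5021c_nt.IfaceE5T
import Pool.Agent.Lib.MP_b5021c_nt.IfaceKE
import Pool.Agent.Lib.MP_b5021c_nt.B.H20.E0Cpl
import Pool.Agent.Lib.MP_b5021c_nt.E.H63.E0Fpt

/-!
# Board b5, BpS: reduction to an element with facet ports at the unit rays (helper12)

`Bpd N p E`: `E` of class `V(N)`, rank `2N - 1`, `E_0 ~ p`.  `Gray g E R`: `R` is a ray with
`E_R ~ g`.  Among all pairs with given `(N, p, g)` take one with the minimal number of exponents,
restricted to the lattice generated by the exponents.  Then all facets through all rays `R` with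
`E_R ~ g` are two-level, and with these facets as ports the ports outside `R` are injective
modulo `R`.
-/

namespace Pool.Agent.B5.BP12

open Pool.Agent.B5
open scoped LaurentPolynomial
open Polynomial

set_option linter.unusedSectionVars false

/-- `E` is of class `V(N)` and of rank `2N - 1`, with the constant coefficient `p` up to a unit. -/
structure Bpd {P L : Type} [Fintype P] [DecidableEq P] [AddCommGroup L] [Module.Free ℤ L]
    [Module.Finite ℤ L] (N : ℕ) (p : ℤ[X]) (phi : L →+ (P → ℤ)) (E : AO ℤ L) : Prop where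
  dd : DD phi E
  cv : ClassV N (E.coeff 0)
  rkL : Module.finrank ℤ L + 1 = 2 * N
  e0 : ∃ w : (RO ℤ)ˣ, (w : RO ℤ) * E.coeff 0 = toLaurent p

/-- `R` is a ray with the coefficient `g` up to a unit. -/
def Gray {L : Type} [AddCommGroup L] (g : ℤ[X]) (E : AO ℤ L) (R : L) : Prop :=
  Ray E R ∧ ∃ w : (RO ℤ)ˣ, (w : RO ℤ) * E.coeff R = toLaurent g

section

variable {P : Type} [Fintype P] [DecidableEq P] {L : Type} [AddCommGroup L] [Module.Free ℤ L]
  [Module.Finite ℤ L]

theorem classV_nat {N' : ℝ} {Q : RO ℤ} (h : ClassV N' Q) : ∃ n : ℕ, N' = n := by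
  obtain ⟨-, m, q, -, h2, -⟩ := h
  refine ⟨(q.coeff 0).natAbs, ?_⟩
  rw [← h2]
  change ‖((q.coeff 0 : ℤ) : ℂ)‖ = _
  rw [Complex.norm_intCast, ← Int.cast_abs, Int.abs_eq_natAbs, Int.cast_natCast]

/-- A divisor `c` of `E_0` whose cofactor has the class `V(N)` of `E_0` is a unit. -/
theorem unit_of_cls (hE1 : E1S) (hMV : MVS) (hM1 : M1S) {c b : RO ℤ} {N : ℝ}
    (hN : ClassV N (c * b)) (hb : ClassV N b) (hz : ∀ z : Circle, evR z (c * b) ≠ 0) :
    IsUnit c := by
  obtain ⟨N1, N2, h1, h2, h3⟩ := (hE1 ℤ).1 N c b hN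
  obtain ⟨hc0, hc1⟩ := (hMV ℤ).1 _ _ h1
  obtain ⟨hb0, hb1⟩ := (hMV ℤ).1 _ _ h2
  obtain ⟨-, hb2⟩ := (hMV ℤ).1 _ _ hb
  have e2 : N2 = N := by rw [← hb1, hb2]
  have hpos : (0 : ℝ) < N := lt_of_lt_of_le one_pos hb.1
  have e1 : N1 = 1 := by
    rw [e2] at h3
    have : (N1 - 1) * N = 0 := by linarith
    rcases mul_eq_zero.1 this with h | h
    · linarith
    · exact absurd h hpos.ne'
  refine hM1 ℤ c hc0 (by rw [hc1, e1]) fun z h => hz z ?_
  rw [map_mul, h, zero_mul]

/-- The completion at a facet through a ray `R` with the coefficient `g`. -/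
theorem cplg (h2 : FacetS) (h3 : ComplIrrS) (h4 : ComplS) (h5 : RkS) (hE1 : E1S) (hMV : MVS)
    (hM1 : M1S) (hE2 : E2S) (hb1 : BdV ℤ 1 1) (hEz : EvzS) {N : ℕ} (hN : 2 ≤ N) {p g : ℤ[X]}
    {phi : L →+ (P → ℤ)} {E : AO ℤ L} (H : Bpd N p phi E) {lam : L →+ ℤ}
    (hfac : FacF (supp E) lam) {R : L} (hR : Gray g E R) (hlR : lam R = 0) :
    ∃ (phi' : Ker lam × ℤ →+ (Option P → ℤ)) (E' : AO ℤ (Ker lam × ℤ)) (R' : Ker lam × ℤ),
      Bpd N p phi' E' ∧ Gray g E' R' ∧
        (supp E').ncard = 2 * {a | a ∈ supp E ∧ lam a = 0}.ncard := by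
  classical
  obtain ⟨hl0, hnn, hrk⟩ := hfac
  have hD := H.dd
  have htwo : 2 ≤ Module.finrank ℤ L := by have := H.rkL; omega
  have hWD : WD phi ∅ Finset.univ E := by
    refine ⟨hD.inj, Finset.disjoint_empty_left _, fun a ha => ⟨fun j _ => hD.bin a ha j, ?_, ?_⟩,
      hD.st, hD.un, hD.irr, hD.spn⟩
    · left; intro i hi; exact absurd hi (Finset.notMem_empty i)
    · intro j _ hj; exact absurd (Finset.mem_univ j) hj
  have hNn : Nn lam E := fun a ha => hnn a (Finsupp.mem_support_iff.mp ha)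
  obtain ⟨c, B, hc, hcB, hBp, hBs, hcop, hBw, hBr, hBc⟩ :=
    h2 ℤ P L phi ∅ Finset.univ E lam hWD hNn hl0 hrk htwo (Or.inl ⟨N, H.cv⟩)
  obtain ⟨c1, c2, c3, c4, c5⟩ := h4 ℤ (Ker lam) B hBs
  have hB0 : B ≠ 0 := by
    rintro rfl
    exact hBs.1 rfl
  have hirr := h3 ℤ (Ker lam) B hB0 hcop
  have hk1 : Module.finrank ℤ (Ker lam) + 1 = Module.finrank ℤ L := (h5 L L).1 lam hl0
  have hk2 : Module.finrank ℤ (Ker lam × ℤ) = Module.finrank ℤ (Ker lam) + 1 :=
    (h5 (Ker lam) L).2.2.2.2.2.2.2.2.2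
  -- the coefficients of `B`
  have hcoef : ∀ x : Ker lam, E.coeff (x : L) = c * B.coeff x := by
    intro x
    have h7 := congrArg (fun G : AO ℤ (Ker lam) => G.coeff x) hcB
    simp only [res_coeff] at h7
    rw [h7, cst, AddMonoidAlgebra.coeff_single_zero_mul]
  have hsB : ∀ x : Ker lam, x ∈ supp B ↔ (x : L) ∈ supp E := by
    intro x
    change B.coeff x ≠ 0 ↔ E.coeff (x : L) ≠ 0
    rw [hcoef]
    exact ⟨fun h => mul_ne_zero hc h, fun h => right_ne_zero_of_mul h⟩
  have hDD : DD (H20.phC phi lam) (compl B) := by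
    refine ⟨?_, ?_, c1, c2, hirr, ?_⟩
    · -- injective
      rw [injective_iff_map_eq_zero]
      rintro ⟨a, k⟩ hx
      have hk : k = 0 := congrFun hx none
      subst hk
      have ha : (a : L) = 0 := by
        apply hD.inj
        rw [map_zero]
        funext j
        have h6 : phi (a : L) j + 0 = 0 := congrFun hx (some j)
        rw [add_zero] at h6
        exact h6
      have ha' : a = 0 := Subtype.ext ha
      rw [ha']; rfl
    · -- binary
      intro x hx o
      rcases o with _ | j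
      · change x.2 = 0 ∨ x.2 = 1
        rcases c4 x hx with h | h
        · exact Or.inl h.1
        · exact Or.inr h.1
      · change phi (x.1 : L) j + x.2 = 0 ∨ phi (x.1 : L) j + x.2 = 1
        rcases c4 x hx with h | h
        · rw [h.1, add_zero]
          exact hD.bin _ ((hsB _).mp h.2) j
        · rw [h.1]
          have h6 := hD.bin _ ((hsB _).mp h.2) j
          have e1 : phi ((-x.1 : Ker lam) : L) j = -phi (x.1 : L) j := by
            rw [Submodule.coe_neg, map_neg, Pi.neg_apply]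
          rw [e1] at h6
          omega
    · rw [c5, hBr, hk2, hk1]
  -- the class
  obtain ⟨N', hN'le, hN'⟩ := hBc.1 N H.cv
  obtain ⟨n', rfl⟩ := classV_nat hN'
  have hcV : ClassV n' ((compl B).coeff 0) := by rw [c3]; exact hN'
  have hNn' : n' = N := by
    have hle : n' ≤ N := by exact_mod_cast hN'le
    have h1 : 1 ≤ n' := by exact_mod_cast hN'.1
    have hrL := H.rkL
    rcases Nat.lt_or_ge 1 n' with h | h
    · have h8 := hEz n' h (Option P) (Ker lam × ℤ) (H20.phC phi lam) (compl B) hDD hcV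
      have h9 : Module.finrank ℤ (Ker lam × ℤ) ≤ 2 * n' := by exact_mod_cast h8
      omega
    · have h10 : n' = 1 := le_antisymm h h1
      subst h10
      have h8 := hb1 (Option P) (Ker lam × ℤ) (H20.phC phi lam) (compl B) hDD
        (by simpa using hcV)
      have h9 : Module.finrank ℤ (Ker lam × ℤ) ≤ 1 := by exact_mod_cast h8
      omega
  rw [hNn'] at hN' hcV
  have hE0 : E.coeff 0 = c * B.coeff 0 := hcoef 0
  have hcu : IsUnit c := by
    refine unit_of_cls hE1 hMV hM1 (b := B.coeff 0) (N := N) ?_ hN' ?_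
    · rw [← hE0]; exact H.cv
    · rw [← hE0]; exact (hE2 ℤ P L phi E hD htwo).1
  obtain ⟨cu, hcu'⟩ := hcu
  refine ⟨H20.phC phi lam, compl B, (⟨R, hlR⟩, 0), ⟨hDD, hcV, by rw [hk2, hk1]; exact H.rkL, ?_⟩,
    ⟨?_, ?_⟩, ?_⟩
  · obtain ⟨w, hw⟩ := H.e0
    refine ⟨w * cu, ?_⟩
    rw [c3, Units.val_mul, hcu', mul_assoc, ← hE0, hw]
  · obtain ⟨hR1, hR2, mu, hmR, hmp⟩ := hR.1
    set M0 : ℤ := 1 + ∑ a ∈ E.coeff.support, |mu a| with hM0
    have hMle : ∀ a ∈ supp E, |mu a| < M0 := by
      intro a ha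
      have : |mu a| ≤ ∑ a ∈ E.coeff.support, |mu a| :=
        Finset.single_le_sum (f := fun a => |mu a|) (fun _ _ => abs_nonneg _)
          (Finsupp.mem_support_iff.mpr ha)
      rw [hM0]
      linarith
    refine ⟨?_, ?_, ?_⟩
    · rw [H59.supp_compl]
      exact Or.inl ⟨rfl, (hsB _).mpr hR1⟩
    · intro h0
      apply hR2
      have := congrArg (fun x : Ker lam × ℤ => (x.1 : L)) h0
      exact this
    · refine ⟨{ toFun := fun x => mu (x.1 : L) + x.2 * M0
                map_zero' := by simp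
                map_add' := fun x y => by
                  simp only [Prod.fst_add, Prod.snd_add, Submodule.coe_add, map_add]
                  ring }, ?_, ?_⟩
      · change mu R + 0 * M0 = 0
        rw [hmR, zero_mul, add_zero]
      · rintro ⟨x, k⟩ hx hx0 hxR
        change 0 < mu (x : L) + k * M0
        rcases c4 _ hx with ⟨hk, hxB⟩ | ⟨hk, hxB⟩
        · change k = 0 at hk
          subst hk
          rw [zero_mul, add_zero]
          refine hmp _ ((hsB _).mp hxB) (fun h => hx0 ?_) (fun h => hxR ?_)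
          · exact Prod.ext (Subtype.ext h) rfl
          · exact Prod.ext (Subtype.ext h) rfl
        · change k = 1 at hk
          subst hk
          have h11 := hMle _ ((hsB _).mp hxB)
          have e1 : mu ((-x : Ker lam) : L) = -mu (x : L) := by
            rw [Submodule.coe_neg, map_neg]
          change |mu ((-x : Ker lam) : L)| < M0 at h11
          rw [e1, abs_neg] at h11
          have := (abs_lt.1 h11).1
          linarith
  · obtain ⟨w, hw⟩ := hR.2
    refine ⟨w * cu, ?_⟩
    have h12 : (compl B).coeff ((⟨R, hlR⟩ : Ker lam), (0 : ℤ)) = B.coeff ⟨R, hlR⟩ := by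
      rw [H59.compl_coeff]
      simp
    rw [h12, Units.val_mul, hcu', mul_assoc, ← hcoef ⟨R, hlR⟩]
    exact hw
  · -- the number of exponents
    have hfin : (supp B).Finite := by
      refine (B.coeff.support.finite_toSet).subset fun x hx => ?_
      exact Finsupp.mem_support_iff.mpr hx
    have hE : supp (compl B) = (fun x : Ker lam => (x, (0 : ℤ))) '' supp B ∪
        (fun x : Ker lam => (-x, (1 : ℤ))) '' supp B := by
      ext x
      rw [H59.supp_compl]
      constructor
      · rintro (h | h)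
        · left
          exact ⟨x.1, h.2, Prod.ext rfl h.1.symm⟩
        · right
          exact ⟨-x.1, h.2, Prod.ext (neg_neg x.1) h.1.symm⟩
      · rintro (⟨y, hy, rfl⟩ | ⟨y, hy, rfl⟩)
        · exact Or.inl ⟨rfl, hy⟩
        · refine Or.inr ⟨rfl, ?_⟩
          change - -y ∈ supp B
          rw [neg_neg]; exact hy
    have hF : {a | a ∈ supp E ∧ lam a = 0} = (fun x : Ker lam => (x : L)) '' supp B := by
      ext a
      constructor
      · rintro ⟨h, h'⟩
        exact ⟨⟨a, h'⟩, (hsB ⟨a, h'⟩).mpr h, rfl⟩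
      · rintro ⟨x, hx, rfl⟩
        exact ⟨(hsB x).mp hx, x.2⟩
    rw [hE, hF, Set.ncard_union_eq ?_ (hfin.image _) (hfin.image _),
      Set.ncard_image_of_injective _ ?_, Set.ncard_image_of_injective _ ?_,
      Set.ncard_image_of_injective _ Subtype.coe_injective]
    · ring
    · intro x y h
      exact neg_injective (congrArg Prod.fst h)
    · intro x y h
      exact congrArg Prod.fst h
    · rw [Set.disjoint_left]
      rintro _ ⟨x, -, rfl⟩ ⟨y, -, h⟩
      exact absurd (congrArg Prod.snd h) one_ne_zero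

/-- Restriction to the lattice generated by the exponents. -/
theorem bpd_res (hL : LatResS) {N : ℕ} {p : ℤ[X]} {phi : L →+ (P → ℤ)} {E : AO ℤ L}
    (H : Bpd N p phi E) (K : Submodule ℤ L) (hK : K = Submodule.span ℤ (supp E)) :
    Bpd N p (phi.comp (incl K)) (res K E) ∧ Submodule.span ℤ (supp (res K E)) = ⊤ := by
  obtain ⟨h1, h2, h3, h4, h5, h6⟩ := hL ℤ L E K hK H.dd.st.1
  have hfr : Module.finrank ℤ K = Module.finrank ℤ L := by rw [h6]; exact H.dd.spn
  refine ⟨⟨⟨?_, fun a ha => H.dd.bin (a : L) ha, h3 H.dd.st, h2 H.dd.un, h1 H.dd.irr, ?_⟩,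
    H.cv, by rw [hfr]; exact H.rkL, H.e0⟩, h4⟩
  · intro x y hxy
    exact Subtype.ext (H.dd.inj hxy)
  · rw [h5, h6]

theorem gray_res {g : ℤ[X]} {E : AO ℤ L} {R : L} (hR : Gray g E R) (K : Submodule ℤ L)
    (hK : K = Submodule.span ℤ (supp E)) : ∃ R' : K, (R' : L) = R ∧ Gray g (res K E) R' := by
  have hRK : R ∈ K := by rw [hK]; exact Submodule.subset_span hR.1.1
  refine ⟨⟨R, hRK⟩, rfl, ⟨hR.1.1, ?_, ?_⟩, hR.2⟩
  · intro h0
    exact hR.1.2.1 (congrArg (fun x : K => (x : L)) h0)
  · obtain ⟨mu, h1, h2⟩ := hR.1.2.2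
    refine ⟨mu.comp (incl K), h1, fun a ha a0 aR => h2 (a : L) ha ?_ ?_⟩
    · intro h; exact a0 (Subtype.ext h)
    · intro h; exact aR (Subtype.ext h)

/-- Every vector which is not a multiple of the ray `R` is seen by a facet through `R`. -/
theorem facet_thr (h3 : D3S) (hR : RkS) {D : AO ℤ L} (hspn : rk (supp D) = Module.finrank ℤ L)
    {R : L} (hray : Ray D R) {k : L →+ ℤ} (hk : k R = 1) {x : L} (hx : x ≠ k x • R) :
    ∃ lam : L →+ ℤ, FacF (supp D) lam ∧ lam R = 0 ∧ lam x ≠ 0 := by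
  classical
  obtain ⟨hRs, hR0, mu, hmR, hmp⟩ := hray
  have hk0 : k ≠ 0 := by
    rintro rfl
    simp at hk
  set S : Finset (Ker k) :=
    ((D.coeff.support.erase 0).erase R).image (prj k R hk) with hS
  -- positivity
  have hpos : ∃ lam : Ker k →+ ℤ, ∀ a ∈ S, 0 < lam a := by
    refine ⟨mu.comp (incl (Ker k)), fun a ha => ?_⟩
    rw [hS, Finset.mem_image] at ha
    obtain ⟨b, hb, rfl⟩ := ha
    rw [Finset.mem_erase, Finset.mem_erase] at hb
    change 0 < mu ((prj k R hk b : Ker k) : L)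
    rw [prj_coe, map_sub, map_zsmul, hmR, smul_zero, sub_zero]
    exact hmp b (Finsupp.mem_support_iff.mp hb.2.2) hb.2.1 hb.1
  -- rank of `insert R (image)`
  have hdim : Module.finrank ℤ (Ker k) + 1 = Module.finrank ℤ L := (hR L L).1 k hk0
  have hup : ∀ T : Set (Ker k), rk (insert R ((fun a : Ker k => (a : L)) '' T)) ≤ rk T + 1 := by
    intro T
    have e1 : insert R ((fun a : Ker k => (a : L)) '' T) =
        {R} ∪ ((fun a : Ker k => (a : L)) '' T) := rfl
    rw [e1]
    refine ((hR L L).2.2.2.2.2.1 _ _).trans ?_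
    have h1 : rk ({R} : Set L) = 1 := (hR L L).2.2.2.2.2.2.1 R hR0
    have h2 : rk ((fun a : Ker k => (a : L)) '' T) = rk T :=
      (hR (Ker k) L).2.2.2.1 (incl (Ker k)) T Subtype.val_injective
    rw [h1, h2]
    omega
  have hrkS : rk (S : Set (Ker k)) = Module.finrank ℤ (Ker k) := by
    refine le_antisymm ((hR (Ker k) L).2.2.1 _) ?_
    have h1 : rk (supp D) ≤ rk (insert R ((fun a : Ker k => (a : L)) '' (S : Set (Ker k)))) := by
      refine (hR L L).2.2.2.2.2.2.2.2.1 _ _ fun a ha => ⟨1, one_ne_zero, ?_⟩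
      rw [one_smul]
      by_cases ha0 : a = 0
      · rw [ha0]; exact Submodule.zero_mem _
      by_cases haR : a = R
      · rw [haR]; exact Submodule.subset_span (Or.inl rfl)
      · have hmem : prj k R hk a ∈ S := by
          rw [hS, Finset.mem_image]
          refine ⟨a, ?_, rfl⟩
          rw [Finset.mem_erase, Finset.mem_erase]
          exact ⟨haR, ha0, Finsupp.mem_support_iff.mpr ha⟩
        have e2 : a = ((prj k R hk a : Ker k) : L) + k a • R := by rw [prj_coe]; abel
        rw [e2]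
        refine Submodule.add_mem _ (Submodule.subset_span (Or.inr ⟨_, hmem, rfl⟩)) ?_
        exact Submodule.smul_mem _ _ (Submodule.subset_span (Or.inl rfl))
    have h2 := hup (S : Set (Ker k))
    rw [hspn] at h1
    omega
  have hne : prj k R hk x ≠ 0 := by
    intro h0
    apply hx
    have h1 : ((prj k R hk x : Ker k) : L) = 0 := by rw [h0]; rfl
    rw [prj_coe] at h1
    exact sub_eq_zero.mp h1
  obtain ⟨lam, hl0, hlx, hlr⟩ := h3 (Ker k) S (prj k R hk x) hpos hrkS hne
  have hlR : (lam.comp (prj k R hk)) R = 0 := by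
    change lam (prj k R hk R) = 0
    have : prj k R hk R = 0 := by
      apply Subtype.ext
      rw [prj_coe, hk, one_smul, sub_self]
      rfl
    rw [this, map_zero]
  have hln : ∀ a ∈ supp D, 0 ≤ (lam.comp (prj k R hk)) a := by
    intro a ha
    by_cases ha0 : a = 0
    · rw [ha0, map_zero]
    by_cases haR : a = R
    · rw [haR, hlR]
    refine hl0 _ ?_
    rw [hS, Finset.mem_image]
    refine ⟨a, ?_, rfl⟩
    rw [Finset.mem_erase, Finset.mem_erase]
    exact ⟨haR, ha0, Finsupp.mem_support_iff.mpr ha⟩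
  have hl1 : lam.comp (prj k R hk) ≠ 0 := fun h0 => hlx (by
    have := DFunLike.congr_fun h0 x
    exact this)
  refine ⟨lam.comp (prj k R hk), ⟨hl1, hln, ?_⟩, hlR, hlx⟩
  refine le_antisymm ?_ ?_
  · -- contained in the kernel
    have h1 : rk {a | a ∈ supp D ∧ (lam.comp (prj k R hk)) a = 0} ≤
        Module.finrank ℤ (Ker (lam.comp (prj k R hk))) := by
      have e1 : {a | a ∈ supp D ∧ (lam.comp (prj k R hk)) a = 0} ⊆
          (incl (Ker (lam.comp (prj k R hk)))) '' Set.univ := by
        rintro a ⟨-, ha⟩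
        exact ⟨⟨a, ha⟩, trivial, rfl⟩
      refine ((hR L L).2.1 _ _ e1).trans ?_
      rw [(hR (Ker (lam.comp (prj k R hk))) L).2.2.2.1 (incl (Ker (lam.comp (prj k R hk)))) _
        Subtype.val_injective]
      exact (hR (Ker (lam.comp (prj k R hk))) L).2.2.1 _
    have h2 := (hR L L).1 _ hl1
    omega
  · -- the facet of the quotient and `R`
    have h1 : rk {a | a ∈ S ∧ lam a = 0} + 1 ≤
        rk {a | a ∈ supp D ∧ (lam.comp (prj k R hk)) a = 0} := by
      -- the image of the right set under `prj` contains the left set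
      set W : Set L := {a | a ∈ supp D ∧ (lam.comp (prj k R hk)) a = 0} with hW
      set T : Set (Ker k) := {a | a ∈ S ∧ lam a = 0} with hT
      have hRW : R ∈ Submodule.span ℤ W := Submodule.subset_span ⟨hRs, hlR⟩
      have hTW : ∀ a ∈ T, (a : L) ∈ Submodule.span ℤ W := by
        rintro a ⟨ha, hla⟩
        rw [hS, Finset.mem_image] at ha
        obtain ⟨b, hb, rfl⟩ := ha
        rw [Finset.mem_erase, Finset.mem_erase] at hb
        rw [prj_coe]
        refine Submodule.sub_mem _ (Submodule.subset_span ⟨Finsupp.mem_support_iff.mp hb.2.2, hla⟩)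
          (Submodule.smul_mem _ _ hRW)
      -- `span T × ℤ → span W`
      let f : (Submodule.span ℤ T) × ℤ →ₗ[ℤ] L :=
        LinearMap.coprod ((Ker k).subtype.comp (Submodule.span ℤ T).subtype)
          (LinearMap.toSpanSingleton ℤ L R)
      have hf : ∀ y, f y = ((y.1 : Ker k) : L) + y.2 • R := fun y => rfl
      have hfi : Function.Injective f := by
        rw [injective_iff_map_eq_zero]
        rintro ⟨a, n⟩ h0
        rw [hf] at h0
        have h4 := congrArg k h0
        rw [map_add, map_zsmul, hk, map_zero] at h4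
        have h5 : k ((a : Ker k) : L) = 0 := (a : Ker k).2
        rw [h5, zero_add, smul_eq_mul, mul_one] at h4
        subst h4
        rw [zero_smul, add_zero] at h0
        exact Prod.ext (Subtype.ext (Subtype.ext h0)) rfl
      have hrange : LinearMap.range f ≤ Submodule.span ℤ W := by
        rintro _ ⟨⟨a, n⟩, rfl⟩
        rw [hf]
        refine Submodule.add_mem _ ?_ (Submodule.smul_mem _ _ hRW)
        have h5 : (Submodule.span ℤ T).map (Ker k).subtype ≤ Submodule.span ℤ W := by
          rw [Submodule.map_span, Submodule.span_le]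
          rintro _ ⟨b, hb, rfl⟩
          exact hTW b hb
        exact h5 ⟨(a : Ker k), a.2, rfl⟩
      have h6 : Module.finrank ℤ (LinearMap.range f) =
          Module.finrank ℤ ((Submodule.span ℤ T) × ℤ) := LinearMap.finrank_range_of_inj hfi
      rw [Module.finrank_prod, Module.finrank_self] at h6
      have h7 : Module.finrank ℤ (LinearMap.range f) ≤ Module.finrank ℤ (Submodule.span ℤ W) :=
        Submodule.finrank_mono hrange
      change Module.finrank ℤ (Submodule.span ℤ T) + 1 ≤ Module.finrank ℤ (Submodule.span ℤ W)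
      rw [← h6]
      exact h7
    omega

end

/-- REDUCTION: facet ports at all rays `R` with `E_R ~ g`. -/
theorem red (h2 : FacetS) (h3 : ComplIrrS) (h4 : ComplS) (h5 : RkS) (hE1 : E1S) (hMV : MVS)
    (hM1 : M1S) (hE2 : E2S) (hb1 : BdV ℤ 1 1) (hEz : EvzS) (hD3 : D3S) (hSy : SymLS)
    (hL : LatResS) {N : ℕ} (hN : 2 ≤ N) {p g : ℤ[X]} {P L : Type} [Fintype P] [DecidableEq P]
    [AddCommGroup L] [Module.Free ℤ L] [Module.Finite ℤ L] {phi : L →+ (P → ℤ)} {E : AO ℤ L}
    (H : Bpd N p phi E) {S : L} (hS : Gray g E S) :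
    ∃ (P' L' : Type) (_ : Fintype P') (_ : DecidableEq P') (_ : AddCommGroup L')
      (_ : Module.Free ℤ L') (_ : Module.Finite ℤ L') (phi' : L' →+ (P' → ℤ)) (E' : AO ℤ L')
      (S' : L'), Bpd N p phi' E' ∧ Gray g E' S' ∧ Submodule.span ℤ (supp E') = ⊤ ∧
        (∀ R, Gray g E' R → ImS phi' R) ∧
        ∀ (lam : L' →+ ℤ) (R : L'), FacF (supp E') lam → Gray g E' R → lam R = 0 →
          ∃ (i : P') (m : ℤ), 0 < m ∧ ∀ a, lam a = m * phi' a i := by
  classical
  set Q : ℕ → Prop := fun n => ∃ (P' L' : Type) (_ : Fintype P') (_ : DecidableEq P')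
    (_ : AddCommGroup L') (_ : Module.Free ℤ L') (_ : Module.Finite ℤ L')
    (phi' : L' →+ (P' → ℤ)) (E' : AO ℤ L') (S' : L'), Bpd N p phi' E' ∧ Gray g E' S' ∧
      (supp E').ncard = n with hQ
  have hex : ∃ n, Q n := ⟨_, P, L, inferInstance, inferInstance, inferInstance, inferInstance,
    inferInstance, phi, E, S, H, hS, rfl⟩
  obtain ⟨P1, L1, i1, i2, i3, i4, i5, phi1, E1, S1, hE1', hS1, hn1⟩ := Nat.find_spec hex
  obtain ⟨K, hK⟩ : ∃ K : Submodule ℤ L1, K = Submodule.span ℤ (supp E1) := ⟨_, rfl⟩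
  obtain ⟨H2, htop⟩ := bpd_res hL hE1' K hK
  obtain ⟨S2, -, hS2⟩ := gray_res hS1 K hK
  set D : AO ℤ K := res K E1 with hD
  have hnD : (supp D).ncard ≤ Nat.find hex := by
    rw [← hn1]
    have hfin : (supp E1).Finite := by
      refine E1.coeff.support.finite_toSet.subset fun a ha => ?_
      exact Finsupp.mem_support_iff.mpr ha
    refine Set.ncard_le_ncard_of_injOn (fun a : K => (a : L1)) ?_ ?_ hfin
    · intro a ha
      exact ha
    · intro a _ b _ h
      exact Subtype.ext h
  -- facets through the rays `R`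
  have htwo : ∀ (lam : K →+ ℤ) (R : K), FacF (supp D) lam → Gray g D R → lam R = 0 →
      ∃ m : ℤ, TwoL (supp D) lam m := by
    intro lam R hlam hR hlR
    obtain ⟨phi', E', R', hB', hR', hn'⟩ :=
      cplg h2 h3 h4 h5 hE1 hMV hM1 hE2 hb1 hEz hN H2 hlam hR hlR
    have hmin : Nat.find hex ≤ (supp E').ncard :=
      Nat.find_min' hex ⟨Option P1, Ker lam × ℤ, inferInstance, inferInstance, inferInstance,
        inferInstance, inferInstance, phi', E', R', hB', hR', rfl⟩
    refine hSy ℤ P1 K (phi1.comp (incl K)) D lam H2.dd hlam.1 hlam.2.1 ?_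
    rw [← hn']
    exact hnD.trans hmin
  set Zs : (K →+ ℤ) → Finset K := fun lam => D.coeff.support.filter (fun a => lam a = 0) with hZs
  have hZmem : ∀ (lam : K →+ ℤ) (a : K), a ∈ Zs lam ↔ a ∈ supp D ∧ lam a = 0 := by
    intro lam a
    rw [hZs]
    simp only [Finset.mem_filter, Finsupp.mem_support_iff]
    rfl
  set Qf : Finset K → Prop := fun F => ∃ lam : K →+ ℤ,
    (∀ a ∈ supp D, lam a = 0 ∨ lam a = 1) ∧ Zs lam = F with hQf
  set FF : Finset (Finset K) := (D.coeff.support.powerset).filter Qf with hFF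
  have hFQ : ∀ F : {F // F ∈ FF}, Qf F.1 := fun F => (Finset.mem_filter.mp F.2).2
  choose lf hlf using hFQ
  have key : ∀ (lam : K →+ ℤ) (R : K), FacF (supp D) lam → Gray g D R → lam R = 0 →
      ∃ (F : {F // F ∈ FF}) (m : ℤ), 0 < m ∧ ∀ x, lam x = m * lf F x := by
    intro lam R hlam hR hlR
    obtain ⟨m, hm⟩ := htwo lam R hlam hR hlR
    obtain ⟨l0, hl0, hl1⟩ := H63.E0.two_norm htop hm
    have hmemF : Zs l0 ∈ FF := by
      rw [hFF, Finset.mem_filter]
      refine ⟨Finset.mem_powerset.mpr (Finset.filter_subset _ _), l0, hl0, rfl⟩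
    refine ⟨⟨Zs l0, hmemF⟩, m, hm.1, fun x => ?_⟩
    obtain ⟨hf2, hf3⟩ := hlf ⟨Zs l0, hmemF⟩
    have : l0 = lf ⟨Zs l0, hmemF⟩ := by
      refine H63.E0.fun_ext_span htop fun a ha => ?_
      have h1 : l0 a = 0 ↔ lf ⟨Zs l0, hmemF⟩ a = 0 := by
        have e1 := hZmem l0 a
        have e2 := hZmem (lf ⟨Zs l0, hmemF⟩) a
        rw [hf3] at e2
        change a ∈ Zs l0 ↔ _ at e2
        constructor
        · intro h
          exact (e2.mp (e1.mpr ⟨ha, h⟩)).2
        · intro h
          exact (e1.mp (e2.mpr ⟨ha, h⟩)).2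
      rcases hl0 a ha with h | h
      · rw [h, (h1.mp h)]
      · rcases hf2 a ha with h' | h'
        · rw [h1.mpr h', h']
        · rw [h, h']
    rw [← this]
    exact hl1 x
  set phi' : K →+ (P1 ⊕ {F // F ∈ FF} → ℤ) :=
    { toFun := fun a => Sum.elim (fun j => phi1 (a : L1) j) (fun F => lf F a)
      map_zero' := by
        funext o
        rcases o with o | o <;> simp
      map_add' := fun a b => by
        funext o
        rcases o with o | o <;> simp } with hphi
  have hB : Bpd N p phi' D := by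
    refine ⟨⟨?_, ?_, H2.dd.st, H2.dd.un, H2.dd.irr, H2.dd.spn⟩, H2.cv, H2.rkL, H2.e0⟩
    · intro x y hxy
      apply H2.dd.inj
      funext j
      exact congrFun hxy (Sum.inl j)
    · intro a ha o
      rcases o with j | F
      · exact H2.dd.bin a ha j
      · exact (hlf F).1 a ha
  refine ⟨P1 ⊕ {F // F ∈ FF}, K, inferInstance, inferInstance, inferInstance, inferInstance,
    inferInstance, phi', D, S2, hB, hS2, htop, ?_, ?_⟩
  · intro R hR x hx
    -- a port of `R`
    have hbR : Bin (phi1.comp (incl K)) R := H2.dd.bin R hR.1.1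
    obtain ⟨i0, hi0⟩ : ∃ i0 : P1, (phi1.comp (incl K)) R i0 = 1 := by
      by_contra hcon
      push Not at hcon
      apply hR.1.2.1
      apply H2.dd.inj
      rw [map_zero]
      funext j
      rcases hbR j with h | h
      · exact h
      · exact absurd h (hcon j)
    set k : K →+ ℤ := co (phi1.comp (incl K)) i0 with hk
    have hkR : k R = 1 := hi0
    refine ⟨k x, ?_⟩
    by_contra hne
    obtain ⟨lam, hfac, hlR, hlx⟩ := facet_thr hD3 h5 H2.dd.spn hR.1 hkR hne
    obtain ⟨F, m, hm, hF⟩ := key lam R hfac hR hlR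
    have h6 : lf F R = 0 := by
      have := hF R
      rw [hlR] at this
      rcases mul_eq_zero.mp this.symm with h | h
      · exact absurd h hm.ne'
      · exact h
    have h7 : lf F x = 0 := hx (Sum.inr F) h6
    apply hlx
    rw [hF x, h7, mul_zero]
  · intro lam R hfac hR hlR
    obtain ⟨F, m, hm, hF⟩ := key lam R hfac hR hlR
    exact ⟨Sum.inr F, m, hm, hF⟩

end Pool.Agent.B5.BP12
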