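import Pool.Agent.Lib.MP_b5021c_nt.BP.H12.Kp
import Pool.Agent.Lib.MP_b5021c_nt.BP.H57.Eta
import Pool.Agent.Lib.MP_b5021c_nt.BP.H57.Gw

/-!
# Board b5, BpS: the double closing at `e^(i pi/3)` is full (helper12)

From `T2f` (no functional `KRw`) to the rank of the double closing over `Eis`.
-/

namespace Pool.Agent.B5.BP12

open scoped LaurentPolynomial
open Polynomial
open Pool.Agent.B5
open Pool.Agent.B5.BPR
open Pool.Agent.MP_b5021c_nt (Eis)
open Pool.Agent.MP_b5021c_nt.Ire (bc)
open Pool.Agent.B5.H25.Bch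
open Pool.Agent.B5.BP90 (Et pE)

set_option linter.unusedSectionVars false

/-- `x + et y = 0` with integral `x`, `y`. -/
theorem et_lin {et : Eis} (he : Et et) {x y : RO ℤ}
    (h : bcR x + LaurentPolynomial.C et * bcR y = 0) : x = 0 ∧ y = 0 := by
  have hco : ∀ (q : RO ℤ) (k : ℤ), (bcR q).coeff k = ((q.coeff k : ℤ) : Eis) := by
    intro q k
    rw [H09.bcR_coeff_eq, Finsupp.mapRange_apply]
    rfl
  have key : ∀ k : ℤ, x.coeff k = 0 ∧ y.coeff k = 0 := by
    intro k
    have h1 := congrArg (fun q : RO Eis => q.coeff k) h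
    have h2 : (LaurentPolynomial.C et * bcR y).coeff k = et * (bcR y).coeff k := by
      rw [← LaurentPolynomial.smul_eq_C_mul]
      rfl
    have h3 : (bcR x).coeff k + (LaurentPolynomial.C et * bcR y).coeff k = 0 := h1
    rw [h2, hco, hco] at h3
    have h4 := BP90.et_zero he (a := x.coeff k) (b := -(y.coeff k)) (by push_cast; linear_combination h3)
    have h5 : y.coeff k = 0 := by omega
    refine ⟨?_, h5⟩
    rw [h5, Int.cast_zero, mul_zero, add_zero] at h3
    have h6 := congrArg (Coef.emb : Eis →+* ℂ) h3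
    rw [BP90.embN, map_zero] at h6
    exact_mod_cast h6
  constructor
  · ext k; rw [(key k).1]; rfl
  · ext k; rw [(key k).2]; rfl

section

variable {P : Type} [Fintype P] [DecidableEq P] {L : Type} [AddCommGroup L] [Module.Free ℤ L]
  [Module.Finite ℤ L]

/-- The coefficients of the double closing. -/
theorem dco {phi : L →+ (P → ℤ)} {E : AO ℤ L} (hbin : ∀ a ∈ supp E, Bin phi a) {T b : L}
    {iT ib : P} {hT : co phi iT T = 1} {k0 k1 : (RO Eis)ˣ} {b' : Ker (co phi iT)}
    (hb' : (b' : L) = b) {hj : co (phO phi T iT) ib b' = 1}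
    (hbinH : ∀ a ∈ supp (cl (co phi iT) T hT k0 (bc E)), Bin (phO phi T iT) a)
    (a : Ker (co (phO phi T iT) ib)) :
    (cl (co (phO phi T iT) ib) b' hj k1 (cl (co phi iT) T hT k0 (bc E))).coeff a =
      bcR (E.coeff ((a : Ker (co phi iT)) : L)) +
        (k0 : RO Eis) * bcR (E.coeff (((a : Ker (co phi iT)) : L) + T)) +
        (k1 : RO Eis) * bcR (E.coeff (((a : Ker (co phi iT)) : L) + b)) +
        (k1 : RO Eis) * (k0 : RO Eis) * bcR (E.coeff (((a : Ker (co phi iT)) : L) + b + T)) := by
  have hbb : ∀ x ∈ supp (bc E), co phi iT x = 0 ∨ co phi iT x = 1 := fun x hx => by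
    rw [supp_bc] at hx
    exact hbin x hx iT
  have h1 := H47.cl_coeff_bin (co (phO phi T iT) ib) b' hj k1 (cl (co phi iT) T hT k0 (bc E))
    (fun x hx => hbinH x hx ib) a
  have h2 := H47.cl_coeff_bin (co phi iT) T hT k0 (bc E) hbb (a : Ker (co phi iT))
  have h3 := H47.cl_coeff_bin (co phi iT) T hT k0 (bc E) hbb ((a : Ker (co phi iT)) + b')
  rw [h1, h2, h3, bc_co, bc_co, bc_co, bc_co]
  have h4 : (((a : Ker (co phi iT)) + b' : Ker (co phi iT)) : L) =
      ((a : Ker (co phi iT)) : L) + b := by rw [← hb']; rfl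
  rw [h4]
  ring

/-- `T2f`: the double closing has full rank. -/
theorem t2_full (hMp : MpaS) (hK : KmuS) (hRk : RkS) {phi : L →+ (P → ℤ)} {E : AO ℤ L}
    (hD : DD phi E) {T b : L}
    {iT ib : P} {hT : co phi iT T = 1} (hib : co phi ib b = 1) {eb eT : (RO ℤ)ˣ}
    (m : Mut E b T eb eT) (hdis : ∀ q, phi T q = 0 ∨ phi b q = 0)
    (ht : T2f phi E b T eb eT) {et : Eis} (he : Et et) {k0 k1 : (RO Eis)ˣ}
    (hk0 : (k0 : RO Eis) = LaurentPolynomial.C et * bcR (eT : RO ℤ))
    (hk1 : (k1 : RO Eis) = LaurentPolynomial.C et * bcR (eb : RO ℤ))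
    {b' : Ker (co phi iT)}
    (hb' : (b' : L) = b) {hj : co (phO phi T iT) ib b' = 1}
    (hbinH : ∀ a ∈ supp (cl (co phi iT) T hT k0 (bc E)), Bin (phO phi T iT) a) :
    rk (supp (cl (co (phO phi T iT) ib) b' hj k1 (cl (co phi iT) T hT k0 (bc E)))) =
      Module.finrank ℤ (Ker (co (phO phi T iT) ib)) := by
  have h1 := (hRk (Ker (co (phO phi T iT) ib)) (Ker (co (phO phi T iT) ib))).2.2.1
    (supp (cl (co (phO phi T iT) ib) b' hj k1 (cl (co phi iT) T hT k0 (bc E))))
  by_contra hne
  obtain ⟨nu, hnu, hk⟩ := hK _ _ (lt_of_le_of_ne h1 hne)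
  obtain ⟨mu1, m1, m2, m3, -⟩ := BP57.ext_ker hj nu
  obtain ⟨mu, n1, n2, n3, -⟩ := BP57.ext_ker hT mu1
  have hTib : phi T ib = 0 := by
    rcases hdis ib with h | h
    · exact h
    · have h2 : phi b ib = 1 := hib
      rw [h2] at h; exact absurd h one_ne_zero
  have hbiT : phi b iT = 0 := by
    rcases hdis iT with h | h
    · have h2 : phi T iT = 1 := hT
      rw [h2] at h; exact absurd h one_ne_zero
    · exact h
  have hmub : mu b = 0 := by rw [← hb', n2, m1]
  have hcoef := fun a => dco (k1 := k1) hD.bin hb' (hj := hj) hbinH a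
  have hpo : ∀ x : Ker (co phi iT), co (phO phi T iT) ib x = phi (x : L) ib := by
    intro x
    change (if phi T ib = 0 then phi (x : L) ib else 0) = _
    rw [if_pos hTib]
  -- the double kernel
  have hker : ∀ x : L, phi x iT = 0 → phi x ib = 0 → mu x ≠ 0 →
      bcR (E.coeff x) + (k0 : RO Eis) * bcR (E.coeff (x + T)) +
        (k1 : RO Eis) * bcR (E.coeff (x + b)) +
        (k1 : RO Eis) * (k0 : RO Eis) * bcR (E.coeff (x + b + T)) = 0 := by
    intro x hx1 hx2 hx3
    have hx4 : co (phO phi T iT) ib (⟨x, hx1⟩ : Ker (co phi iT)) = 0 := by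
      rw [hpo]; exact hx2
    have h2 := hcoef ⟨⟨x, hx1⟩, hx4⟩
    rw [← h2]
    by_contra h3
    have h4 := hk ⟨⟨x, hx1⟩, hx4⟩ h3
    rw [← m2, ← n2] at h4
    exact hx3 h4
  have hu : IsUnit (LaurentPolynomial.C et : RO Eis) :=
    (IsUnit.of_mul_eq_one _ (BP57.et_mul he)).map LaurentPolynomial.C
  refine n3 (m3 hnu) (ht mu ⟨hmub, n1, ?_, ?_⟩)
  · intro a ha hna
    have ha1 : phi a iT = 0 := by
      rcases ha iT with h | h
      · exact h
      · have h2 : phi T iT = 1 := hT
        rw [h2] at h; exact absurd h.2 one_ne_zero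
    have ha2 : phi a ib = 0 := by
      rcases ha ib with h | h
      · exact h
      · have h2 : phi b ib = 1 := hib
        rw [h2] at h; exact absurd h.1 one_ne_zero
    have h2 := hker a ha1 ha2 hna
    have hetc : (LaurentPolynomial.C et : RO Eis) * (1 - LaurentPolynomial.C et) = 1 := by
      rw [← map_one LaurentPolynomial.C, ← map_sub, ← map_mul, BP57.et_mul he]
    rw [hk0, hk1] at h2
    have h3 := et_lin he
      (x := E.coeff a - (eb : RO ℤ) * (eT : RO ℤ) * E.coeff (a + b + T))
      (y := (eb : RO ℤ) * E.coeff (a + b) + (eT : RO ℤ) * E.coeff (a + T) +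
        (eb : RO ℤ) * (eT : RO ℤ) * E.coeff (a + b + T)) (by
        simp only [map_sub, map_add, map_mul]
        linear_combination h2 +
          (bcR (eb : RO ℤ) * bcR (eT : RO ℤ) * bcR (E.coeff (a + b + T))) * hetc)
    exact ⟨(sub_eq_zero.mp h3.1).symm, h3.2⟩
  · intro a ha hpa
    by_contra hna
    rcases hMp ℤ P L phi E b T eb eT hD.inj hD.bin m a ha with ⟨-, h2⟩ | ⟨h2, -⟩
    · have hTT : phi T iT = 1 := hT
      have hbb : phi b ib = 1 := hib
      obtain ⟨x, hx⟩ : ∃ x : L, x = a - phi a iT • T - phi a ib • b := ⟨_, rfl⟩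
      have hx1 : phi x iT = 0 := by
        rw [hx]
        simp only [map_sub, map_zsmul, Pi.sub_apply, Pi.smul_apply, hTT, hbiT, smul_eq_mul]
        ring
      have hx2 : phi x ib = 0 := by
        rw [hx]
        simp only [map_sub, map_zsmul, Pi.sub_apply, Pi.smul_apply, hTib, hbb, smul_eq_mul]
        ring
      have hx3 : mu x ≠ 0 := by
        rw [hx, map_sub, map_sub, map_zsmul, map_zsmul, n1, hmub, smul_zero, smul_zero, sub_zero,
          sub_zero]
        exact hna
      have h3 := hker x hx1 hx2 hx3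
      have hz : ∀ k l : ℤ, (k ≠ phi a ib ∨ l ≠ phi a iT) → E.coeff (x + k • b + l • T) = 0 := by
        intro k l hkl
        by_contra h4
        have h5 : x + k • b + l • T = a + (k - phi a ib) • b + (l - phi a iT) • T := by
          rw [hx, sub_smul, sub_smul]; abel
        rw [h5] at h4
        have h6 := h2 _ _ h4
        rcases hkl with h | h
        · exact h (sub_eq_zero.mp h6.1)
        · exact h (sub_eq_zero.mp h6.2)
      have haE : E.coeff a ≠ 0 := ha
      have haB : bcR (E.coeff a) ≠ 0 := fun h => haE (bcR_inj (h.trans (map_zero _).symm))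
      have e00 : x + (0 : ℤ) • b + (0 : ℤ) • T = x := by simp
      have e01 : x + (0 : ℤ) • b + (1 : ℤ) • T = x + T := by simp
      have e10 : x + (1 : ℤ) • b + (0 : ℤ) • T = x + b := by simp
      have e11 : x + (1 : ℤ) • b + (1 : ℤ) • T = x + b + T := by simp
      rcases hD.bin a ha ib with hb1 | hb1 <;> rcases hD.bin a ha iT with hb2 | hb2
      · have z1 := hz 0 1 (Or.inr (by rw [hb2]; norm_num))
        have z2 := hz 1 0 (Or.inl (by rw [hb1]; norm_num))
        have z3 := hz 1 1 (Or.inl (by rw [hb1]; norm_num))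
        rw [e01] at z1; rw [e10] at z2; rw [e11] at z3
        rw [z1, z2, z3] at h3
        have hxa : x = a := by rw [hx, hb1, hb2]; simp
        rw [hxa] at h3
        apply haB
        simpa using h3
      · have z1 := hz 0 0 (Or.inr (by rw [hb2]; norm_num))
        have z2 := hz 1 0 (Or.inl (by rw [hb1]; norm_num))
        have z3 := hz 1 1 (Or.inl (by rw [hb1]; norm_num))
        rw [e00] at z1; rw [e10] at z2; rw [e11] at z3
        rw [z1, z2, z3] at h3
        have hxa : x + T = a := by rw [hx, hb1, hb2]; simp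
        rw [hxa] at h3
        have h4 : (k0 : RO Eis) * bcR (E.coeff a) = 0 := by simpa using h3
        exact haB ((mul_eq_zero.mp h4).resolve_left k0.ne_zero)
      · have z1 := hz 0 0 (Or.inl (by rw [hb1]; norm_num))
        have z2 := hz 0 1 (Or.inl (by rw [hb1]; norm_num))
        have z3 := hz 1 1 (Or.inr (by rw [hb2]; norm_num))
        rw [e00] at z1; rw [e01] at z2; rw [e11] at z3
        rw [z1, z2, z3] at h3
        have hxa : x + b = a := by rw [hx, hb1, hb2]; simp
        rw [hxa] at h3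
        have h4 : (k1 : RO Eis) * bcR (E.coeff a) = 0 := by simpa using h3
        exact haB ((mul_eq_zero.mp h4).resolve_left k1.ne_zero)
      · have z1 := hz 0 0 (Or.inl (by rw [hb1]; norm_num))
        have z2 := hz 0 1 (Or.inl (by rw [hb1]; norm_num))
        have z3 := hz 1 0 (Or.inr (by rw [hb2]; norm_num))
        rw [e00] at z1; rw [e01] at z2; rw [e10] at z3
        rw [z1, z2, z3] at h3
        have hxa : x + b + T = a := by rw [hx, hb1, hb2]; simp
        rw [hxa] at h3
        have h4 : (k1 : RO Eis) * (k0 : RO Eis) * bcR (E.coeff a) = 0 := by simpa using h3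
        exact haB ((mul_eq_zero.mp h4).resolve_left (mul_ne_zero k1.ne_zero k0.ne_zero))
    · exact h2 hpa

end

end Pool.Agent.B5.BP12
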