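import Pool.Agent.Lib.MP_b5021c_nt.BP.H12.T2f
import Pool.Agent.Lib.MP_b5021c_nt.BP.H57.T2n
import Pool.Agent.Lib.MP_b5021c_nt.BP.H90.T2s1f
import Pool.Agent.Lib.MP_b5021c_nt.BP.H90.T2sb
import Pool.Agent.Lib.MP_b5021c_nt.BP.H52.Mc1

/-!
# Board b5, BpS: row BPR_T2 (helper12; pieces of helper57, helper90, helper52)
-/

namespace Pool.Agent.B5.BP12

open scoped LaurentPolynomial
open Polynomial
open Pool.Agent.B5
open Pool.Agent.B5.BPR
open Pool.Agent.MP_b5021c_nt (Eis)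
open Pool.Agent.MP_b5021c_nt.Ire (bc)
open Pool.Agent.B5.H25.Bch
open Pool.Agent.B5.BP90 (Et pE pE_inj embN et_im_ne)

set_option linter.unusedSectionVars false

/-- (MCONE) the integer content of the double closing at `e^(i pi/3)`. Owner: helper52. -/
def McOneS : Prop := ∀ (P L : Type) [Fintype P] [DecidableEq P] [AddCommGroup L]
  [Module.Free ℤ L] [Module.Finite ℤ L] (phi : L →+ (P → ℤ)) (H : AO Eis L) (b : L) (j : P)
  (u : (RO Eis)ˣ) (hj : co phi j b = 1) (c : RO Eis) (n : ℕ)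
  (G : Fin n → AO Eis (Ker (co phi j))) (et : Eis) (N : ℕ) (NV : ℝ) (w : (RO Eis)ˣ)
  (v bt : Eis[X]), FD phi H b j u hj c n G → ImS phi b → Et et → 3 ≤ N →
    Module.finrank ℤ L + 2 = 2 * N → ClassV NV (H.coeff 0) →
    (w : RO Eis) * H.coeff 0 = toLaurent v → v.coeff 0 = ((N : ℤ) : Eis) - et →
    (w : RO Eis) * ((u : RO Eis) * H.coeff b) = -toLaurent bt → bt.coeff 0 = 1 →
    rk (supp (cl (co phi j) b hj u H)) = Module.finrank ℤ (Ker (co phi j)) → M c = 1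

/-- (MCONE) from `BP52.mc_one` (helper52). -/
theorem mcOneS (hSm : SmallS) (hQst : QstS) (hQp : Qp3S) (hKe : KerEvS) (hMm : MmulS)
    (hMV : MVS) (hE1 : E1S) (hDb : Db3S) (hNn : Nn3S) (hHp3 : Hp3S) (hGen : GenS)
    (hSl : SlEvalS) (hEvR : EvRS) (hSh : SharpS) (hDe : DensS) (hZ : ZfinS) (hUA : UnitAS)
    (hFace : FaceS) (hStS : StSpecS) (hMu : MultiS) (hE2 : E2S) (hPr : PrimS) (hB3 : B3S)
    (hFull : FullS) (hG1 : G1pS) (hLsn : LsnS) (hR : ResWDS) (hRS : ResStS) (hEv : EvS)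
    (hEvm : EvmS) (hU : UnitRS) (hVZ : VZS) (hRk : RkS) (hNd : Nd3vS) (hNr : Nr3S)
    (hHp : HpgS) : McOneS := by
  intro P L _ _ _ _ _ phi H b j u hj c n G et N NV w v bt fd hI he hN hr hcv hv hv0 hb hb0 hfull
  exact BP52.mc_one hSm hQst hQp hKe hMm hMV hE1 hDb hNn hHp3 hGen hSl hEvR hSh hDe hZ hUA hFace
    hStS hMu hE2 hPr hB3 hFull hG1 hLsn hR hRS hEv hEvm hU hVZ hRk hNd hNr hHp fd hI he hN hr hcv
    hv hv0 hb hb0 hfull

/-- (BPR_T2). -/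
theorem t2mS (hMc : McOneS) (hFD : FDS) (hE2 : E2S) (hVZ : VZS) (hU : UnitRS) (hMV : MVS)
    (hE1 : E1S) (hM1 : M1S) (hMm : MmulS) (hG0 : G0S) (hC0 : Coeff0S) (hW : WWfS)
    (hRF : RayFacS) (hQst : QstS) (hQra : QraS) (hMin : MinS) (hB5 : B5aS) (hRk : RkS)
    (hKm : KmuS) (hQc : Qc3S) (hDv : Dv3S) (hNd : Nd3vS) (hLMN : LMNS) (hUS : RkUSS)
    (hD2 : D2S) (hF1 : F1S) (hF2 : F2S) (hMco : McoS) (hD3 : D3S) (hMp : MpaS) (hVco : VcoS)
    (hG1 : G1pS) (hR : ResWDS) (hRS : ResStS) (hEv : EvS) (hEvR : EvRS) (hEvm : EvmS)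
    (hFcl : FclS) (hCno : Cno.CnoS) (hQm : Qm3S) (hNr : Nr3S) (hHp : HpgS) (hTa : Ta3S)
    (hUm : Um3vS) (hSt : St3S) (hSw : Sw3S) (hZ : ZfinS) (hNn : Nn3S) (hSm : SmallS)
    (hV1 : BP57.V1S) (hV1z : BP57.V1zS) : T2mS := by
  intro P L _ _ _ _ _ phi E N p g b i e T iT eT H hb hT hNb hNT h1 h2 hadj hone hfull
  classical
  have hX := H.toXt
  have hN := hX.n3
  have hD := hX.dd
  obtain ⟨et, he⟩ : ∃ et : Eis, Et et := ⟨_, BP90.et_g6⟩
  have hm : Mut E T b eT e := mut_of_ou hVco hD.inj hD.bin hT.ray hb.ray hT.po hb.po h2 h1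
  have hm' : Mut E b T e eT := mut_of_ou hVco hD.inj hD.bin hb.ray hT.ray hb.po hT.po h1 h2
  have hdis := dis_of_ou hVco hF2 hD.inj hD.bin hb.ray hT.ray hb.po h1
  have hIb := H.ims b (gray_of_gl hb)
  have hIT := H.ims T (gray_of_gl hT)
  have hp1 : ((1 : (RO ℤ)ˣ) : RO ℤ) * E.coeff 0 = toLaurent p := by
    rw [Units.val_one, one_mul, hX.e0]
  have hgT : ((1 : (RO ℤ)ˣ) : RO ℤ) * ((eT : RO ℤ) * E.coeff T) = -toLaurent g := by
    rw [Units.val_one, one_mul, hT.eq]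
  have hgb : ((1 : (RO ℤ)ˣ) : RO ℤ) * ((e : RO ℤ) * E.coeff b) = -toLaurent g := by
    rw [Units.val_one, one_mul, hb.eq]
  have hrk2 : 2 ≤ Module.finrank ℤ L := BP57.Xt.two hX
  have hTi : phi T i = 0 := by
    rcases hdis i with h | h
    · exact h
    · have h3 : phi b i = 1 := hb.po
      rw [h3] at h; exact absurd h one_ne_zero
  have hbiT : phi b iT = 0 := by
    rcases hdis iT with h | h
    · have h3 : phi T iT = 1 := hT.po
      rw [h3] at h; exact absurd h one_ne_zero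
    · exact h
  -- the units
  obtain ⟨eu, heu⟩ : IsUnit et := IsUnit.of_mul_eq_one _ (BP57.et_mul he)
  obtain ⟨k0, hk0⟩ : ∃ k0 : (RO Eis)ˣ, (k0 : RO Eis) = LaurentPolynomial.C et * bcR (eT : RO ℤ) :=
    ⟨Units.map (LaurentPolynomial.C : Eis →+* RO Eis) eu * bcU eT, by
      rw [Units.val_mul, H09.bcU_val]
      change LaurentPolynomial.C ((eu : Eisˣ) : Eis) * _ = _
      rw [heu]⟩
  obtain ⟨k1, hk1⟩ : ∃ k1 : (RO Eis)ˣ, (k1 : RO Eis) = LaurentPolynomial.C et * bcR (e : RO ℤ) :=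
    ⟨Units.map (LaurentPolynomial.C : Eis →+* RO Eis) eu * bcU e, by
      rw [Units.val_mul, H09.bcU_val]
      change LaurentPolynomial.C ((eu : Eisˣ) : Eis) * _ = _
      rw [heu]⟩
  obtain ⟨b', hb'⟩ : ∃ b' : Ker (co phi iT), (b' : L) = b := ⟨⟨b, hbiT⟩, rfl⟩
  obtain ⟨hDH, hRb, hH0, hHb, hclH⟩ := BP57.eta_mut hFD hE2 hVZ hU hMV hE1 hM1 hMm hG0 hC0 hW
    hRF hQst hQra hMin hB5 hRk hKm hQc hDv hNd hLMN hUS hD2 hF1 hF2 hMco (h0 := hT.po) he hk0 hk1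
    hD (by omega : 2 ≤ N) hrk2 hX.cv hm hIT hIb hp1 hX.p0 hgT H.g0 hb'
  obtain ⟨hIb', -⟩ := BP57.im2g hD2 hF1 hF2 hD3 hRk hD hm hIT hIb
    (fun mu hmu h0 => H.fct mu T hmu (gray_of_gl hT) h0) hT.po hb'
  have hj : co (phO phi T iT) i b' = 1 := by
    change (if phi T i = 0 then phi (b' : L) i else 0) = 1
    rw [if_pos hTi, hb']
    exact hb.po
  have hfullH := t2_full hMp hKm hRk hD hb.po hm' hdis hfull he hk0 hk1 hb' (hj := hj) hDH.bin
  have hkerT := BP57.finrank_kerO hRk hT.po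
  have hr : Module.finrank ℤ (Ker (co phi iT)) + 2 = 2 * N := by have := hX.rkL; omega
  have hv0 : (pE p - C et * pE g).coeff 0 = ((N : ℤ) : Eis) - et := by
    rw [coeff_sub, coeff_C_mul, BP57.pE_coeff, BP57.pE_coeff, hX.p0, H.g0]
    push_cast
    ring
  have hg0E : (pE g).coeff 0 = 1 := by rw [BP57.pE_coeff, H.g0]; push_cast; rfl
  have hne : (cl (co phi iT) T hT.po k0 (bc E)).coeff 0 +
      (k1 : RO Eis) * (cl (co phi iT) T hT.po k0 (bc E)).coeff b' ≠ 0 := by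
    intro h0
    have h3 : toLaurent (pE p - C et * pE g - pE g) = (0 : RO Eis) := by
      rw [map_sub, ← hH0]
      linear_combination (((bcU 1 : (RO Eis)ˣ) : RO Eis)) * h0 - hHb
    have h4 := congrArg (fun q : Eis[X] => q.coeff 0)
      (toLaurent_injective (h3.trans (map_zero _).symm))
    simp only [coeff_sub, coeff_zero] at h4
    rw [← coeff_sub, hv0, hg0E] at h4
    have h5 := congrArg (fun x : Eis => (Coef.emb x : ℂ).im) h4
    simp only [map_sub, map_one, map_zero, embN, Complex.sub_im, Complex.one_im, Complex.zero_im,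
      Complex.intCast_im] at h5
    apply et_im_ne he
    linarith
  obtain ⟨c, n, G, fd⟩ := hFD Eis P (Ker (co phi iT)) (phO phi T iT)
    (cl (co phi iT) T hT.po k0 (bc E)) b' i k1 hj ⟨hDH, by omega, hRb, hj, hne⟩
  have fin : (∃ (k : ℕ) (t r : ℤ), 1 ≤ k ∧ p = C (N : ℤ) + C t * X ^ k ∧ g = 1 + C r * X ^ k) →
      Cn N p g := by
    rintro ⟨k, t, r, hk, hp, hg⟩
    exact ⟨fun _ => Or.inl ⟨k, t, r, hk, hp, hg⟩, fun _ => Or.inl ⟨k, t, hk, hp⟩⟩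
  by_cases hs : snp (phO phi T iT) b' i G = ∅
  · obtain ⟨G0, -, -, -, -, -, hcase⟩ := BP57.t2n hG1 hR hRS hEv hEvm hFcl hE1 hMV hMm hU hE2 hVZ
      hRk hCno fd hs hIb' he hN hr hclH hH0 hv0 hHb hg0E hfullH
    apply fin
    refine BP57.bin_of_t2n he hX.p0 H.g0 (a := ((N : ℤ) : Eis) - et - 1) ?_
    rcases hcase with ⟨-, h3⟩ | ⟨d, s, G', R, hd, h3, -⟩
    · exact Or.inl h3
    · exact Or.inr ⟨d, s, hd, h3⟩
  · have hsn := Finset.nonempty_iff_ne_empty.mpr hs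
    have hM := hMc P (Ker (co phi iT)) (phO phi T iT) (cl (co phi iT) T hT.po k0 (bc E)) b' i k1
      hj c n G et N _ _ _ _ fd hIb' he hN hr hclH hH0 hv0 hHb hg0E hfullH
    rcases BP90.t2s_bin hQc hE2 hNd hDv hQm hNr hHp hTa hUm hSt hSw hEvR hZ hNn hU hVZ hM1 hMV hV1 fd hM hsn
      he hN hclH hr hH0 hX.p0 hHb H.g0 with hg | hg
    · -- `g = 1`
      have hgb1 : ((1 : (RO ℤ)ˣ) : RO ℤ) * ((e : RO ℤ) * E.coeff b) = -1 := by
        rw [hgb, hg, map_one]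
      have fin1 : (p = C (N : ℤ) ∨ ∃ (d : ℕ) (u : ℤ), 1 ≤ d ∧ (u = 1 ∨ u = -1) ∧
          p = C (N : ℤ) + C u * Polynomial.X ^ d) → Cn N p g := by
        rintro (h3 | ⟨d, u, hd, -, h3⟩)
        · exact ⟨fun hh => absurd hg hh, fun _ => Or.inl ⟨1, 0, le_rfl, by rw [h3]; simp⟩⟩
        · exact ⟨fun hh => absurd hg hh, fun _ => Or.inl ⟨d, u, hd, h3⟩⟩
      have hH0' := hH0.trans (by rw [hg] :
        toLaurent (pE p - C et * pE g) = toLaurent (pE p - C et * pE 1))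
      have hHb' := hHb.trans (by rw [hg] : -toLaurent (pE g) = -toLaurent (pE 1))
      rcases BP90.t2s1 hQc hE2 hNd hDv hQm hNr hHp hTa hEvR hZ hNn hU hVZ hM1 hMV hVco hb.po hTi hD
        hm he hk1 hb' fd hM hsn hN hclH hp1 hX.p0 hgb1 hH0' hHb' with h3 | ⟨X', e2, hXr, hV0, hVX⟩
      · exact fin1 (Or.inl h3)
      · obtain ⟨c', n', G', fd'⟩ := hFD ℤ P L phi E b i e hb.po (BP57.gl_cc hE2 hVZ hU hX hb)
        have hs' := BP57.snp_of_nb hSm fd' hNb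
        obtain ⟨mu, hmk, hmT⟩ := h1
        have hrk := BP57.one_of_kw hKm hRk hD hb.po (mu := mu)
          (fun h0 => hmT (by rw [h0]; rfl)) hmk hone
        exact fin1 (BP90.t2s1_fin hG0 hC0 hMm hU hE2 hVZ hW hRF hR hRS hRk hEvR hV1z fd' hIb hs' hN
          hX.cv hX.rkL hp1 hX.p0 hgb1 hrk hXr hV0 hVX)
    · exact fin hg

end Pool.Agent.B5.BP12
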