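import Pool.Agent.Lib.MP_b5021c_nt.IfaceBPR
import Pool.Agent.Lib.MP_b5021c_nt.BP.H57.Twg
import Pool.Agent.Lib.MP_b5021c_nt.BP.H71.Struct
import Pool.Agent.Lib.MP_b5021c_nt.B.H56.Gen
import Pool.Agent.Lib.MP_b5021c_nt.B.H63.F5c
import Pool.Agent.Lib.MP_b5021c_nt.H47.Dist

/-!
# Board b5, BpS, w-level dictionary (helper12)

`Kw phi E b i e mu` (killing functionals) in terms of `US e b E`; `Ou` and `Mut`; the system
`Tot.Sys` of all rays; two- and three-dimensional faces.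
-/

namespace Pool.Agent.B5.BP12

open scoped LaurentPolynomial
open Polynomial
open Pool.Agent.B5
open Pool.Agent.B5.BPR

set_option linter.unusedSectionVars false

section

variable {P : Type} [Fintype P] [DecidableEq P] {L : Type} [AddCommGroup L] [Module.Free ℤ L]
  [Module.Finite ℤ L]

/-- `Kw` in terms of `US`. -/
theorem kw_us (hVco : VcoS) {phi : L →+ (P → ℤ)} {E : AO ℤ L} (hinj : Function.Injective phi)
    (hbin : ∀ a ∈ supp E, Bin phi a) {b : L} (hb : b ∈ supp E) (hb0 : b ≠ 0) {i : P}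
    {e : (RO ℤ)ˣ} (h : co phi i b = 1) {mu : L →+ ℤ} :
    Kw phi E b i e mu ↔ ∀ a ∈ US e b E, mu a = 0 := by
  have hbi : ∀ a ∈ supp E, co phi i a = 0 ∨ co phi i a = 1 := fun a ha => hbin a ha i
  obtain ⟨v1, -, -, -, v5⟩ := hVco ℤ P L phi E b e hinj hbin (hbin b hb) hb0
  have hc := Pool.Agent.B5.H47.cl_coeff_bin (co phi i) b h e E hbi
  constructor
  · rintro ⟨hmb, hk⟩
    have key : Submodule.span ℤ (insert b {a : L | vco e b E a ≠ 0}) ≤
        LinearMap.ker mu.toIntLinearMap := by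
      refine Submodule.span_le.mpr fun x hx => ?_
      change mu x = 0
      rcases hx with hx | hx
      · rw [hx, hmb]
      · have hx' : vco e b E x ≠ 0 := hx
        obtain ⟨a0, ha0⟩ : ∃ a0 : L, a0 = x - co phi i x • b := ⟨_, rfl⟩
        have hker : co phi i a0 = 0 := by
          rw [ha0, map_sub, map_zsmul, h, smul_eq_mul, mul_one, sub_self]
        have hxa : x = a0 + co phi i x • b := by rw [ha0]; abel
        rw [hxa, v1] at hx'
        have h2 := right_ne_zero_of_mul hx'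
        rw [hxa, map_add, map_zsmul, hmb, smul_zero, add_zero]
        by_contra hne
        apply h2
        rw [← v5 i h ⟨a0, hker⟩, hc]
        exact hk a0 hker hne
    rintro a ⟨n, hn, ha⟩
    have h1 : mu (n • a) = 0 := key ha
    rw [map_zsmul, smul_eq_mul] at h1
    exact (mul_eq_zero.mp h1).resolve_left hn
  · intro hU
    refine ⟨hU b (S_memUS e b E), fun x hx hne => ?_⟩
    have h1 : vco e b E x = 0 := by
      by_contra h2
      exact hne (hU x (Pool.Agent.B5.H63.le_satur _ (Submodule.subset_span (Or.inr h2))))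
    have h3 := v5 i h ⟨x, hx⟩
    rw [hc, h1] at h3
    exact h3

/-- `Ou` in terms of `US`. -/
theorem ou_us (hVco : VcoS) {phi : L →+ (P → ℤ)} {E : AO ℤ L} (hinj : Function.Injective phi)
    (hbin : ∀ a ∈ supp E, Bin phi a) {b : L} (hb : b ∈ supp E) (hb0 : b ≠ 0) {i : P}
    {e : (RO ℤ)ˣ} (h : co phi i b = 1) {T : L} : Ou phi E b i e T ↔ T ∉ US e b E := by
  constructor
  · rintro ⟨mu, hk, hT⟩ hU
    exact hT ((kw_us hVco hinj hbin hb hb0 h).mp hk T hU)
  · intro hT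
    obtain ⟨mu, h1, h2⟩ := Pool.Agent.B5.H56.exists_sep L (US e b E)
      (Pool.Agent.B5.H47.sat_US e b E) T hT
    exact ⟨mu, (kw_us hVco hinj hbin hb hb0 h).mpr h1, h2⟩

/-- Two rays which see each other are mutual. -/
theorem mut_of_ou (hVco : VcoS) {phi : L →+ (P → ℤ)} {E : AO ℤ L}
    (hinj : Function.Injective phi) (hbin : ∀ a ∈ supp E, Bin phi a) {b T : L} (hb : Ray E b)
    (hT : Ray E T) {i j : P} {e eT : (RO ℤ)ˣ} (hi : co phi i b = 1) (hj : co phi j T = 1)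
    (h1 : Ou phi E b i e T) (h2 : Ou phi E T j eT b) : Mut E b T e eT :=
  ⟨hb, hT, (ou_us hVco hinj hbin hb.1 hb.2.1 hi).mp h1, (ou_us hVco hinj hbin hT.1 hT.2.1 hj).mp h2⟩

/-- A ray seen by `b` is disjoint from `b`. -/
theorem dis_of_ou (hVco : VcoS) (hF2 : F2S) {phi : L →+ (P → ℤ)} {E : AO ℤ L}
    (hinj : Function.Injective phi) (hbin : ∀ a ∈ supp E, Bin phi a) {b T : L} (hb : Ray E b)
    (hT : Ray E T) {i : P} {e : (RO ℤ)ˣ} (hi : co phi i b = 1) (h1 : Ou phi E b i e T) :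
    ∀ q, phi T q = 0 ∨ phi b q = 0 :=
  hF2 ℤ P L phi E T b e hinj hbin hT hb ((ou_us hVco hinj hbin hb.1 hb.2.1 hi).mp h1)

/-- The functionals which vanish on the support vanish. -/
theorem zero_of_supp {phi : L →+ (P → ℤ)} {E : AO ℤ L} (hD : DD phi E) {mu : L →+ ℤ}
    (h : ∀ a ∈ supp E, mu a = 0) : mu = 0 := by
  ext x
  obtain ⟨n, hn, hn1⟩ := Pool.Agent.B5.H61.full_index (⊤ : Submodule ℤ L) (supp E)
    (fun _ _ => Submodule.mem_top) (by rw [finrank_top]; exact hD.spn) x Submodule.mem_top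
  have h1 : Submodule.span ℤ (supp E) ≤ LinearMap.ker mu.toIntLinearMap :=
    Submodule.span_le.mpr h
  have h2 : mu (n • x) = 0 := h1 hn1
  rw [map_zsmul, smul_eq_mul] at h2
  exact (mul_eq_zero.mp h2).resolve_left hn

/-- The rays form a finite type. -/
theorem finite_rays (E : AO ℤ L) : Finite {R : L // Ray E R} := by
  have h : {R : L | Ray E R} ⊆ (E.coeff.support : Set L) := fun R hR =>
    Finset.mem_coe.mpr (Finsupp.mem_support_iff.mpr hR.1)
  exact ((E.coeff.support.finite_toSet).subset h).to_subtype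

/-- THE SYSTEM OF RAYS (w-level). -/
theorem sysW (hVco : VcoS) (hF2 : F2S) {phi : L →+ (P → ℤ)} {E : AO ℤ L} (hD : DD phi E)
    (i : L → P) (e : L → (RO ℤ)ˣ) (hi : ∀ R, Ray E R → co phi (i R) R = 1) :
    Tot.Sys (fun a => E.coeff a) (fun R : {R : L // Ray E R} => R.1)
      (fun R => co phi (i R.1)) (fun R => ((e R.1 : (RO ℤ)ˣ) : RO ℤ)) where
  bi := fun R x hx => hD.bin x hx (i R.1)
  one := fun R => hi R.1 R.2
  ne := fun R => (e R.1).ne_zero
  cR := fun R => R.2.1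
  dis := by
    intro R T mu hmu hne
    have h1 := dis_of_ou hVco hF2 hD.inj hD.bin R.2 T.2 (hi R.1 R.2)
      (⟨mu, hmu, hne⟩ : Ou phi E R.1 (i R.1) (e R.1) T.1)
    constructor
    · rcases h1 (i R.1) with h | h
      · exact h
      · have h2 : phi R.1 (i R.1) = 1 := hi R.1 R.2
        rw [h2] at h
        exact absurd h one_ne_zero
    · rcases h1 (i T.1) with h | h
      · have h2 : phi T.1 (i T.1) = 1 := hi T.1 T.2
        rw [h2] at h
        exact absurd h one_ne_zero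
      · exact h
  spn := fun mu h => zero_of_supp hD h

theorem gray_of_gl {phi : L →+ (P → ℤ)} {E : AO ℤ L} {b : L} {i : P} {e : (RO ℤ)ˣ} {g : ℤ[X]}
    (hb : Gl phi E b i e g) : Gray g E b :=
  ⟨hb.ray, -e, by rw [Units.val_neg, neg_mul, hb.eq, neg_neg]⟩

/-- `ImS` for the rays adjacent to a `g`-ray. -/
theorem ims_adj (hD3 : D3S) (hRk : RkS) {N : ℕ} {p g : ℤ[X]} {phi : L →+ (P → ℤ)} {E : AO ℤ L}
    (H : Rdc N p g phi E) {b : L} (hb : Gray g E b) {T : L} (hT : Ray E T)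
    (hadj : BPR.Adj E b T) (hdis : ∀ q, phi T q = 0 ∨ phi b q = 0) : ImS phi T := by
  obtain ⟨l, lb, lT, lp⟩ := hadj
  have hbs := hb.1.1
  obtain ⟨q, hq⟩ := ex_port H.dd.inj (H.dd.bin b hbs) hb.1.2.1
  have hTq : phi T q = 0 := by
    rcases hdis q with h | h
    · exact h
    · rw [hq] at h; exact absurd h one_ne_zero
  intro a ha
  obtain ⟨k, j, hkj⟩ := BP57.inj2g hD3 hRk H.dd hb.1 hT (fun i => (hdis i).symm) lb lT lp
    (fun mu hmu h0 => H.fct mu b hmu hb h0) a (fun i _ h1 => ha i h1)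
  have h1 := congrArg (fun x => phi x q) hkj
  simp only [map_add, map_zsmul, Pi.add_apply, Pi.smul_apply, hq, hTq, ha q hTq, smul_eq_mul,
    mul_one, mul_zero, add_zero] at h1
  exact ⟨j, by rw [hkj, ← h1, zero_smul, zero_add]⟩

/-- (BP_3F) for an element: `mu ≠ 0` kills the closings of the adjacent rays `b`, `T`. -/
theorem face3D (hGen : GenS) (hF1 : F1S) {phi : L →+ (P → ℤ)} (hinj : Function.Injective phi)
    {D : AO ℤ L} (hbin : ∀ a ∈ supp D, Bin phi a) {b T : L} (hb : Ray D b) (hT : Ray D T)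
    (hdis : ∀ p, phi T p = 0 ∨ phi b p = 0) (hadj : BPR.Adj D b T) {eb eT : (RO ℤ)ˣ} {mu : L →+ ℤ}
    (hmb : ∀ a ∈ US eb b D, mu a = 0) (hmT : ∀ a ∈ US eT T D, mu a = 0) {a1 : L}
    (ha1 : a1 ∈ supp D) (hm1 : mu a1 ≠ 0) :
    ∃ x, Ray D x ∧ mu x ≠ 0 ∧ (∀ p, phi x p = 0 ∨ (phi b p = 0 ∧ phi T p = 0)) ∧
      BPR.Adj D b x ∧ BPR.Adj D T x ∧
      ∃ l : L →+ ℤ, l b = 0 ∧ l T = 0 ∧ l x = 0 ∧ ∀ a ∈ supp D, 0 ≤ l a ∧ (l a = 0 →
        ∃ i j k : ℤ, (i = 0 ∨ i = 1) ∧ (j = 0 ∨ j = 1) ∧ (k = 0 ∨ k = 1) ∧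
          a = i • b + j • T + k • x) := by
  obtain ⟨hbs, hb0, -⟩ := id hb
  obtain ⟨hTs, hT0, -⟩ := id hT
  obtain ⟨l, lb, lT, lp⟩ := hadj
  have hA : ∀ a, a ∈ D.coeff.support ↔ a ∈ supp D := fun a => Finsupp.mem_support_iff
  -- one step: removing a killed ray
  have step : ∀ (S : L) (eS : (RO ℤ)ˣ), Ray D S → (∀ a ∈ US eS S D, mu a = 0) →
      ∀ a ∈ supp D, mu a ≠ 0 → ∃ a' ∈ supp D, (∀ p, phi a' p = 0 ∨ phi S p = 0) ∧
        (∀ p, phi a' p = 0 ∨ phi a' p = phi a p) ∧ (a = a' ∨ a = a' + S) := by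
    intro S eS hS hmS a ha hma
    have hmS0 : mu S = 0 := hmS S (S_memUS eS S D)
    have hU : a ∉ US eS S D := fun h => hma (hmS a h)
    have hBa := hbin a ha
    have f := hF1 ℤ P L phi D S eS hinj hbin (hbin S hS.1) hS.2.1
    by_cases h1 : ∃ i, phi a i = 1 ∧ phi S i = 1
    · by_cases h2 : ∃ i, phi a i = 0 ∧ phi S i = 1
      · exact absurd ((f a hU).1 h1 h2) ha
      · have hall : ∀ i, phi S i = 1 → phi a i = 1 := by
          intro i hi
          rcases hBa i with h | h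
          · exact absurd ⟨i, h, hi⟩ h2
          · exact h
        have hma' : mu (a - S) ≠ 0 := by rw [map_sub, hmS0, sub_zero]; exact hma
        have hU' : a - S ∉ US eS S D := fun h => hma' (hmS _ h)
        have hdis' : ∀ i, phi (a - S) i = 0 ∨ phi S i = 0 := by
          intro i
          rcases hbin S hS.1 i with h | h
          · exact Or.inr h
          · left
            rw [map_sub, Pi.sub_apply, h, hall i h, sub_self]
        have h3 := (f (a - S) hU').2 hdis'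
        rw [sub_add_cancel] at h3
        refine ⟨a - S, ?_, hdis', ?_, Or.inr (sub_add_cancel a S).symm⟩
        · intro h4
          rw [h4, zero_add] at h3
          exact ha ((mul_eq_zero.mp h3).resolve_left eS.ne_zero)
        · intro i
          rcases hbin S hS.1 i with h | h
          · right
            rw [map_sub, Pi.sub_apply, h, sub_zero]
          · left
            rw [map_sub, Pi.sub_apply, h, hall i h, sub_self]
    · refine ⟨a, ha, ?_, fun i => Or.inr rfl, Or.inl rfl⟩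
      intro i
      rcases hBa i with h | h
      · exact Or.inl h
      · rcases hbin S hS.1 i with h3 | h3
        · exact Or.inr h3
        · exact absurd ⟨i, h, h3⟩ h1
  have hmb0 : mu b = 0 := hmb b (S_memUS eb b D)
  have hmT0 : mu T = 0 := hmT T (S_memUS eT T D)
  have hcl : ∀ a ∈ D.coeff.support, mu a ≠ 0 →
      ∃ a' ∈ D.coeff.support, (∀ p, phi a' p = 0 ∨ (phi b p = 0 ∧ phi T p = 0)) ∧
        ∃ i j : ℤ, a = a' + i • b + j • T := by
    intro a ha hma
    rw [hA] at ha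
    obtain ⟨a', ha', d1, -, c1⟩ := step b eb hb hmb a ha hma
    have hma' : mu a' ≠ 0 := by
      rcases c1 with h | h
      · rw [← h]; exact hma
      · rw [h, map_add, hmb0, add_zero] at hma
        exact hma
    obtain ⟨a'', ha'', d2, d3, c2⟩ := step T eT hT hmT a' ha' hma'
    refine ⟨a'', (hA _).mpr ha'', fun p => ?_, ?_⟩
    · rcases d2 p with h | h
      · exact Or.inl h
      · rcases d3 p with h3 | h3
        · exact Or.inl h3
        · rcases d1 p with h4 | h4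
          · left; rw [h3, h4]
          · exact Or.inr ⟨h4, h⟩
    · rcases c1 with h | h <;> rcases c2 with h' | h'
      · exact ⟨0, 0, by rw [h, h']; simp⟩
      · exact ⟨0, 1, by rw [h, h']; simp⟩
      · exact ⟨1, 0, by rw [h, h']; simp⟩
      · exact ⟨1, 1, by rw [h, h', one_smul, one_smul]; abel⟩
  obtain ⟨x, hxA, hxn, hxo, ⟨l1, l1x, l1p⟩, ⟨l2, l2b, l2x, l2p⟩, ⟨l3, l3T, l3x, l3p⟩,
      l4, l4b, l4T, l4x, l4p⟩ :=
    face3 hGen hinj D.coeff.support (fun a ha => hbin a ((hA a).mp ha)) ((hA b).mpr hbs) hb0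
      ((hA T).mpr hTs) hT0 hdis lb lT (fun a ha => lp a ((hA a).mp ha)) hmb0 hmT0 hcl
      ((hA a1).mpr ha1) hm1
  rw [hA] at hxA
  have hx0 : x ≠ 0 := fun h => hxn (by rw [h, map_zero])
  exact ⟨x, ⟨hxA, hx0, l1, l1x, fun a ha => l1p a ((hA a).mpr ha)⟩, hxn, hxo,
    ⟨l2, l2b, l2x, fun a ha => l2p a ((hA a).mpr ha)⟩,
    ⟨l3, l3T, l3x, fun a ha => l3p a ((hA a).mpr ha)⟩,
    l4, l4b, l4T, l4x, fun a ha => l4p a ((hA a).mpr ha)⟩

end

/-- (BPR_AD). -/
theorem adjS (hGen : GenS) (hF1 : F1S) (hF2 : F2S) (hVco : VcoS) (hD3 : D3S) (hRk : RkS) :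
    AdjS := by
  intro P L _ _ _ _ _ phi E N p g b i e mu H hb hk
  have hUS := (kw_us hVco H.dd.inj H.dd.bin hb.ray.1 hb.ray.2.1 hb.po).mp hk
  refine ⟨fun hmu => ?_, fun T hT hmT => ?_⟩
  · obtain ⟨a1, ha1, hm1⟩ : ∃ a1 ∈ supp E, mu a1 ≠ 0 := by
      by_contra hcon
      push Not at hcon
      exact hmu (zero_of_supp H.dd hcon)
    obtain ⟨T, hT, hmT, -, hl⟩ := face2D hGen hF1 H.dd.inj H.dd.bin hb.ray hUS ha1 hm1
    exact ⟨T, hT, hl, hmT⟩
  · have hdis := dis_of_ou hVco hF2 H.dd.inj H.dd.bin hb.ray hT hb.po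
      (⟨mu, hk, hmT⟩ : Ou phi E b i e T)
    exact ⟨hdis, fun hadj => ims_adj hD3 hRk H (gray_of_gl hb) hT hadj hdis⟩

end Pool.Agent.B5.BP12
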